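import Pool.Agent.TH594.KP.Sym

/-!
# Symmetric functions: the discrete Bochner inequality for general symmetries
-/

set_option autoImplicit false

namespace Pool.Agent.Q197.RG

open MeasureTheory Set
open scoped ENNReal InnerProductSpace
open Pool.Agent.H212R2.KLS (mu Bdd)
open Pool.Agent.H888R2.KT
open Pool.Agent.H888R2.KT.N9x
open Pool.Agent.TH594.KP (V GD)

variable {κ : Type} [Fintype κ]

theorem frame_clm {q : ℕ} (e : Fin q → V κ) {R : Type} [Fintype R] (r : R → V κ) (w : R → ℝ)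
    (hframe : ∀ x : V κ, ‖x‖ ^ 2 = ∑ j, ⟪e j, x⟫_ℝ ^ 2 + ∑ a, w a * ⟪r a, x⟫_ℝ ^ 2)
    (Λ : V κ →L[ℝ] ℝ) : ‖Λ‖ ^ 2 = ∑ j, (Λ (e j)) ^ 2 + ∑ a, w a * (Λ (r a)) ^ 2 := by
  obtain ⟨g, hg⟩ : ∃ g : V κ, (InnerProductSpace.toDual ℝ (V κ)) g = Λ :=
    (InnerProductSpace.toDual ℝ (V κ)).surjective Λ
  subst hg
  rw [LinearIsometryEquiv.norm_map, hframe g]
  simp only [InnerProductSpace.toDual_apply_apply, real_inner_comm g]

theorem fd2 {v : V κ → ℝ} (hv : ContDiff ℝ 2 v) (r x y : V κ) :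
    fderiv ℝ (fun z => fderiv ℝ v z r) x y = (fderiv ℝ (fderiv ℝ v) x y) r := by
  have h1 : DifferentiableAt ℝ (fderiv ℝ v) x :=
    ((hv.fderiv_right (m := 1) (by norm_num)).differentiable (by norm_num)) x
  have h2 := h1.hasFDerivAt.clm_apply (hasFDerivAt_const r x)
  rw [h2.fderiv]
  simp

open Classical in
theorem hs_le {q : ℕ} (e : Fin q → V κ) {R : Type} [Fintype R] (r : R → V κ) (w : R → ℝ)
    (hframe : ∀ x : V κ, ‖x‖ ^ 2 = ∑ j, ⟪e j, x⟫_ℝ ^ 2 + ∑ a, w a * ⟪r a, x⟫_ℝ ^ 2)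
    {v : V κ → ℝ} (hv : ContDiff ℝ 2 v) (x : V κ) :
    ∑ a, w a * ‖fderiv ℝ (fun z => fderiv ℝ v z (r a)) x‖ ^ 2 ≤ hs v x := by
  have h1 : hs v x = ∑ i, ‖fderiv ℝ (fderiv ℝ v) x (EuclideanSpace.single i 1)‖ ^ 2 := by
    unfold hs
    simp_rw [N8x.norm_sq_clm]
    rw [Finset.sum_comm]
    refine Finset.sum_congr rfl fun i _ => Finset.sum_congr rfl fun k _ => ?_
    rw [fd2 hv]
  have h2 : ∑ a, w a * ‖fderiv ℝ (fun z => fderiv ℝ v z (r a)) x‖ ^ 2 =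
      ∑ i, ∑ a, w a * ((fderiv ℝ (fderiv ℝ v) x (EuclideanSpace.single i 1)) (r a)) ^ 2 := by
    rw [Finset.sum_comm]
    refine Finset.sum_congr rfl fun a _ => ?_
    rw [N8x.norm_sq_clm, Finset.mul_sum]
    refine Finset.sum_congr rfl fun i _ => ?_
    rw [fd2 hv]
  rw [h1, h2]
  refine Finset.sum_le_sum fun i _ => ?_
  rw [frame_clm e r w hframe (fderiv ℝ (fderiv ℝ v) x (EuclideanSpace.single i 1))]
  have : 0 ≤ ∑ j, ((fderiv ℝ (fderiv ℝ v) x (EuclideanSpace.single i 1)) (e j)) ^ 2 :=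
    Finset.sum_nonneg fun j _ => sq_nonneg _
  linarith

/-- symmetric functions satisfy a Poincare inequality -/
theorem bochner {ρ : V κ → ℝ} (hρ : LC ρ) {q : ℕ} (e : Fin q → V κ) (he : Orthonormal ℝ e)
    (K : ℝ) (hK : 0 < K) (hSt : St e K ρ) (L : ℝ) (hLK : L ≤ K)
    (G : Set (V κ ≃ₗᵢ[ℝ] V κ)) (hG : ∀ g ∈ G, ∀ x, ρ (g x) = ρ x) {R : Type} [Fintype R]
    (r : R → V κ) (w : R → ℝ) (hw : ∀ a, 0 ≤ w a)
    (hframe : ∀ x : V κ, ‖x‖ ^ 2 = ∑ j, ⟪e j, x⟫_ℝ ^ 2 + ∑ a, w a * ⟪r a, x⟫_ℝ ^ 2)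
    (hgood : ∀ a, 0 < w a → ∀ v : V κ → ℝ, ContDiff ℝ 2 v → (∀ g ∈ G, ∀ x, v (g x) = v x) →
      ∫ x, (fderiv ℝ v x (r a)) ^ 2 ∂(mu ρ) ≤
        L * ∫ x, ‖fderiv ℝ (fun z => fderiv ℝ v z (r a)) x‖ ^ 2 ∂(mu ρ))
    (u : V κ → ℝ) (hu1 : ContDiff ℝ 1 u) (hu : ∀ g ∈ G, ∀ x, u (g x) = u x) :
    ∃ c : ℝ, ∫ x, (u x - c) ^ 2 ∂(mu ρ) ≤ 4 * K * ∫ x, ‖fderiv ℝ u x‖ ^ 2 ∂(mu ρ) := by
  refine Pool.Agent.W124.SX.iter hρ e he K hK hSt K le_rfl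
    {w | ∀ g ∈ G, ∀ x, w (g x) = w x} ?_ ?_ u hu hu1
  · intro w hw _ g hg x
    exact equiv hρ K g (hG g hg) w (hw g hg) x
  · intro f hf hf1
    obtain ⟨h2, -⟩ := key hρ e he K hK hSt K hK f hf1
    have hinv : ∀ g ∈ G, ∀ x, gs K (pst K ρ f) (g x) = gs K (pst K ρ f) x :=
      fun g hg x => equiv hρ K g (hG g hg) f (hf g hg) x
    generalize gs K (pst K ρ f) = v at h2 hinv ⊢
    have hd : ∀ a, ContDiff ℝ 1 (fun z => fderiv ℝ v z (r a)) :=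
      fun a => (h2.fderiv_right (m := 1) (by norm_num)).clm_apply contDiff_const
    have i1 : ∀ a, Integrable (fun x => (fderiv ℝ v x (r a)) ^ 2) (mu ρ) := fun a =>
      int_cont hρ ((hd a).continuous.pow 2)
    have i2 : ∀ a, Integrable (fun x => ‖fderiv ℝ (fun z => fderiv ℝ v z (r a)) x‖ ^ 2) (mu ρ) :=
      fun a => int_cont hρ (((hd a).continuous_fderiv (by norm_num)).norm.pow 2)
    have h4 : ∫ x, (‖fderiv ℝ v x‖ ^ 2 - ∑ j, (fderiv ℝ v x (e j)) ^ 2) ∂(mu ρ) =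
        ∑ a, w a * ∫ x, (fderiv ℝ v x (r a)) ^ 2 ∂(mu ρ) := by
      have h5 : ∀ x, ‖fderiv ℝ v x‖ ^ 2 - ∑ j, (fderiv ℝ v x (e j)) ^ 2 =
          ∑ a, w a * (fderiv ℝ v x (r a)) ^ 2 := by
        intro x
        rw [frame_clm e r w hframe (fderiv ℝ v x)]
        ring
      simp only [h5]
      rw [integral_finsetSum _ fun a _ => (i1 a).const_mul _]
      refine Finset.sum_congr rfl fun a _ => ?_
      rw [integral_const_mul]
    have h6 : ∑ a, w a * ∫ x, ‖fderiv ℝ (fun z => fderiv ℝ v z (r a)) x‖ ^ 2 ∂(mu ρ) ≤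
        ∫ x, hs v x ∂(mu ρ) := by
      have h7 : ∑ a, w a * ∫ x, ‖fderiv ℝ (fun z => fderiv ℝ v z (r a)) x‖ ^ 2 ∂(mu ρ) =
          ∫ x, ∑ a, w a * ‖fderiv ℝ (fun z => fderiv ℝ v z (r a)) x‖ ^ 2 ∂(mu ρ) := by
        rw [integral_finsetSum _ fun a _ => (i2 a).const_mul _]
        refine Finset.sum_congr rfl fun a _ => ?_
        rw [integral_const_mul]
      rw [h7]
      exact integral_mono (integrable_finsetSum _ fun a _ => (i2 a).const_mul _)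
        (int_cont hρ (hs_cont h2)) fun x => hs_le e r w hframe h2 x
    have h8 : 0 ≤ ∫ x, hs v x ∂(mu ρ) := by
      refine integral_nonneg fun x => ?_
      show 0 ≤ hs v x
      unfold hs
      positivity
    rw [h4]
    calc ∑ a, w a * ∫ x, (fderiv ℝ v x (r a)) ^ 2 ∂(mu ρ)
        ≤ ∑ a, w a * (L * ∫ x, ‖fderiv ℝ (fun z => fderiv ℝ v z (r a)) x‖ ^ 2 ∂(mu ρ)) :=
          Finset.sum_le_sum fun a _ => by
            rcases (hw a).eq_or_lt with h0 | h0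
            · rw [← h0, zero_mul, zero_mul]
            · exact mul_le_mul_of_nonneg_left (hgood a h0 v h2 hinv) (hw a)
      _ ≤ ∑ a, w a * (K * ∫ x, ‖fderiv ℝ (fun z => fderiv ℝ v z (r a)) x‖ ^ 2 ∂(mu ρ)) :=
          Finset.sum_le_sum fun a _ => mul_le_mul_of_nonneg_left
            (mul_le_mul_of_nonneg_right hLK (integral_nonneg fun x => by positivity)) (hw a)
      _ = K * ∑ a, w a * ∫ x, ‖fderiv ℝ (fun z => fderiv ℝ v z (r a)) x‖ ^ 2 ∂(mu ρ) := by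
          rw [Finset.mul_sum]
          exact Finset.sum_congr rfl fun a _ => by ring
      _ ≤ K * ∫ x, hs v x ∂(mu ρ) := mul_le_mul_of_nonneg_left h6 hK.le

end Pool.Agent.Q197.RG
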