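import Pool.Agent.TH597.HX.Step
import Pool.Agent.Q197.RA.Core

/-!
# Removing a Gaussian tilt with the KLS constant of the dimension of the tilted directions
-/

set_option autoImplicit false

namespace Pool.Agent.Q197.RG

open MeasureTheory Set
open scoped ENNReal InnerProductSpace
open Pool.Agent.H212R2.KLS (mu Bdd)
open Pool.Agent.H888R2.KT (LC St tw)
open Pool.Agent.H888R2.KT.G2x (mu_indicator integral_mu_mul mu_mono intg)
open Pool.Agent.TH594.KP (V GD gd_smul)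
open Pool.Agent.TH597.HX (LPP)
open Pool.Agent.Q197.RA (ball mu_mul)

/-- `D` is a constant for the Poincare inequality for log-concave measures of bounded support in
dimension `q` -/
def KPo (q : ℕ) (D : ℝ) : Prop :=
  ∀ ρ : V (Fin q) → ℝ, LC ρ → mu ρ univ = 1 → ∀ s : ℝ, 0 < s →
    (∀ θ : V (Fin q), ∫ x, ⟪θ, x⟫_ℝ ^ 2 ∂(mu ρ) ≤ s * ‖θ‖ ^ 2) →
    ∀ f : V (Fin q) → ℝ, ContDiff ℝ 1 f →
    ∃ c : ℝ, ∫ x, (f x - c) ^ 2 ∂(mu ρ) ≤ D * s * ∫ x, ‖fderiv ℝ f x‖ ^ 2 ∂(mu ρ)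

variable {q : ℕ} {D : ℝ}

theorem kpo_mass (h : KPo q D) (ρ : V (Fin q) → ℝ) (hL : LC ρ) (s : ℝ) (hs : 0 < s)
    (hmom : ∀ θ : V (Fin q), ∫ x, ⟪θ, x⟫_ℝ ^ 2 ∂(mu ρ) ≤ s * ‖θ‖ ^ 2 * (mu ρ univ).toReal)
    (f : V (Fin q) → ℝ) (hf : ContDiff ℝ 1 f) :
    ∃ c : ℝ, ∫ x, (f x - c) ^ 2 ∂(mu ρ) ≤ D * s * ∫ x, ‖fderiv ℝ f x‖ ^ 2 ∂(mu ρ) := by
  obtain ⟨m, hm⟩ : ∃ m : ℝ, m = (mu ρ univ).toReal := ⟨_, rfl⟩
  have hm0 : 0 < m := by
    rw [hm]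
    exact ENNReal.toReal_pos (by simpa using hL.ne) hL.fin
  have hmi : 0 ≤ m⁻¹ := (inv_pos.2 hm0).le
  have hmu := mu_mul ρ hL.meas m⁻¹ hmi
  have hG : GD (∅ : Set (V (Fin q) ≃ₗᵢ[ℝ] V (Fin q))) ρ :=
    ⟨hL.nonneg, hL.meas, hL.logc, fun g hg => absurd hg (by simp)⟩
  have hG' := gd_smul hG m⁻¹ hmi
  have h1 : mu (fun x => m⁻¹ * ρ x) univ = 1 := by
    rw [hmu, Measure.smul_apply, smul_eq_mul, ← ENNReal.ofReal_toReal hL.fin, ← hm,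
      ← ENNReal.ofReal_mul hmi, inv_mul_cancel₀ hm0.ne', ENNReal.ofReal_one]
  have hL' : LC (fun x => m⁻¹ * ρ x) := by
    refine ⟨hG'.nonneg, hG'.meas, hG'.logc, ?_, by rw [h1]; simp, fun h0 => ?_⟩
    · obtain ⟨R, hR⟩ := hL.bdd
      exact ⟨R, fun x hx => by simp only [hR x hx, mul_zero]⟩
    · rw [h0] at h1
      simp at h1
  have hint : ∀ g : V (Fin q) → ℝ, ∫ x, g x ∂(mu fun x => m⁻¹ * ρ x) = m⁻¹ * ∫ x, g x ∂(mu ρ) := by
    intro g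
    rw [hmu, integral_smul_measure, ENNReal.toReal_ofReal hmi, smul_eq_mul]
  obtain ⟨c, hc⟩ := h _ hL' h1 s hs (fun θ => by
    rw [hint, inv_mul_le_iff₀ hm0]
    refine (hmom θ).trans (le_of_eq ?_)
    rw [← hm]
    ring) f hf
  rw [hint, hint, inv_mul_le_iff₀ hm0] at hc
  refine ⟨c, hc.trans (le_of_eq ?_)⟩
  field_simp

theorem norm_sq_int (μ : Measure (V (Fin q))) [IsFiniteMeasure μ]
    (hb : ∃ R, μ (Metric.closedBall 0 R)ᶜ = 0) (s : ℝ)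
    (hmom : ∀ θ : V (Fin q), ∫ x, ⟪θ, x⟫_ℝ ^ 2 ∂μ ≤ s * ‖θ‖ ^ 2) :
    ∫ x, ‖x‖ ^ 2 ∂μ ≤ q * s := by
  have h1 : ∀ x : V (Fin q), ‖x‖ ^ 2 =
      ∑ p : Fin q, ⟪EuclideanSpace.single p (1 : ℝ), x⟫_ℝ ^ 2 := by
    intro x
    rw [EuclideanSpace.norm_sq_eq]
    refine Finset.sum_congr rfl fun p _ => ?_
    rw [EuclideanSpace.inner_single_left]
    simp
  simp_rw [h1]
  rw [integral_finsetSum _ fun p _ => intg μ hb _ (by fun_prop)]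
  refine (Finset.sum_le_sum fun p _ => hmom _).trans (le_of_eq ?_)
  simp

theorem lpp_of (hD0 : 0 ≤ D) (h : KPo q D) {ε : ℝ} (hε : 0 < ε) (hε2 : ε ^ 2 * q ≤ 1) :
    LPP (∅ : Set (V (Fin q) ≃ₗᵢ[ℝ] V (Fin q))) D 2 (fun x => ε * ‖x‖) where
  add x y := by
    have := mul_le_mul_of_nonneg_left (norm_add_le x y) hε.le
    linarith
  smul c x := by
    simp only [norm_smul, Real.norm_eq_abs]
    ring
  closed r := isClosed_le (continuous_const.mul continuous_norm) continuous_const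
  bdd := ⟨ε⁻¹, fun x => by
    rw [← mul_assoc, inv_mul_cancel₀ hε.ne', one_mul]⟩
  inv g hg := absurd hg (by simp)
  poi ρ hG hL a s ha hs hmom hsupp f hf := by
    obtain ⟨c, hc⟩ := kpo_mass h ρ hL s hs hmom f hf
    refine ⟨c, hc.trans (mul_le_mul_of_nonneg_right ?_ (integral_nonneg fun x => by positivity))⟩
    nlinarith [mul_nonneg hD0 (sq_nonneg a)]
  tail ρ hG hb h1 s hs hmom := by
    have hprob : IsProbabilityMeasure (mu ρ) := ⟨h1⟩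
    have hball := ball hG.meas hb
    have h2 := norm_sq_int (mu ρ) hball s hmom
    have h3 := mul_meas_ge_le_integral_of_nonneg (μ := mu ρ) (f := fun x => ‖x‖ ^ 2)
      (ae_of_all _ fun x => by positivity) (intg _ hball _ (by fun_prop)) (4 * s / ε ^ 2)
    have hm : MeasurableSet {x : V (Fin q) | ε * ‖x‖ ≤ 2 * Real.sqrt s} :=
      measurableSet_le (by fun_prop) measurable_const
    have h4 : (mu ρ).real {x : V (Fin q) | ε * ‖x‖ ≤ 2 * Real.sqrt s}ᶜ ≤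
        (mu ρ).real {x : V (Fin q) | 4 * s / ε ^ 2 ≤ ‖x‖ ^ 2} := by
      refine measureReal_mono fun x hx => ?_
      have hx' : 2 * Real.sqrt s < ε * ‖x‖ := not_le.1 hx
      show 4 * s / ε ^ 2 ≤ ‖x‖ ^ 2
      rw [div_le_iff₀ (by positivity)]
      have h5 : (2 * Real.sqrt s) ^ 2 ≤ (ε * ‖x‖) ^ 2 :=
        pow_le_pow_left₀ (by positivity) hx'.le 2
      rw [mul_pow, Real.sq_sqrt hs.le] at h5
      nlinarith
    rw [probReal_compl_eq_one_sub hm] at h4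
    have h5 : 4 * s / ε ^ 2 * (mu ρ).real {x : V (Fin q) | 4 * s / ε ^ 2 ≤ ‖x‖ ^ 2} ≤ q * s :=
      h3.trans h2
    have h6 : (mu ρ).real {x : V (Fin q) | 4 * s / ε ^ 2 ≤ ‖x‖ ^ 2} ≤ 1 / 4 := by
      rw [div_mul_eq_mul_div, div_le_iff₀ (by positivity)] at h5
      have h7 : (q : ℝ) * s * ε ^ 2 ≤ s := by nlinarith
      nlinarith
    linarith

theorem untD (hD0 : 0 ≤ D) (h : KPo q D) {κ : Type} [Fintype κ] (ρ : V κ → ℝ) (hρ : LC ρ)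
    (e : Fin q → V κ) (he : Orthonormal ℝ e) (K : ℝ) (hK : 0 < K)
    (hmom : ∀ θ : V κ, ∫ x, ⟪θ, x⟫_ℝ ^ 2 ∂(mu ρ) ≤ K * ‖θ‖ ^ 2 * (mu ρ univ).toReal)
    (hloc : ∀ (τ : V (Fin q)) (f : V κ → ℝ), ContDiff ℝ 1 f →
      ∃ c : ℝ, ∫ x, (f x - c) ^ 2 * tw e K τ x ∂(mu ρ) ≤
        5 * K * ∫ x, ‖fderiv ℝ f x‖ ^ 2 * tw e K τ x ∂(mu ρ))
    (f : V κ → ℝ) (hf : ContDiff ℝ 1 f) :
    ∃ c : ℝ, ∫ x, (f x - c) ^ 2 ∂(mu ρ) ≤
      5210 * (1 + D) * K * ∫ x, ‖fderiv ℝ f x‖ ^ 2 ∂(mu ρ) := by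
  have hne : NeZero (mu ρ) := ⟨hρ.ne⟩
  have hfi : IsFiniteMeasure (mu ρ) := ⟨lt_top_iff_ne_top.2 hρ.fin⟩
  have hbd := ball hρ.meas hρ.bdd
  obtain ⟨R, hR⟩ := hρ.bdd
  have hsK : 0 < Real.sqrt K := Real.sqrt_pos.2 hK
  obtain ⟨ε, hε, hε1, hε2⟩ : ∃ ε : ℝ, 0 < ε ∧ ε ^ 2 * q ≤ 1 ∧ ε * |R| ≤ Real.sqrt K := by
    refine ⟨min (1 / (q + 1)) (Real.sqrt K / (|R| + 1)), ?_, ?_, ?_⟩
    · have : (0:ℝ) < |R| + 1 := by positivity
      positivity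
    · have h1 : min (1 / ((q : ℝ) + 1)) (Real.sqrt K / (|R| + 1)) ≤ 1 / (q + 1) := min_le_left _ _
      have h0 : 0 ≤ min (1 / ((q : ℝ) + 1)) (Real.sqrt K / (|R| + 1)) := by positivity
      have h2 : min (1 / ((q : ℝ) + 1)) (Real.sqrt K / (|R| + 1)) ^ 2 ≤ (1 / (q + 1)) ^ 2 :=
        pow_le_pow_left₀ h0 h1 2
      have h3 : (0 : ℝ) ≤ q := Nat.cast_nonneg _
      refine (mul_le_mul_of_nonneg_right h2 h3).trans ?_
      rw [div_pow, one_pow, div_mul_eq_mul_div, one_mul, div_le_one (by positivity)]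
      nlinarith
    · have h1 : min (1 / ((q : ℝ) + 1)) (Real.sqrt K / (|R| + 1)) ≤ Real.sqrt K / (|R| + 1) :=
        min_le_right _ _
      refine (mul_le_mul_of_nonneg_right h1 (abs_nonneg R)).trans ?_
      rw [div_mul_eq_mul_div, div_le_iff₀ (by positivity)]
      nlinarith
  have hl := lpp_of hD0 h hε hε1
  obtain ⟨c, hc⟩ : ∃ c : ℝ, c = Real.sqrt K + 3 * (2 * Real.sqrt (2 * K)) := ⟨_, rfl⟩
  have hc0 : 0 < c := by rw [hc]; positivity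
  have hc2 : c ^ 2 ≤ 100 * K := by
    have h1 : Real.sqrt (2 * K) = Real.sqrt 2 * Real.sqrt K := Real.sqrt_mul (by norm_num) K
    have h2 : Real.sqrt 2 ≤ 3 / 2 := by
      rw [Real.sqrt_le_left (by norm_num)]
      norm_num
    have h3 : c ≤ 10 * Real.sqrt K := by
      rw [hc, h1]
      nlinarith
    calc c ^ 2 ≤ (10 * Real.sqrt K) ^ 2 := pow_le_pow_left₀ hc0.le h3 2
      _ = 100 * K := by rw [mul_pow, Real.sq_sqrt hK.le]; norm_num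
  have hlow : ∀ x, ρ x ≠ 0 → Pool.Agent.TH597.HX.Out.GG q K / 2 ≤
      ∫ τ in {τ : V (Fin q) | ε * ‖τ‖ ≤ c}, tw e K τ x := by
    intro x hx
    have hxR : ‖x‖ ≤ R := by
      by_contra h1
      exact hx (hR x (not_le.1 h1))
    have h2 : ‖(WithLp.toLp 2 fun j => ⟪e j, x⟫_ℝ : V (Fin q))‖ ≤ ‖x‖ := by
      have h3 := he.sum_inner_products_le x (s := Finset.univ)
      rw [← sq_le_sq₀ (norm_nonneg _) (norm_nonneg _), EuclideanSpace.real_norm_sq_eq]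
      refine le_trans (le_of_eq ?_) h3
      refine Finset.sum_congr rfl fun j _ => ?_
      rw [Real.norm_eq_abs, sq_abs]
    have h3 : ε * ‖(WithLp.toLp 2 fun j => ⟪e j, x⟫_ℝ : V (Fin q))‖ ≤ Real.sqrt K := by
      have h4 : ‖x‖ ≤ |R| := hxR.trans (le_abs_self R)
      exact (mul_le_mul_of_nonneg_left (h2.trans h4) hε.le).trans hε2
    have h4 := Pool.Agent.TH597.HX.Step.lowN hl K hK (fun j => ⟪e j, x⟫_ℝ) (Real.sqrt K) h3
    rw [← hc] at h4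
    have h5 := Pool.Agent.TH597.HX.Out.GG_pos q hK
    have h6 : ∫ τ in {τ : V (Fin q) | ε * ‖τ‖ ≤ c}, tw e K τ x =
      ∫ τ in {τ : V (Fin q) | ε * ‖τ‖ ≤ c},
        Pool.Agent.H888R2.KT.V4bx.w K (fun j => ⟪e j, x⟫_ℝ) τ := rfl
    rw [h6]
    linarith
  have hout := Pool.Agent.TH597.HX.Step.outN hl ρ hρ e he K K c hK hK hc0 hmom
    (fun g hg => absurd hg (by simp)) hlow
  obtain ⟨c₀, hc₀⟩ := Pool.Agent.TH597.HX.Unt.unt (mu ρ) hbd e he K hK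
    {τ : V (Fin q) | ε * ‖τ‖ ≤ c} (measurableSet_le (by fun_prop) measurable_const)
    (D * (c ^ 2 + 2 * (K + K))) (by positivity) hout (by
      filter_upwards [Pool.Agent.TH597.HX.Lpp.ae_ne hρ.meas] with x hx
      exact hlow x hx) hloc f hf
  refine ⟨c₀, hc₀.trans (mul_le_mul_of_nonneg_right ?_ (integral_nonneg fun x => by positivity))⟩
  have h1 : D * (c ^ 2 + 2 * (K + K)) ≤ D * (104 * K) := mul_le_mul_of_nonneg_left (by linarith) hD0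
  have h2 : 0 ≤ D * K := by positivity
  nlinarith

end Pool.Agent.Q197.RG
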