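import Pool.Agent.Q197.RG.Tail
import Pool.Agent.Q197.RG.Unt

/-!
# The variance bound for densities of bounded support
-/

set_option autoImplicit false

namespace Pool.Agent.Q197.RG

open MeasureTheory Set
open scoped ENNReal InnerProductSpace
open Pool.Agent.H212R2.KLS (mu Bdd)
open Pool.Agent.H888R2.KT (LC St tw)
open Pool.Agent.H888R2.KT.G2x (mu_indicator integral_mu_mul mu_mono intg)
open Pool.Agent.TH594.KP (V GD GG swp Bs mem_Bs card_Bs_pos ev swp_apply inner_ev gd_indicator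
  tw_cont gd_smul SC)
open Pool.Agent.TH597.HX (dev)
open Pool.Agent.TH597.HX.Loc (ee)
open Pool.Agent.Q197.RA (Sx Dv ball Dv_cont cont_u)

variable {κ ι ν : Type} [Fintype κ] [Fintype ι] [DecidableEq ι] [Fintype ν] [DecidableEq ν]
  {n q r : ℕ}
variable {b : ι → Fin n} {u : ι → V κ} {e : Fin q → V κ} {d : ν → Fin r} {v : ν → V κ}

variable (b u d v) in
/-- level sets -/
def lvl (a : ℝ) : Set (V κ) := {x | Su b u d v a x}

theorem Aw_cont (t : Fin r) : Continuous (Aw d v t) := by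
  unfold Aw
  exact continuous_finsetSum _ fun i _ => (cont_u (v i)).abs

theorem lvl_eq (a : ℝ) : lvl b u d v a = Pool.Agent.Q197.RA.lvl b u a ∩
    {x | ∀ t, 2 * Aw d v t x ≤ a * (Bs d t).card} := rfl

theorem lvl_closed (a : ℝ) : IsClosed (lvl b u d v a) := by
  rw [lvl_eq]
  refine (Pool.Agent.Q197.RA.lvl_closed a).inter ?_
  rw [Set.ofPred_forall]
  exact isClosed_iInter fun t => isClosed_le (continuous_const.mul (Aw_cont t)) continuous_const

theorem lvl_convex (a : ℝ) : Convex ℝ (lvl b u d v a) := by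
  rw [lvl_eq]
  refine (Pool.Agent.Q197.RA.lvl_convex a).inter ?_
  intro x hx y hy c c' hc hc' hcc t
  have h1 : Aw d v t (c • x + c' • y) ≤ c * Aw d v t x + c' * Aw d v t y := by
    unfold Aw
    rw [Finset.mul_sum, Finset.mul_sum, ← Finset.sum_add_distrib]
    refine Finset.sum_le_sum fun i _ => ?_
    simp only [inner_add_right, inner_smul_right]
    calc |c * ⟪v i, x⟫_ℝ + c' * ⟪v i, y⟫_ℝ| ≤ |c * ⟪v i, x⟫_ℝ| + |c' * ⟪v i, y⟫_ℝ| := abs_add_le _ _
      _ = _ := by rw [abs_mul, abs_mul, abs_of_nonneg hc, abs_of_nonneg hc']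
  have h2 := hx t
  have h3 := hy t
  calc 2 * Aw d v t (c • x + c' • y) ≤ 2 * (c * Aw d v t x + c' * Aw d v t y) := by linarith
    _ = c * (2 * Aw d v t x) + c' * (2 * Aw d v t y) := by ring
    _ ≤ c * (a * (Bs d t).card) + c' * (a * (Bs d t).card) := by gcongr
    _ = _ := by rw [← add_mul, hcc, one_mul]

theorem lvl_mono {a a' : ℝ} (h : a ≤ a') : lvl b u d v a ⊆ lvl b u d v a' := fun _ hx =>
  ⟨fun s => (hx.1 s).trans (mul_le_mul_of_nonneg_right h (by positivity)),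
    fun t => (hx.2 t).trans (mul_le_mul_of_nonneg_right h (by positivity))⟩

theorem refl_uv (he : Ox u (Sum.elim e v)) (k l : ν) (ε : ℝ) (x : V κ) (i : ι) :
    ⟪u i, x - ⟪v k + ε • v l, x⟫_ℝ • (v k + ε • v l)⟫_ℝ = ⟪u i, x⟫_ℝ := by
  rw [inner_sub_right, inner_smul_right, inner_add_right (u i), inner_smul_right, orth_uv he,
    orth_uv he]
  ring

theorem sub_eq (k l : ν) : v k - v l = v k + (-1 : ℝ) • v l := by module

theorem add_eq (k l : ν) : v k + v l = v k + (1 : ℝ) • v l := by module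

theorem Dv_inv (hu : Sx b u) (he : Ox u (Sum.elim e v)) (g : V κ ≃ₗᵢ[ℝ] V κ)
    (hg : g ∈ GR b u d v) (s : Fin n) (x : V κ) : Dv b u s (g x) = Dv b u s x := by
  rcases hg with h | ⟨k, l, -, h⟩ | ⟨k, l, -, -, h⟩
  · exact Pool.Agent.Q197.RA.Dv_inv hu g h s x
  · unfold Dv
    rw [h, sub_eq]
    simp only [refl_uv he]
  · unfold Dv
    rw [h, add_eq]
    simp only [refl_uv he]

theorem Aw_inv (he : Ox u (Sum.elim e v)) (g : V κ ≃ₗᵢ[ℝ] V κ)
    (hg : g ∈ GR b u d v) (t : Fin r) (x : V κ) : Aw d v t (g x) = Aw d v t x := by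
  have hsum : ∀ k l : ν, d k = d l → ∀ F : ν → ℝ,
      ∑ i ∈ Bs d t, F (Equiv.swap k l i) = ∑ i ∈ Bs d t, F i := by
    intro k l hkl F
    refine Finset.sum_equiv (Equiv.swap k l) (fun i => ?_) fun i _ => rfl
    rw [mem_Bs, mem_Bs, b_swap hkl]
  rcases hg with ⟨k, l, -, h⟩ | ⟨k, l, hkl, h⟩ | ⟨k, l, hne, hkl, h⟩
  · unfold Aw
    rw [h]
    have h1 : ∀ i, ⟪v i, x - ⟪u k - u l, x⟫_ℝ • (u k - u l)⟫_ℝ = ⟪v i, x⟫_ℝ := by
      intro i
      rw [inner_sub_right, inner_smul_right, inner_sub_right (v i), real_inner_comm,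
        real_inner_comm _ (v i), real_inner_comm (u l) (v i), orth_uv he, orth_uv he]
      ring
    simp only [h1]
  · unfold Aw
    rw [h]
    by_cases hne : k = l
    · subst hne
      simp
    · simp only [refl_v he k l hne]
      exact hsum k l hkl fun i => |⟪v i, x⟫_ℝ|
  · unfold Aw
    rw [h]
    have h' : ¬ l = k := fun h2 => hne h2.symm
    have h1 : ∀ i, |⟪v i, x - ⟪v k + v l, x⟫_ℝ • (v k + v l)⟫_ℝ| =
        |⟪v (Equiv.swap k l i), x⟫_ℝ| := by
      intro i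
      rw [inner_sub_right, inner_smul_right, inner_add_right (v i), inner_add_left, orth_v he,
        orth_v he]
      by_cases h1 : i = k
      · subst h1
        rw [Equiv.swap_apply_left]
        simp only [if_true, hne, if_false]
        rw [← abs_neg]
        congr 1
        ring
      · by_cases h2 : i = l
        · subst h2
          rw [Equiv.swap_apply_right]
          simp only [if_true, h1, if_false]
          rw [← abs_neg]
          congr 1
          ring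
        · rw [Equiv.swap_apply_of_ne_of_ne h1 h2]
          simp [h1, h2]
    simp only [h1]
    exact hsum k l hkl fun i => |⟪v i, x⟫_ℝ|

theorem gd_lvl (hu : Sx b u) (he : Ox u (Sum.elim e v)) {ρ : V κ → ℝ}
    (hρ : GD (GR b u d v) ρ) (a : ℝ) : GD (GR b u d v) ((lvl b u d v a).indicator ρ) :=
  gd_indicator hρ _ (lvl_convex a) (lvl_closed a).measurableSet fun g hg x => by
    refine and_congr (forall_congr' fun s => ?_) (forall_congr' fun t => ?_)
    · rw [Dv_inv hu he g hg]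
    · rw [Aw_inv he g hg]

theorem gd_gs {ρ : V κ → ℝ} (hρ : GD (GR b u d v) ρ) : GD (Pool.Agent.Q197.RA.GS b u) ρ :=
  ⟨hρ.nonneg, hρ.meas, hρ.logc, fun g hg => hρ.inv g (Or.inl hg)⟩

/-- the tail of the distance to the level sets -/
theorem tails : ∃ C : ℝ, 0 < C ∧ ∀ {κ ι ν : Type} [Fintype κ] [Fintype ι] [DecidableEq ι]
    [Fintype ν] [DecidableEq ν] {n q r m : ℕ}
    {b : ι → Fin n} {u : ι → V κ} {e : Fin q → V κ} {d : ν → Fin r} {v : ν → V κ},
    Function.Surjective b → (∀ t, 2 ≤ (Bs d t).card) → Sx b u → Ox u (Sum.elim e v) →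
    1 ≤ n + r → 1 ≤ m → (∀ s, m ≤ (Bs b s).card) → (∀ t, m ≤ (Bs d t).card) →
    ∀ ρ : V κ → ℝ, GD (GR b u d v) ρ → Bdd ρ → mu ρ univ = 1 → ∀ s : ℝ, 0 < s →
    (∀ θ : V κ, ∫ x, ⟪θ, x⟫_ℝ ^ 2 ∂(mu ρ) ≤ s * ‖θ‖ ^ 2) → ∀ t : ℝ, 1 ≤ t →
    mu ρ (lvl b u d v ((1 + (t + Real.log (n + r : ℕ)) / m) * (C * Real.sqrt s)))ᶜ ≤
        ENNReal.ofReal (Real.exp (-(t / 2))) := by
  obtain ⟨C₁, hC₁, hA⟩ := Pool.Agent.Q197.RA.tail1
  obtain ⟨C₂, hC₂, hD⟩ := tailV
  refine ⟨C₁ + 2 * C₂, by positivity, ?_⟩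
  intro κ ι ν _ _ _ _ _ n q r m b u e d v hb hd hu he hN hm hcb hcd ρ hρ hbd h1 s hs hmom t ht
  obtain ⟨N, hN'⟩ : ∃ N : ℕ, N = n + r := ⟨_, rfl⟩
  rw [← hN'] at hN ⊢
  have hN1 : (1 : ℝ) ≤ N := by exact_mod_cast hN
  have hN0 : (0 : ℝ) < N := by linarith
  have hm1 : (1 : ℝ) ≤ m := by exact_mod_cast hm
  have hm0 : (0 : ℝ) < m := by linarith
  have hlog : 0 ≤ Real.log N := Real.log_nonneg hN1
  have hss : 0 < Real.sqrt s := Real.sqrt_pos.2 hs
  obtain ⟨l, hl⟩ : ∃ l : ℝ, l = 1 + (t + Real.log N) / m := ⟨_, rfl⟩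
  have hl1 : 1 ≤ l := by
    rw [hl]
    have : 0 ≤ (t + Real.log N) / m := by positivity
    linarith
  rw [← hl]
  have hsub : (lvl b u d v (l * ((C₁ + 2 * C₂) * Real.sqrt s)))ᶜ ⊆
      (⋃ j ∈ (Finset.univ : Finset (Fin n)),
        {x : V κ | l * (C₁ * Real.sqrt s) * ((Bs b j).card : ℝ) ^ 2 < Dv b u j x}) ∪
      (⋃ j ∈ (Finset.univ : Finset (Fin r)),
        {x : V κ | l * (C₂ * Real.sqrt s) * (Bs d j).card < Aw d v j x}) := by
    intro x hx
    by_contra hc
    rw [mem_union, not_or] at hc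
    obtain ⟨c1, c2⟩ := hc
    simp only [mem_iUnion, Finset.mem_univ, exists_true_left, not_exists, Set.mem_ofPred_eq,
      not_lt] at c1 c2
    refine hx ⟨fun j => (c1 j).trans ?_, fun j => ?_⟩
    · have h0 : (0 : ℝ) ≤ ((Bs b j).card : ℝ) ^ 2 := by positivity
      refine mul_le_mul_of_nonneg_right ?_ h0
      refine mul_le_mul_of_nonneg_left ?_ (by linarith)
      refine mul_le_mul_of_nonneg_right (by linarith) hss.le
    · have h0 : (0 : ℝ) ≤ ((Bs d j).card : ℝ) := by positivity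
      have h2 := c2 j
      have h3 : l * (C₁ * Real.sqrt s) * (Bs d j).card ≥ 0 := by positivity
      nlinarith
  have h3 : ∀ j ∈ (Finset.univ : Finset (Fin n)),
      mu ρ {x : V κ | l * (C₁ * Real.sqrt s) * ((Bs b j).card : ℝ) ^ 2 < Dv b u j x} ≤
        ENNReal.ofReal (Real.exp (-(m * l))) := by
    intro j _
    obtain ⟨e', he'⟩ := Pool.Agent.Q197.RA.ex_fx u
    refine (hA hb hu he' ρ (gd_gs hρ) hbd h1 s hs hmom j l hl1).trans
      (ENNReal.ofReal_le_ofReal ?_)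
    refine Real.exp_le_exp.2 (neg_le_neg (mul_le_mul_of_nonneg_right ?_ (by linarith)))
    exact_mod_cast hcb j
  have h4 : ∀ j ∈ (Finset.univ : Finset (Fin r)),
      mu ρ {x : V κ | l * (C₂ * Real.sqrt s) * (Bs d j).card < Aw d v j x} ≤
        2 * ENNReal.ofReal (Real.exp (-(m * l))) := by
    intro j _
    refine (hD hd he ρ hρ hbd h1 s hs hmom j l hl1).trans ?_
    refine mul_le_mul_of_nonneg_left (ENNReal.ofReal_le_ofReal ?_) (by simp)
    refine Real.exp_le_exp.2 (neg_le_neg (mul_le_mul_of_nonneg_right ?_ (by linarith)))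
    exact_mod_cast hcd j
  refine (measure_mono hsub).trans ((measure_union_le _ _).trans ?_)
  refine (add_le_add ((measure_biUnion_finset_le _ _).trans (Finset.sum_le_sum h3))
    ((measure_biUnion_finset_le _ _).trans (Finset.sum_le_sum h4))).trans ?_
  rw [Finset.sum_const, Finset.card_univ, Fintype.card_fin, nsmul_eq_mul, Finset.sum_const,
    Finset.card_univ, Fintype.card_fin, nsmul_eq_mul]
  have e2 : (2 : ℝ≥0∞) = ENNReal.ofReal 2 := by simp
  rw [e2, ← ENNReal.ofReal_natCast, ← ENNReal.ofReal_natCast, ← ENNReal.ofReal_mul (by norm_num),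
    ← ENNReal.ofReal_mul (by positivity), ← ENNReal.ofReal_mul (by positivity),
    ← ENNReal.ofReal_add (by positivity) (by positivity)]
  refine ENNReal.ofReal_le_ofReal ?_
  have e1 : -(m * l) = -(m + t) - Real.log N := by
    rw [hl]
    field_simp
    ring
  rw [e1, Real.exp_sub, Real.exp_log hN0]
  have e3 : (n : ℝ) * (Real.exp (-(m + t)) / N) + r * (2 * (Real.exp (-(m + t)) / N)) ≤
      2 * Real.exp (-(m + t)) := by
    have h5 : (n : ℝ) + r = N := by rw [hN']; push_cast; ring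
    have h6 : 0 ≤ Real.exp (-(m + t)) / N := by positivity
    have h7 : (N : ℝ) * (Real.exp (-(m + t)) / N) = Real.exp (-(m + t)) :=
      mul_div_cancel₀ _ hN0.ne'
    have h8 : (0 : ℝ) ≤ n := Nat.cast_nonneg _
    nlinarith [mul_nonneg h8 h6]
  refine e3.trans ?_
  have e4 : Real.exp (-(m + t)) ≤ Real.exp (-1) * Real.exp (-(t / 2)) := by
    rw [← Real.exp_add]
    exact Real.exp_le_exp.2 (by linarith)
  have e5 : Real.exp (-1) ≤ 1 / 2 := by
    rw [Real.exp_neg, inv_le_comm₀ (Real.exp_pos _) (by norm_num)]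
    have := Real.add_one_le_exp (1 : ℝ)
    linarith
  have e6 := Real.exp_pos (-(t / 2))
  nlinarith

/-- `D` is at least `q + 1` or a KLS constant in dimension `q` -/
def AD (q : ℕ) (D : ℝ) : Prop := 1 ≤ D ∧ ((q : ℝ) + 1 ≤ D ∨ KPo q D)

/-- removing the tilt -/
theorem untall : ∃ C : ℝ, 0 < C ∧ ∀ {κ : Type} [Fintype κ] {q : ℕ} (D : ℝ), AD q D →
    ∀ ρ : V κ → ℝ, LC ρ → ∀ e : Fin q → V κ, Orthonormal ℝ e → ∀ K : ℝ, 0 < K →
    (∀ θ : V κ, ∫ x, ⟪θ, x⟫_ℝ ^ 2 ∂(mu ρ) ≤ K * ‖θ‖ ^ 2 * (mu ρ univ).toReal) →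
    (∀ (τ : V (Fin q)) (f : V κ → ℝ), ContDiff ℝ 1 f →
      ∃ c : ℝ, ∫ x, (f x - c) ^ 2 * tw e K τ x ∂(mu ρ) ≤
        5 * K * ∫ x, ‖fderiv ℝ f x‖ ^ 2 * tw e K τ x ∂(mu ρ)) →
    ∀ f : V κ → ℝ, ContDiff ℝ 1 f →
    ∃ c : ℝ, ∫ x, (f x - c) ^ 2 ∂(mu ρ) ≤ C * D * K * ∫ x, ‖fderiv ℝ f x‖ ^ 2 ∂(mu ρ) := by
  obtain ⟨C₁, hC₁, hunt⟩ := Pool.Agent.H888R2.KT.untiltq
  refine ⟨C₁ + 10420, by positivity, ?_⟩
  intro κ _ q D hD ρ hρ e he K hK hmom hloc f hf
  have hD1 := hD.1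
  have h0 : 0 ≤ ∫ x, ‖fderiv ℝ f x‖ ^ 2 ∂(mu ρ) := integral_nonneg fun x => by positivity
  rcases hD.2 with h | h
  · obtain ⟨c, hc⟩ := hunt ρ hρ e he K hK (fun j => by
      have := hmom (e j)
      rw [he.1 j] at this
      simpa using this) hloc f hf
    refine ⟨c, hc.trans (mul_le_mul_of_nonneg_right ?_ h0)⟩
    have h1 : C₁ * (q + 1) ≤ C₁ * D := mul_le_mul_of_nonneg_left h hC₁.le
    have h2 : C₁ * (q + 1) ≤ (C₁ + 10420) * D := by nlinarith
    exact mul_le_mul_of_nonneg_right h2 hK.le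
  · obtain ⟨c, hc⟩ := untD (by linarith) h ρ hρ e he K hK hmom hloc f hf
    refine ⟨c, hc.trans (mul_le_mul_of_nonneg_right ?_ h0)⟩
    have h2 : 5210 * (1 + D) ≤ (C₁ + 10420) * D := by nlinarith
    exact mul_le_mul_of_nonneg_right h2 hK.le

/-- the variance bound for densities of bounded support -/
theorem sc : ∃ C : ℝ, 0 < C ∧ ∀ {κ ι ν : Type} [Fintype κ] [Fintype ι] [DecidableEq ι]
    [Fintype ν] [DecidableEq ν] {n q r m : ℕ}
    {b : ι → Fin n} {u : ι → V κ} {e : Fin q → V κ} {d : ν → Fin r} {v : ν → V κ},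
    Function.Surjective b → Function.Surjective d → (∀ t, 2 ≤ (Bs d t).card) → Sx b u →
    Ox u (Sum.elim e v) →
    1 ≤ n + r → 1 ≤ m → (∀ s, m ≤ (Bs b s).card) → (∀ t, m ≤ (Bs d t).card) →
    ∀ D : ℝ, AD q D →
      SC (GR b u d v) (C * (D * (1 + Real.log (n + r : ℕ) / m) ^ 2)) := by
  obtain ⟨C₁, hC₁, hunt⟩ := untall
  obtain ⟨C₂, hC₂, hT⟩ := tails
  obtain ⟨C₃, hC₃, hloc⟩ := loc1
  refine ⟨40000 * (C₁ * (4 * C₃ * C₂ ^ 2 + 2)), by positivity, ?_⟩
  intro κ ι ν _ _ _ _ _ n q r m b u e d v hb hd hd2 hu he hN hm hcb hcd D hAD ρ hρ hbd h1 s hs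
    hmom f hf hf1
  have hD1 : 1 ≤ D := hAD.1
  have hprob : IsProbabilityMeasure (mu ρ) := ⟨h1⟩
  have htail := hT hb hd2 hu he hN hm hcb hcd ρ hρ hbd h1 s hs hmom
  obtain ⟨N, hN'⟩ : ∃ N : ℕ, N = n + r := ⟨_, rfl⟩
  rw [← hN'] at hN htail ⊢
  have hN1 : (1 : ℝ) ≤ N := by exact_mod_cast hN
  have hN0 : (0 : ℝ) < N := by linarith
  have hm1 : (1 : ℝ) ≤ m := by exact_mod_cast hm
  have hm0 : (0 : ℝ) < m := by linarith
  have hlog : 0 ≤ Real.log N := Real.log_nonneg hN1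
  have hss : 0 < Real.sqrt s := Real.sqrt_pos.2 hs
  obtain ⟨Λ, hΛ⟩ : ∃ Λ : ℝ, Λ = 1 + Real.log N / m := ⟨_, rfl⟩
  have hΛ1 : 1 ≤ Λ := by
    rw [hΛ]
    have : 0 ≤ Real.log N / m := by positivity
    linarith
  rw [← hΛ]
  have hball := ball hρ.meas hbd
  have hmain := Pool.Agent.TH594.KP.Mul.multi0 (mu ρ) hball
    (fun t => lvl b u d v ((1 + (t + Real.log N) / m) * (C₂ * Real.sqrt s)))
    (fun t => (lvl_closed _).measurableSet)
    (fun t t' htt => lvl_mono
      (mul_le_mul_of_nonneg_right (by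
        have : (t + Real.log N) / m ≤ (t' + Real.log N) / m :=
          div_le_div_of_nonneg_right (by linarith) hm0.le
        linarith) (by positivity)))
    htail
    (C₁ * (4 * C₃ * C₂ ^ 2 + 2) * (D * Λ ^ 2) * s) (by positivity)
    (fun t ht h hh => by
      have ht1 : 1 ≤ t := by linarith
      obtain ⟨a, ha⟩ : ∃ a : ℝ, a = (1 + (t + Real.log N) / m) * (C₂ * Real.sqrt s) := ⟨_, rfl⟩
      have hta := htail t ht1
      rw [← ha] at hta ⊢
      have ha0 : 0 < a := by rw [ha]; positivity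
      obtain ⟨U, hU'⟩ : ∃ U : Set (V κ), U = lvl b u d v a := ⟨_, rfl⟩
      have hUm : MeasurableSet U := by rw [hU']; exact (lvl_closed _).measurableSet
      rw [← hU'] at hta ⊢
      have hhalf : 1 / 2 ≤ (mu ρ U).toReal := by
        have h3 : (mu ρ).real Uᶜ ≤ Real.exp (-(t / 2)) := by
          rw [measureReal_def]
          exact ENNReal.toReal_le_of_le_ofReal (Real.exp_pos _).le hta
        rw [probReal_compl_eq_one_sub hUm] at h3
        have h4 : Real.exp (-(t / 2)) ≤ 1 / 2 := by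
          rw [Real.exp_neg, inv_le_comm₀ (Real.exp_pos _) (by norm_num)]
          have := Real.add_one_le_exp (t / 2)
          linarith
        rw [← measureReal_def]
        linarith
      have hDU : GD (GR b u d v) (U.indicator ρ) := by rw [hU']; exact gd_lvl hu he hρ a
      have hres : mu (U.indicator ρ) = (mu ρ).restrict U := mu_indicator ρ U hUm
      have hle : ∀ x, U.indicator ρ x ≤ ρ x :=
        fun x => Set.indicator_le_self' (fun _ _ => hρ.nonneg _) x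
      have hbU : Bdd (U.indicator ρ) := by
        obtain ⟨R, hR⟩ := hbd
        refine ⟨R, fun x hx => le_antisymm ?_ (hDU.nonneg x)⟩
        rw [← hR x hx]
        exact hle x
      have hfinU : mu (U.indicator ρ) univ ≠ ⊤ := by
        have := (mu_mono ρ (U.indicator ρ) hle univ).trans_eq h1
        exact ne_top_of_le_ne_top ENNReal.one_ne_top this
      have hneU : mu (U.indicator ρ) ≠ 0 := by
        intro h0
        rw [hres] at h0
        have h2 : mu ρ U = 0 := by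
          rw [← Measure.restrict_apply_univ, h0]
          simp
        rw [h2] at hhalf
        norm_num at hhalf
      have hLC : LC (U.indicator ρ) := ⟨hDU.nonneg, hDU.meas, hDU.logc, hbU, hfinU, hneU⟩
      have hsU : ∀ x, U.indicator ρ x ≠ 0 → Su b u d v a x := by
        intro x hx
        by_contra hc
        refine hx ?_
        have : x ∉ U := by rw [hU']; exact hc
        rw [Set.indicator_of_notMem this]
      obtain ⟨K, hK⟩ : ∃ K : ℝ, K = C₃ * a ^ 2 + 2 * s := ⟨_, rfl⟩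
      have hK0 : 0 < K := by rw [hK]; positivity
      have hoe : Orthonormal ℝ e := orth_e he
      obtain ⟨c₀, hc₀⟩ := hunt D hAD (U.indicator ρ) hLC e hoe K hK0 (by
          intro θ
          rw [hres, Measure.restrict_apply_univ]
          have h2 : ∫ x in U, ⟪θ, x⟫_ℝ ^ 2 ∂(mu ρ) ≤ ∫ x, ⟪θ, x⟫_ℝ ^ 2 ∂(mu ρ) :=
            setIntegral_le_integral (intg (mu ρ) hball _ (by fun_prop))
              (ae_of_all _ fun x => by positivity)
          have h3 := hmom θ
          have h4 : 2 * s ≤ K := by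
            rw [hK]
            have : 0 ≤ C₃ * a ^ 2 := by positivity
            linarith
          have h5 : s ≤ K * (mu ρ U).toReal := by
            have h6 : K * (1 / 2) ≤ K * (mu ρ U).toReal :=
              mul_le_mul_of_nonneg_left hhalf hK0.le
            linarith
          have h7 := mul_le_mul_of_nonneg_right h5 (sq_nonneg ‖θ‖)
          show ∫ x in U, ⟪θ, x⟫_ℝ ^ 2 ∂(mu ρ) ≤ K * ‖θ‖ ^ 2 * (mu ρ U).toReal
          linarith)
        (fun τ g hg => hloc hb hd hd2 hu he (U.indicator ρ) hDU hLC a ha0 hsU K hK0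
          (by rw [hK]; linarith) τ g hg) h hh
      rw [hres] at hc₀
      refine ⟨c₀, hc₀.trans (mul_le_mul_of_nonneg_right ?_ (integral_nonneg fun x => by positivity))⟩
      have hsq := Real.sq_sqrt hs.le
      have e1 : a ≤ 2 * t * Λ * (C₂ * Real.sqrt s) := by
        rw [ha]
        refine mul_le_mul_of_nonneg_right ?_ (by positivity)
        have h2 : (t + Real.log N) / m ≤ t + t * (Real.log N / m) := by
          rw [add_div]
          have h3 : t / m ≤ t := div_le_self (by linarith) hm1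
          have h4 : 1 * (Real.log N / m) ≤ t * (Real.log N / m) :=
            mul_le_mul_of_nonneg_right ht1 (by positivity)
          linarith
        have h5 : 0 ≤ t * (Real.log N / m) := by positivity
        rw [hΛ]
        nlinarith
      have e2 : a ^ 2 ≤ 4 * C₂ ^ 2 * (Λ ^ 2 * s * t ^ 2) := by
        calc a ^ 2 ≤ (2 * t * Λ * (C₂ * Real.sqrt s)) ^ 2 := pow_le_pow_left₀ ha0.le e1 2
          _ = 4 * C₂ ^ 2 * (Λ ^ 2 * Real.sqrt s ^ 2 * t ^ 2) := by ring
          _ = _ := by rw [hsq]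
      have e3 : s ≤ Λ ^ 2 * s * t ^ 2 := by
        have h2 : 1 ≤ Λ ^ 2 := one_le_pow₀ hΛ1
        have h3 : 1 ≤ t ^ 2 := one_le_pow₀ ht1
        have h4 : 1 ≤ Λ ^ 2 * t ^ 2 := one_le_mul_of_one_le_of_one_le h2 h3
        nlinarith
      have e4 : K ≤ (4 * C₃ * C₂ ^ 2 + 2) * (Λ ^ 2 * s * t ^ 2) := by
        rw [hK]
        have : C₃ * a ^ 2 ≤ C₃ * (4 * C₂ ^ 2 * (Λ ^ 2 * s * t ^ 2)) :=
          mul_le_mul_of_nonneg_left e2 hC₃.le
        linarith
      calc C₁ * D * K ≤ C₁ * D * ((4 * C₃ * C₂ ^ 2 + 2) * (Λ ^ 2 * s * t ^ 2)) :=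
            mul_le_mul_of_nonneg_left e4 (by positivity)
        _ = C₁ * (4 * C₃ * C₂ ^ 2 + 2) * (D * Λ ^ 2) * s * t ^ 2 := by ring)
    f hf hf1
  refine hmain.trans (le_of_eq ?_)
  ring

end Pool.Agent.Q197.RG
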