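import Pool.Agent.Q197.RG.In

/-!
# Arrays with sign changes: the Poincare inequality for tilted densities, conclusion
-/

set_option autoImplicit false

namespace Pool.Agent.Q197.RG

open MeasureTheory Set
open scoped ENNReal InnerProductSpace
open Pool.Agent.H212R2.KLS (mu Bdd)
open Pool.Agent.H888R2.KT
open Pool.Agent.H888R2.KT.N9x
open Pool.Agent.H888R2.KT.G2x (mu_indicator integral_mu_mul mu_mono intg)
open Pool.Agent.TH594.KP (V GD GG swp swp_apply Bs mem_Bs card_Bs_pos ev inner_ev swp_ev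
  swp_single fd_iso alg_one gd_tilt tilt_st tw_cont)
open Pool.Agent.TH597.HX (dev S_HARDY0 S_SEQ0)
open Pool.Agent.TH597.HX.Loc (ee orth_ee)

variable {ι : Type} [Fintype ι] [DecidableEq ι] {N q : ℕ}
variable {b : ι → Fin N} {D : Fin N → Prop}

/-- sum over the blocks -/
theorem sum_bl (b : ι → Fin N) (F : ι → ℝ) : ∑ i, F i = ∑ s, ∑ i ∈ Bs b s, F i := by
  rw [← Finset.sum_fiberwise Finset.univ b F]
  rfl

/-- the directions -/
noncomputable def rr : (ι × ι) ⊕ ι → V (ι × Fin 1)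
  | Sum.inl p => EuclideanSpace.single (p.1, 0) 1 - EuclideanSpace.single (p.2, 0) 1
  | Sum.inr i => EuclideanSpace.single (i, 0) 1

open Classical in
/-- the weights -/
noncomputable def ww (b : ι → Fin N) (D : Fin N → Prop) : (ι × ι) ⊕ ι → ℝ
  | Sum.inl p => if b p.1 = b p.2 ∧ ¬ D (b p.1) then 1 / (2 * ((Bs b (b p.1)).card : ℝ)) else 0
  | Sum.inr i => if D (b i) then 1 else 0

theorem ww_nonneg (a : (ι × ι) ⊕ ι) : 0 ≤ ww b D a := by
  cases a with
  | inl p =>
    unfold ww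
    simp only
    split_ifs
    · positivity
    · exact le_rfl
  | inr i =>
    unfold ww
    simp only
    split_ifs
    · exact zero_le_one
    · exact le_rfl

/-- the enumeration of the blocks which are not of type `D` -/
structure En (D : Fin N → Prop) (ψ : Fin q → Fin N) : Prop where
  inj : Function.Injective ψ
  mem : ∀ s, ¬ D s ↔ ∃ j, ψ j = s

open Classical in
theorem sum_en {ψ : Fin q → Fin N} (hψ : En D ψ) (F : Fin N → ℝ) :
    ∑ j, F (ψ j) = ∑ s, if D s then 0 else F s := by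
  have h1 : ∑ s, (if D s then 0 else F s) = ∑ s ∈ Finset.univ.filter (fun s => ¬ D s), F s := by
    rw [Finset.sum_filter]
    refine Finset.sum_congr rfl fun s _ => ?_
    by_cases h : D s <;> simp [h]
  have h2 : Finset.univ.filter (fun s => ¬ D s) = Finset.univ.image ψ := by
    ext s
    simp only [Finset.mem_filter, Finset.mem_univ, true_and, Finset.mem_image]
    exact hψ.mem s
  rw [h1, h2, Finset.sum_image fun i _ j _ h => hψ.inj h]

theorem frame_ad (hb : Function.Surjective b) {ψ : Fin q → Fin N} (hψ : En D ψ)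
    (x : V (ι × Fin 1)) : ‖x‖ ^ 2 = ∑ j, ⟪ee b (ψ j), x⟫_ℝ ^ 2 +
      ∑ a : (ι × ι) ⊕ ι, ww b D a * ⟪rr a, x⟫_ℝ ^ 2 := by
  classical
  have h0 : ‖x‖ ^ 2 = ∑ s, ∑ i ∈ Bs b s, x (i, 0) ^ 2 := by
    rw [← sum_bl, EuclideanSpace.real_norm_sq_eq, Fintype.sum_prod_type]
    simp
  have h1 : ∑ j, ⟪ee b (ψ j), x⟫_ℝ ^ 2 = ∑ s, if D s then 0 else
      1 / ((Bs b s).card : ℝ) * (∑ i ∈ Bs b s, x (i, 0)) ^ 2 := by
    rw [← sum_en hψ fun s => 1 / ((Bs b s).card : ℝ) * (∑ i ∈ Bs b s, x (i, 0)) ^ 2]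
    refine Finset.sum_congr rfl fun j _ => ?_
    unfold ee
    rw [inner_ev, mul_pow, div_pow, one_pow, Real.sq_sqrt (Nat.cast_nonneg _)]
  have hr1 : ∀ k l : ι, ⟪rr (Sum.inl (k, l)), x⟫_ℝ = x (k, 0) - x (l, 0) := by
    intro k l
    unfold rr
    simp [inner_sub_left, EuclideanSpace.inner_single_left]
  have hr2 : ∀ i : ι, ⟪rr (Sum.inr i), x⟫_ℝ = x (i, 0) := by
    intro i
    unfold rr
    simp [EuclideanSpace.inner_single_left]
  have h2 : ∑ p : ι × ι, ww b D (Sum.inl p) * ⟪rr (Sum.inl p), x⟫_ℝ ^ 2 =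
      ∑ s, if D s then 0 else 1 / (2 * ((Bs b s).card : ℝ)) *
        ∑ k ∈ Bs b s, ∑ l ∈ Bs b s, (x (k, 0) - x (l, 0)) ^ 2 := by
    rw [Fintype.sum_prod_type, sum_bl b]
    refine Finset.sum_congr rfl fun s _ => ?_
    by_cases hs : D s
    · rw [if_pos hs]
      refine Finset.sum_eq_zero fun k hk => Finset.sum_eq_zero fun l _ => ?_
      have h3 : ww b D (Sum.inl (k, l)) = 0 := by
        unfold ww
        simp only
        rw [if_neg]
        rintro ⟨_, h4⟩
        exact h4 (by rw [(mem_Bs b s k).1 hk]; exact hs)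
      rw [h3, zero_mul]
    · rw [if_neg hs, Finset.mul_sum]
      refine Finset.sum_congr rfl fun k hk => ?_
      have hk' := (mem_Bs b s k).1 hk
      rw [Finset.mul_sum]
      unfold Bs
      rw [Finset.sum_filter]
      refine Finset.sum_congr rfl fun l _ => ?_
      rw [hr1]
      by_cases hl : b l = s
      · have h3 : ww b D (Sum.inl (k, l)) = 1 / (2 * ((Bs b s).card : ℝ)) := by
          unfold ww
          simp only
          rw [if_pos ⟨by rw [hk', hl], by rw [hk']; exact hs⟩, hk']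
        rw [h3, if_pos hl]
        rfl
      · have h3 : ww b D (Sum.inl (k, l)) = 0 := by
          unfold ww
          simp only
          rw [if_neg]
          rintro ⟨h4, _⟩
          exact hl (by rw [← h4, hk'])
        rw [h3, zero_mul, if_neg hl]
  have h3 : ∑ i : ι, ww b D (Sum.inr i) * ⟪rr (Sum.inr i), x⟫_ℝ ^ 2 =
      ∑ s, if D s then ∑ i ∈ Bs b s, x (i, 0) ^ 2 else 0 := by
    rw [sum_bl b]
    refine Finset.sum_congr rfl fun s _ => ?_
    by_cases hs : D s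
    · rw [if_pos hs]
      refine Finset.sum_congr rfl fun i hi => ?_
      have h4 : ww b D (Sum.inr i) = 1 := by
        unfold ww
        simp only
        rw [if_pos (by rw [(mem_Bs b s i).1 hi]; exact hs)]
      rw [h4, hr2, one_mul]
    · rw [if_neg hs]
      refine Finset.sum_eq_zero fun i hi => ?_
      have h4 : ww b D (Sum.inr i) = 0 := by
        unfold ww
        simp only
        rw [if_neg (by rw [(mem_Bs b s i).1 hi]; exact hs)]
      rw [h4, zero_mul]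
  rw [Fintype.sum_sum_type, h0, h1, h2, h3, ← Finset.sum_add_distrib, ← Finset.sum_add_distrib]
  refine Finset.sum_congr rfl fun s _ => ?_
  by_cases hs : D s
  · simp [hs]
  · simp only [hs, if_false]
    have h4 := alg_one (Bs b s) (card_Bs_pos hb s).ne' fun i => x (i, 0)
    linarith

/-- derivative of a symmetric function in a direction which is reversed -/
theorem fd_odd (T : V (ι × Fin 1) ≃ₗᵢ[ℝ] V (ι × Fin 1)) (v : V (ι × Fin 1) → ℝ)
    (hd : Differentiable ℝ v) (he : ∀ x, v (T x) = v x) (r : V (ι × Fin 1)) (hr : T r = -r)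
    (z : V (ι × Fin 1)) : fderiv ℝ v (T z) r = - fderiv ℝ v z r := by
  have h := fd_iso T v hd he z r
  rw [hr, map_neg] at h
  linarith

open Classical in
/-- the list of the sign changes -/
noncomputable def lst (b : ι → Fin N) (D : Fin N → Prop) :
    List (V (ι × Fin 1) ≃ₗᵢ[ℝ] V (ι × Fin 1)) :=
  ((Finset.univ.filter fun p : ι × ι => p.1 ≠ p.2 ∧ b p.1 = b p.2 ∧ D (b p.1)).toList).map
    fun p => fl {p.1, p.2}

theorem mem_lst (F : V (ι × Fin 1) ≃ₗᵢ[ℝ] V (ι × Fin 1)) : F ∈ lst b D ↔ F ∈ GF b D := by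
  unfold lst GF
  rw [List.mem_map]
  simp only [Finset.mem_toList, Finset.mem_filter, Finset.mem_univ, true_and, mem_setOf_eq]
  constructor
  · rintro ⟨p, hp, rfl⟩
    exact ⟨p.1, p.2, hp.1, hp.2.1, hp.2.2, rfl⟩
  · rintro ⟨i, j, h1, h2, h3, rfl⟩
    exact ⟨(i, j), ⟨h1, h2, h3⟩, rfl⟩

theorem lst_ci : CI (lst b D) := by
  refine ⟨fun F hF x => ?_, fun F hF H hH x => ?_⟩
  · obtain ⟨i, j, _, _, _, rfl⟩ := (mem_lst F).1 hF
    exact fl_fl _ x
  · obtain ⟨i, j, _, _, _, rfl⟩ := (mem_lst F).1 hF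
    obtain ⟨k, l, _, _, _, rfl⟩ := (mem_lst H).1 hH
    exact fl_comm _ _ x

theorem b_swap {k l : ι} (hkl : b k = b l) (i : ι) : b (Equiv.swap k l i) = b i := by
  by_cases h1 : i = k
  · subst h1
    rw [Equiv.swap_apply_left, hkl]
  · by_cases h2 : i = l
    · subst h2
      rw [Equiv.swap_apply_right, hkl]
    · rw [Equiv.swap_apply_of_ne_of_ne h1 h2]

theorem swp_symm (k l : ι) (x : V (ι × Fin 1)) : (swp k l).symm x = swp k l x := by
  rw [LinearIsometryEquiv.symm_apply_eq, swp_swp]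

theorem conj_fl (k l i j : ι) : ((swp k l).trans (fl {i, j})).trans (swp k l).symm =
    fl {Equiv.swap k l i, Equiv.swap k l j} := by
  ext x p
  show ((swp k l).symm (fl {i, j} (swp k l x))) p = _
  rw [swp_symm, swp_fl, swp_swp]

theorem gf_conj {k l : ι} (hkl : b k = b l) {F : V (ι × Fin 1) ≃ₗᵢ[ℝ] V (ι × Fin 1)}
    (hF : F ∈ GF b D) : ((swp k l).trans F).trans (swp k l).symm ∈ GF b D := by
  obtain ⟨i, j, h1, h2, h3, rfl⟩ := hF
  rw [conj_fl]
  exact ⟨_, _, fun h => h1 ((Equiv.swap k l).injective h), by rw [b_swap hkl, b_swap hkl, h2],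
    by rw [b_swap hkl]; exact h3, rfl⟩

/-- the Poincare inequality for a density which is strongly log-concave in the fixed directions -/
theorem poi_ad {L : ℝ} {ρ : V (ι × Fin 1) → ℝ} (hb : Function.Surjective b)
    (h2 : ∀ s, D s → 2 ≤ (Bs b s).card) {ψ : Fin q → Fin N} (hψ : En D ψ)
    (hρ : GD (GAD b D) ρ) (hL : LC ρ) (hL0 : 0 ≤ L)
    (hswp : ∀ k l, k ≠ l → b k = b l → ∀ f : V (ι × Fin 1) → ℝ, ContDiff ℝ 1 f →
      (∀ x, f (swp k l x) = - f x) → ∫ x, f x ^ 2 ∂(mu ρ) ≤ L * ∫ x, ‖fderiv ℝ f x‖ ^ 2 ∂(mu ρ))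
    (hflp : ∀ k l, k ≠ l → b k = b l → D (b k) → ∀ f : V (ι × Fin 1) → ℝ, ContDiff ℝ 1 f →
      (∀ x, f (fl {k, l} x) = - f x) →
      ∫ x, f x ^ 2 ∂(mu ρ) ≤ L * ∫ x, ‖fderiv ℝ f x‖ ^ 2 ∂(mu ρ))
    (hSeq : S_SEQ0) (K : ℝ) (hK : 0 < K) (hLK : L ≤ K) (hSt : St (fun j => ee b (ψ j)) K ρ)
    (f : V (ι × Fin 1) → ℝ) (hf : ContDiff ℝ 1 f) :
    ∃ c : ℝ, ∫ x, (f x - c) ^ 2 ∂(mu ρ) ≤ 4 * K * ∫ x, ‖fderiv ℝ f x‖ ^ 2 ∂(mu ρ) := by
  have hon : Orthonormal ℝ (fun j => ee b (ψ j)) := (orth_ee hb).comp ψ hψ.inj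
  have hL4 : L ≤ 4 * K := by linarith
  -- symmetric functions
  have hsym : ∀ v : V (ι × Fin 1) → ℝ, ContDiff ℝ 1 v → (∀ g ∈ GAD b D, ∀ x, v (g x) = v x) →
      ∃ c : ℝ, ∫ x, (v x - c) ^ 2 ∂(mu ρ) ≤ 4 * K * ∫ x, ‖fderiv ℝ v x‖ ^ 2 ∂(mu ρ) := by
    intro v hv hvs
    refine bochner hL (fun j => ee b (ψ j)) hon K hK hSt L hLK (GAD b D) hρ.inv rr (ww b D)
      ww_nonneg (frame_ad hb hψ) ?_ v hv hvs
    intro a ha w hw hws
    have hwd : Differentiable ℝ w := hw.differentiable (by norm_num)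
    have hc : ContDiff ℝ 1 (fun z => fderiv ℝ w z (rr a)) :=
      (hw.fderiv_right (m := 1) (by norm_num)).clm_apply contDiff_const
    cases a with
    | inl p =>
      obtain ⟨k, l⟩ := p
      have h5 : b k = b l ∧ ¬ D (b k) := by
        by_contra h6
        unfold ww at ha
        simp only at ha
        rw [if_neg h6] at ha
        exact lt_irrefl _ ha
      by_cases hkl : k = l
      · subst hkl
        have h6 : rr (Sum.inl (k, k)) = (0 : V (ι × Fin 1)) := by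
          unfold rr
          simp
        simp only [h6, map_zero]
        simp
      · refine hswp k l hkl h5.1 _ hc fun x => ?_
        refine fd_odd (swp k l) w hwd (hws _ (Or.inl ⟨k, l, h5.1, rfl⟩)) _ ?_ x
        unfold rr
        simp only [map_sub, swp_single, Equiv.swap_apply_left, Equiv.swap_apply_right]
        abel
    | inr i =>
      have h5 : D (b i) := by
        by_contra h6
        unfold ww at ha
        simp only at ha
        rw [if_neg h6] at ha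
        exact lt_irrefl _ ha
      obtain ⟨j, hj1, hj2⟩ : ∃ j, j ≠ i ∧ b j = b i := by
        have h7 : 1 < (Bs b (b i)).card := h2 _ h5
        obtain ⟨j, hj, hji⟩ := Finset.exists_mem_ne h7 i
        exact ⟨j, hji, (mem_Bs _ _ _).1 hj⟩
      refine hflp i j hj1.symm hj2.symm h5 _ hc fun x => ?_
      refine fd_odd (fl {i, j}) w hwd (hws _ (Or.inr ⟨i, j, hj1.symm, hj2.symm, h5, rfl⟩)) _ ?_ x
      ext p
      rw [fl_apply]
      unfold rr
      simp only [PiLp.neg_apply]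
      by_cases h6 : p = (i, 0)
      · subst h6
        simp
      · have h7 : (EuclideanSpace.single (i, (0 : Fin 1)) (1 : ℝ)) p = 0 := by
          simp [h6]
        rw [h7]
        simp
  -- from functions symmetric under exchanges to symmetric functions
  have hsw : ∀ v : V (ι × Fin 1) → ℝ, ContDiff ℝ 1 v →
      (∀ k l, b k = b l → ∀ x, v (swp k l x) = v x) →
      ∃ c : ℝ, ∫ x, (v x - c) ^ 2 ∂(mu ρ) ≤ 4 * K * ∫ x, ‖fderiv ℝ v x‖ ^ 2 ∂(mu ρ) := by
    intro v hv hvs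
    obtain ⟨c, hc⟩ := hsym (fo (lst b D) v) (fo_cd _ hv) (by
      rintro g (⟨k, l, hkl, rfl⟩ | hg) x
      · refine fo_symm lst_ci (swp k l) (fun F hF => ?_) (fun F hF => ?_) v (hvs k l hkl) x
        · exact (mem_lst _).2 (gf_conj hkl ((mem_lst F).1 hF))
        · obtain ⟨i, j, h1, h3, h4, rfl⟩ := (mem_lst F).1 hF
          refine ⟨fl {Equiv.swap k l i, Equiv.swap k l j}, (mem_lst _).2 ⟨_, _,
            fun h => h1 ((Equiv.swap k l).injective h), by rw [b_swap hkl, b_swap hkl, h3],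
            by rw [b_swap hkl]; exact h4, rfl⟩, ?_⟩
          rw [conj_fl, Equiv.swap_apply_self, Equiv.swap_apply_self]
      · exact fo_inv lst_ci v g ((mem_lst g).2 hg) x)
    refine ⟨c, fo_split hL (4 * K) (lst b D) (fun F hF => ?_) lst_ci.inv (fun F hF g hg ho => ?_)
      v hv c hc⟩
    · exact hρ.inv F (Or.inr ((mem_lst F).1 hF))
    · obtain ⟨i, j, h1, h3, h4, rfl⟩ := (mem_lst F).1 hF
      exact (hflp i j h1 h3 h4 g hg ho).trans
        (mul_le_mul_of_nonneg_right hL4 (integral_nonneg fun x => by positivity))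
  exact hSeq (gad_gg hρ) hL (4 * K) (by positivity)
    (fun k l f hkl hbkl hf h => (hswp k l hkl hbkl f hf h).trans
      (mul_le_mul_of_nonneg_right hL4 (integral_nonneg fun x => by positivity)))
    hsw f hf

theorem ee_fix_ad {ψ : Fin q → Fin N} (hψ : En D ψ) :
    ∀ g ∈ GAD b D, ∀ j, g (ee b (ψ j)) = ee b (ψ j) := by
  rintro g (⟨k, l, hkl, rfl⟩ | ⟨i, j, _, h2, h3, rfl⟩) m
  · exact swp_ev b _ k l hkl
  · ext p
    rw [fl_apply]
    by_cases h : p.1 ∈ ({i, j} : Finset ι)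
    · rw [if_pos h]
      have h4 : ee b (ψ m) p = 0 := by
        show (if b p.1 = ψ m ∧ p.2 = 0 then 1 / Real.sqrt (Bs b (ψ m)).card else 0 : ℝ) = 0
        rw [if_neg]
        rintro ⟨h5, _⟩
        have h6 : D (b p.1) := by
          rw [Finset.mem_insert, Finset.mem_singleton] at h
          rcases h with h | h
          · rw [h]; exact h3
          · rw [h, ← h2]; exact h3
        rw [h5] at h6
        exact (hψ.mem _).2 ⟨m, rfl⟩ h6
      rw [h4, neg_zero]
    · rw [if_neg h]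

/-- the Poincare inequality for the tilted densities -/
theorem inner_ad : ∃ C : ℝ, 0 < C ∧ ∀ {ι : Type} [Fintype ι] [DecidableEq ι] {N q : ℕ}
    {b : ι → Fin N} {D : Fin N → Prop}, Function.Surjective b → (∀ s, D s → 2 ≤ (Bs b s).card) →
    ∀ {ψ : Fin q → Fin N}, En D ψ → ∀ ρ : V (ι × Fin 1) → ℝ, GD (GAD b D) ρ → LC ρ →
    ∀ a : ℝ, 0 < a → Sup b D a ρ → ∀ K : ℝ, 0 < K → C * a ^ 2 ≤ K →
    ∀ (τ : V (Fin q)) (f : V (ι × Fin 1) → ℝ), ContDiff ℝ 1 f →
    ∃ c : ℝ, ∫ x, (f x - c) ^ 2 * tw (fun j => ee b (ψ j)) K τ x ∂(mu ρ) ≤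
      5 * K * ∫ x, ‖fderiv ℝ f x‖ ^ 2 * tw (fun j => ee b (ψ j)) K τ x ∂(mu ρ) := by
  obtain ⟨C, hC, hH⟩ := Pool.Agent.TH368.hardy0
  refine ⟨C, hC, ?_⟩
  intro ι _ _ N q b D hb h2 ψ hψ ρ hD hLC a ha hsupp K hK0 hLK τ g hg
  obtain ⟨e, he⟩ : ∃ e : Fin q → V (ι × Fin 1), e = fun j => ee b (ψ j) := ⟨_, rfl⟩
  rw [← he]
  have hfix : ∀ g ∈ GAD b D, ∀ j, g (e j) = e j := by
    rw [he]
    exact ee_fix_ad hψ
  have hD' : GD (GAD b D) (fun x => ρ x * tw e K τ x) := gd_tilt hD e hfix K hK0 τ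
  have hT' : St e K (fun x => ρ x * tw e K τ x) := tilt_st hD e K hK0 τ
  have hw0 : ∀ x : V (ι × Fin 1), 0 ≤ tw e K τ x := fun x => (Real.exp_pos _).le
  have hwm : Measurable fun x : V (ι × Fin 1) => tw e K τ x := (tw_cont _ K τ).measurable
  have hw1 : ∀ x : V (ι × Fin 1), tw e K τ x ≤ 1 := fun x => by
    unfold tw
    rw [Real.exp_le_one_iff, neg_nonpos]
    positivity
  have hle' : ∀ x, ρ x * tw e K τ x ≤ ρ x :=
    fun x => mul_le_of_le_one_right (hD.nonneg x) (hw1 x)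
  have hb' : Bdd (fun x => ρ x * tw e K τ x) := by
    obtain ⟨R, hR⟩ := hLC.bdd
    exact ⟨R, fun x hx => by simp only [hR x hx, zero_mul]⟩
  have hfin' : mu (fun x => ρ x * tw e K τ x) univ ≠ ⊤ :=
    ne_top_of_le_ne_top hLC.fin (mu_mono ρ _ hle' univ)
  have hne' : mu (fun x => ρ x * tw e K τ x) ≠ 0 := by
    intro h0
    refine hLC.ne ?_
    have h2 : (mu (fun x => ρ x * tw e K τ x)) univ = 0 := by
      rw [h0]; rfl
    rw [mu, withDensity_apply _ MeasurableSet.univ, Measure.restrict_univ,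
      lintegral_eq_zero_iff (hD'.meas.ennreal_ofReal)] at h2
    rw [mu]
    have h3 : (fun x => ENNReal.ofReal (ρ x)) =ᵐ[volume] 0 := by
      filter_upwards [h2] with x hx
      have hx' : ENNReal.ofReal (ρ x * tw e K τ x) = 0 := hx
      rw [ENNReal.ofReal_eq_zero] at hx'
      show ENNReal.ofReal (ρ x) = 0
      rw [ENNReal.ofReal_eq_zero]
      by_contra hc
      rw [not_le] at hc
      have : 0 < ρ x * tw e K τ x := mul_pos hc (Real.exp_pos _)
      linarith
    exact (withDensity_congr_ae h3).trans (by simp)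
  have hLC' : LC (fun x => ρ x * tw e K τ x) :=
    ⟨hD'.nonneg, hD'.meas, hD'.logc, hb', hfin', hne'⟩
  have hsupp' : Sup b D a (fun x => ρ x * tw e K τ x) := by
    intro x hx
    refine hsupp x fun h0 => hx ?_
    simp only [h0, zero_mul]
  obtain ⟨c, hc⟩ := poi_ad (L := C * a ^ 2) hb h2 hψ hD' hLC' (by positivity)
    (fun k l hkl hbkl f hf h => hH (gad_gg hD') hLC' a ha k l hkl hbkl
      (fun x hx => sup_dev hsupp' x hx (b k)) f hf h)
    (fun k l hkl hbkl hDk f hf h => odd_flip hC (fun {_ _} _ _ _ _ {_ _} => hH) hD' hLC' ha hsupp'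
      hkl hbkl hDk f hf h)
    Pool.Agent.TH720.seq0 K hK0 hLK (by rw [← he]; exact hT') g hg
  rw [integral_mu_mul _ _ _ hD.nonneg hD.meas hw0 hwm,
    integral_mu_mul _ _ _ hD.nonneg hD.meas hw0 hwm] at hc
  refine ⟨c, hc.trans (mul_le_mul_of_nonneg_right (by linarith) ?_)⟩
  exact integral_nonneg fun x => mul_nonneg (by positivity) (hw0 x)

end Pool.Agent.Q197.RG
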