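import Pool.Agent.Q197.RA.Core
import Pool.Agent.Q197.RG.In2

/-!
# Orthogonal families of regular simplices and orthonormal systems: the embedding into a space of
arrays

`u i`, `i : ι`, are the vertices of mutually orthogonal regular simplices centred at the origin, one
for each block of `b : ι → Fin n`; `e l`, `l : μ`, is an orthonormal basis of the orthogonal
complement.  The space `V κ` times `ℝ^n` is isometric to the space `V ((ι ⊕ μ) × Fin 1)`.
-/

set_option autoImplicit false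

namespace Pool.Agent.Q197.RG

open MeasureTheory Set
open scoped ENNReal InnerProductSpace
open Pool.Agent.H212R2.KLS (mu Bdd)
open Pool.Agent.H888R2.KT (LC St tw)
open Pool.Agent.H888R2.KT.G2x (mu_indicator integral_mu_mul mu_mono intg)
open Pool.Agent.TH594.KP (V GD GG swp Bs mem_Bs card_Bs_pos ev swp_apply inner_ev gd_indicator)
open Pool.Agent.TH597.HX (dev)
open Pool.Agent.TH597.HX.Loc (ee)
open Pool.Agent.Q197.RA (Sx gram_sum sum_u sum_ux p1 p2 pr p1_pr p2_pr norm_pp mp_pp spl spl_apply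
  spl_mp sum_blocks)

variable {κ ι μ : Type} [Fintype κ] [Fintype ι] [DecidableEq ι] [Fintype μ] [DecidableEq μ] {n : ℕ}

/-- orthonormal basis of the orthogonal complement -/
structure Ox (u : ι → V κ) (e : μ → V κ) : Prop where
  orth : Orthonormal ℝ e
  perp : ∀ i l, ⟪u i, e l⟫_ℝ = 0
  full : ∀ x : V κ, (∀ i, ⟪u i, x⟫_ℝ = 0) → (∀ l, ⟪e l, x⟫_ℝ = 0) → x = 0

variable {b : ι → Fin n} {u : ι → V κ} {e : μ → V κ}

/-- the frame identity -/
theorem frame (hu : Sx b u) (he : Ox u e) (x : V κ) :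
    ∑ i, ⟪u i, x⟫_ℝ • u i + ∑ l, ⟪e l, x⟫_ℝ • e l = x := by
  refine (sub_eq_zero.1 (he.full _ (fun j => ?_) (fun m => ?_)))
  · rw [inner_sub_right, inner_add_right, inner_sum, inner_sum]
    simp_rw [inner_smul_right]
    rw [gram_sum hu (fun i => ⟪u i, x⟫_ℝ) j, sum_ux hu]
    simp [he.perp]
  · rw [inner_sub_right, inner_add_right, inner_sum, inner_sum]
    simp_rw [inner_smul_right]
    have h1 : ∀ i, ⟪e m, u i⟫_ℝ = 0 := fun i => by rw [real_inner_comm]; exact he.perp i m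
    have h2 : ∀ l, ⟪e m, e l⟫_ℝ = if m = l then 1 else 0 := orthonormal_iff_ite.1 he.orth m
    simp [h1, h2]

/-- the frame identity for the norm -/
theorem frame_norm (hu : Sx b u) (he : Ox u e) (x : V κ) :
    ∑ i, ⟪u i, x⟫_ℝ ^ 2 + ∑ l, ⟪e l, x⟫_ℝ ^ 2 = ‖x‖ ^ 2 := by
  have h := congrArg (fun z => ⟪z, x⟫_ℝ) (frame hu he x)
  simp only [inner_add_left, sum_inner, inner_smul_left, real_inner_self_eq_norm_sq] at h
  rw [← h]
  simp [sq]

variable (b u e) in
/-- the embedding -/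
noncomputable def Jm : V (κ ⊕ Fin n) →ₗ[ℝ] V ((ι ⊕ μ) × Fin 1) where
  toFun x := WithLp.toLp 2 fun p => Sum.elim
    (fun i => ⟪u i, p1 κ n x⟫_ℝ + p2 κ n x (b i) / Real.sqrt (Bs b (b i)).card)
    (fun l => ⟪e l, p1 κ n x⟫_ℝ) p.1
  map_add' x y := by
    ext ⟨p, c⟩
    cases p with
    | inl i =>
      simp only [map_add, inner_add_right, PiLp.add_apply, Sum.elim_inl]
      ring
    | inr l =>
      simp only [map_add, inner_add_right, PiLp.add_apply, Sum.elim_inr]
  map_smul' c x := by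
    ext ⟨p, c⟩
    cases p with
    | inl i =>
      simp only [map_smul, inner_smul_right, PiLp.smul_apply, Sum.elim_inl, smul_eq_mul,
        RingHom.id_apply]
      ring
    | inr l =>
      simp only [map_smul, inner_smul_right, PiLp.smul_apply, Sum.elim_inr, smul_eq_mul,
        RingHom.id_apply]

theorem Jm_inl (x : V (κ ⊕ Fin n)) (i : ι) (c : Fin 1) : Jm b u e x (Sum.inl i, c) =
    ⟪u i, p1 κ n x⟫_ℝ + p2 κ n x (b i) / Real.sqrt (Bs b (b i)).card := rfl

theorem Jm_inr (x : V (κ ⊕ Fin n)) (l : μ) (c : Fin 1) : Jm b u e x (Sum.inr l, c) =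
    ⟪e l, p1 κ n x⟫_ℝ := rfl

theorem Jm_norm (hb : Function.Surjective b) (hu : Sx b u) (he : Ox u e) (x : V (κ ⊕ Fin n)) :
    ‖Jm b u e x‖ = ‖x‖ := by
  rw [← sq_eq_sq₀ (norm_nonneg _) (norm_nonneg _), norm_pp, ← frame_norm hu he,
    EuclideanSpace.real_norm_sq_eq, EuclideanSpace.real_norm_sq_eq (p2 κ n x),
    Fintype.sum_prod_type, Fintype.sum_sum_type]
  simp only [Finset.univ_unique, Finset.sum_singleton]
  simp only [Jm_inl, Jm_inr]
  have h1 : ∀ i, (⟪u i, p1 κ n x⟫_ℝ + p2 κ n x (b i) / Real.sqrt (Bs b (b i)).card) ^ 2 =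
      ⟪u i, p1 κ n x⟫_ℝ ^ 2 +
      (2 * (p2 κ n x (b i) / Real.sqrt (Bs b (b i)).card) * ⟪u i, p1 κ n x⟫_ℝ +
      p2 κ n x (b i) ^ 2 / (Bs b (b i)).card) := by
    intro i
    have h2 : Real.sqrt (Bs b (b i)).card ^ 2 = (Bs b (b i)).card :=
      Real.sq_sqrt (Nat.cast_nonneg _)
    rw [add_sq, div_pow, h2]
    ring
  simp_rw [h1]
  rw [Finset.sum_add_distrib]
  have h3 : ∑ i, (2 * (p2 κ n x (b i) / Real.sqrt (Bs b (b i)).card) * ⟪u i, p1 κ n x⟫_ℝ +
      p2 κ n x (b i) ^ 2 / (Bs b (b i)).card) = ∑ s, p2 κ n x s ^ 2 := by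
    rw [sum_blocks (b := b)]
    refine Finset.sum_congr rfl fun s _ => ?_
    have h4 : ∀ i ∈ Bs b s, 2 * (p2 κ n x (b i) / Real.sqrt (Bs b (b i)).card) *
        ⟪u i, p1 κ n x⟫_ℝ + p2 κ n x (b i) ^ 2 / (Bs b (b i)).card =
        2 * (p2 κ n x s / Real.sqrt (Bs b s).card) * ⟪u i, p1 κ n x⟫_ℝ +
        p2 κ n x s ^ 2 / (Bs b s).card := by
      intro i hi
      rw [(mem_Bs b s i).1 hi]
    rw [Finset.sum_congr rfl h4, Finset.sum_add_distrib, ← Finset.mul_sum, sum_ux hu,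
      Finset.sum_const, nsmul_eq_mul]
    have h5 := (card_Bs_pos hb s).ne'
    field_simp
    ring
  rw [h3]
  ring

theorem Jm_surj (hb : Function.Surjective b) (hu : Sx b u) (he : Ox u e) :
    Function.Surjective (Jm b u e) := by
  intro y
  refine ⟨pr (∑ i, y (Sum.inl i, 0) • u i + ∑ l, y (Sum.inr l, 0) • e l)
    (WithLp.toLp 2 fun s => (∑ i ∈ Bs b s, y (Sum.inl i, 0)) / Real.sqrt (Bs b s).card), ?_⟩
  ext ⟨p, c⟩
  have hc : c = 0 := Subsingleton.elim _ _
  subst hc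
  cases p with
  | inl j =>
    rw [Jm_inl, p1_pr, p2_pr, inner_add_right, inner_sum, inner_sum]
    simp_rw [inner_smul_right]
    rw [gram_sum hu (fun i => y (Sum.inl i, 0)) j]
    simp only [he.perp, mul_zero, Finset.sum_const_zero, add_zero]
    have h5 := card_Bs_pos hb (b j)
    have h6 : Real.sqrt (Bs b (b j)).card * Real.sqrt (Bs b (b j)).card = (Bs b (b j)).card :=
      Real.mul_self_sqrt h5.le
    rw [div_div, h6]
    ring
  | inr l =>
    rw [Jm_inr, p1_pr, inner_add_right, inner_sum, inner_sum]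
    simp_rw [inner_smul_right]
    have h1 : ∀ i, ⟪e l, u i⟫_ℝ = 0 := fun i => by rw [real_inner_comm]; exact he.perp i l
    have h2 : ∀ m, ⟪e l, e m⟫_ℝ = if l = m then 1 else 0 := orthonormal_iff_ite.1 he.orth l
    simp [h1, h2]

/-- the isometry -/
noncomputable def iso (hb : Function.Surjective b) (hu : Sx b u) (he : Ox u e) :
    V (κ ⊕ Fin n) ≃ₗᵢ[ℝ] V ((ι ⊕ μ) × Fin 1) :=
  LinearIsometryEquiv.ofSurjective ⟨Jm b u e, Jm_norm hb hu he⟩ (Jm_surj hb hu he)

theorem iso_apply (hb : Function.Surjective b) (hu : Sx b u) (he : Ox u e)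
    (x : V (κ ⊕ Fin n)) : iso hb hu he x = Jm b u e x := rfl

section ctx

variable (hb : Function.Surjective b) (hu : Sx b u) (he : Ox u e)

/-- component in `V κ` -/
noncomputable def A : V ((ι ⊕ μ) × Fin 1) →L[ℝ] V κ :=
  (LinearMap.toContinuousLinearMap (p1 κ n)).comp
    ((iso hb hu he).symm.toContinuousLinearEquiv : V ((ι ⊕ μ) × Fin 1) →L[ℝ] V (κ ⊕ Fin n))

/-- component in `ℝ^n` -/
noncomputable def T : V ((ι ⊕ μ) × Fin 1) →L[ℝ] V (Fin n) :=
  (LinearMap.toContinuousLinearMap (p2 κ n)).comp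
    ((iso hb hu he).symm.toContinuousLinearEquiv : V ((ι ⊕ μ) × Fin 1) →L[ℝ] V (κ ⊕ Fin n))

theorem A_def (y : V ((ι ⊕ μ) × Fin 1)) :
    A hb hu he y = p1 κ n ((iso hb hu he).symm y) := rfl

theorem T_def (y : V ((ι ⊕ μ) × Fin 1)) :
    T hb hu he y = p2 κ n ((iso hb hu he).symm y) := rfl

theorem norm_AT (y : V ((ι ⊕ μ) × Fin 1)) :
    ‖y‖ ^ 2 = ‖A hb hu he y‖ ^ 2 + ‖T hb hu he y‖ ^ 2 := by
  rw [A_def, T_def, ← norm_pp, LinearIsometryEquiv.norm_map]

theorem norm_A_le : ‖A hb hu he‖ ≤ 1 := by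
  refine ContinuousLinearMap.opNorm_le_bound _ zero_le_one fun y => ?_
  rw [one_mul]
  have h := norm_AT hb hu he y
  exact abs_le_of_sq_le_sq' (by nlinarith [sq_nonneg ‖T hb hu he y‖]) (norm_nonneg _) |>.2

theorem coord_inl (y : V ((ι ⊕ μ) × Fin 1)) (i : ι) (c : Fin 1) : y (Sum.inl i, c) =
    ⟪u i, A hb hu he y⟫_ℝ + T hb hu he y (b i) / Real.sqrt (Bs b (b i)).card := by
  have h := Jm_inl (b := b) (u := u) (e := e) ((iso hb hu he).symm y) i c
  rw [← iso_apply hb hu he, LinearIsometryEquiv.apply_symm_apply] at h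
  exact h

theorem coord_inr (y : V ((ι ⊕ μ) × Fin 1)) (l : μ) (c : Fin 1) : y (Sum.inr l, c) =
    ⟪e l, A hb hu he y⟫_ℝ := by
  have h := Jm_inr (b := b) (u := u) (e := e) ((iso hb hu he).symm y) l c
  rw [← iso_apply hb hu he, LinearIsometryEquiv.apply_symm_apply] at h
  exact h

/-- identification of the components -/
theorem AT_of (y : V ((ι ⊕ μ) × Fin 1)) (z : V κ) (t : V (Fin n))
    (h1 : ∀ i, y (Sum.inl i, 0) = ⟪u i, z⟫_ℝ + t (b i) / Real.sqrt (Bs b (b i)).card)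
    (h2 : ∀ l, y (Sum.inr l, 0) = ⟪e l, z⟫_ℝ) : A hb hu he y = z ∧ T hb hu he y = t := by
  have h3 : y = iso hb hu he (pr z t) := by
    ext ⟨p, c⟩
    have hc : c = 0 := Subsingleton.elim _ _
    subst hc
    rw [iso_apply]
    cases p with
    | inl i => rw [Jm_inl, p1_pr, p2_pr, h1]
    | inr l => rw [Jm_inr, p1_pr, h2]
  constructor
  · rw [A_def, h3, LinearIsometryEquiv.symm_apply_apply, p1_pr]
  · rw [T_def, h3, LinearIsometryEquiv.symm_apply_apply, p2_pr]

/-- the whole splitting of the extended space -/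
noncomputable def E : V ((ι ⊕ μ) × Fin 1) ≃ᵐ V κ × V (Fin n) :=
  ((iso hb hu he).symm.toHomeomorph.toMeasurableEquiv).trans (spl κ n)

theorem E_apply (y : V ((ι ⊕ μ) × Fin 1)) : E hb hu he y = (A hb hu he y, T hb hu he y) := rfl

theorem E_mp : MeasurePreserving (E hb hu he) volume (volume.prod volume) :=
  spl_mp.comp (iso hb hu he).symm.measurePreserving

theorem int_E (F : V κ × V (Fin n) → ℝ) : ∫ y, F (A hb hu he y, T hb hu he y) =
    ∫ z, F z ∂(volume.prod volume) := (E_mp hb hu he).integral_comp' F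

theorem int_prod (f : V κ → ℝ) (g : V (Fin n) → ℝ) :
    ∫ y, f (A hb hu he y) * g (T hb hu he y) = (∫ x, f x) * ∫ t, g t := by
  rw [int_E hb hu he fun z => f z.1 * g z.2]
  exact integral_prod_mul f g

end ctx

/-- the blocks of the extended space -/
def bb {N : ℕ} (b : ι → Fin n) (c : μ → Fin N) : ι ⊕ μ → Fin (n + N) :=
  Sum.elim (fun i => Fin.castAdd N (b i)) (fun l => Fin.natAdd n (c l))

section bb

variable {N : ℕ} {c : μ → Fin N}

theorem cast_ne_nat (s : Fin n) (t : Fin N) : Fin.castAdd N s ≠ Fin.natAdd n t := by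
  intro h
  have h1 : (Fin.castAdd N s).val = (Fin.natAdd n t).val := congrArg Fin.val h
  rw [Fin.val_castAdd, Fin.val_natAdd] at h1
  have := s.isLt
  omega

theorem bb_surj (hb : Function.Surjective b) (hc : Function.Surjective c) :
    Function.Surjective (bb b c) := by
  intro j
  refine Fin.addCases (fun s => ?_) (fun l => ?_) j
  · obtain ⟨i, hi⟩ := hb s
    exact ⟨Sum.inl i, by rw [← hi]; rfl⟩
  · obtain ⟨i, hi⟩ := hc l
    exact ⟨Sum.inr i, by rw [← hi]; rfl⟩

theorem bb_inl_inr (i : ι) (l : μ) : bb b c (Sum.inl i) ≠ bb b c (Sum.inr l) :=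
  cast_ne_nat _ _

theorem bb_inl (i j : ι) : bb b c (Sum.inl i) = bb b c (Sum.inl j) ↔ b i = b j := by
  constructor
  · intro h
    exact Fin.castAdd_injective n N h
  · intro h
    show Fin.castAdd N (b i) = Fin.castAdd N (b j)
    rw [h]

theorem bb_inr (l m : μ) : bb b c (Sum.inr l) = bb b c (Sum.inr m) ↔ c l = c m := by
  constructor
  · intro h
    exact Fin.natAdd_injective _ _ h
  · intro h
    show Fin.natAdd n (c l) = Fin.natAdd n (c m)
    rw [h]

theorem Bs_inl (s : Fin n) :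
    Bs (bb b c) (Fin.castAdd N s) = (Bs b s).map ⟨Sum.inl, Sum.inl_injective⟩ := by
  ext p
  rw [mem_Bs, Finset.mem_map]
  cases p with
  | inl i =>
    constructor
    · intro h
      exact ⟨i, (mem_Bs b s i).2 (Fin.castAdd_injective n N h), rfl⟩
    · rintro ⟨j, hj, hj2⟩
      have : j = i := Sum.inl_injective hj2
      subst this
      show Fin.castAdd N (b j) = _
      rw [(mem_Bs b s j).1 hj]
  | inr l =>
    constructor
    · intro h
      exact absurd h.symm (cast_ne_nat s (c l))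
    · rintro ⟨j, _, hj2⟩
      exact absurd hj2 (by simp)

theorem Bs_inr (t : Fin N) :
    Bs (bb b c) (Fin.natAdd n t) = (Bs c t).map ⟨Sum.inr, Sum.inr_injective⟩ := by
  ext p
  rw [mem_Bs, Finset.mem_map]
  cases p with
  | inl i =>
    constructor
    · intro h
      exact absurd h (cast_ne_nat (b i) t)
    · rintro ⟨j, _, hj2⟩
      exact absurd hj2 (by simp)
  | inr m =>
    constructor
    · intro h
      exact ⟨m, (mem_Bs c t m).2 (Fin.natAdd_injective _ _ h), rfl⟩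
    · rintro ⟨j, hj, hj2⟩
      have : j = m := Sum.inr_injective hj2
      subst this
      show Fin.natAdd n (c j) = _
      rw [(mem_Bs c t j).1 hj]

theorem card_inl (s : Fin n) : (Bs (bb b c) (Fin.castAdd N s)).card = (Bs b s).card := by
  rw [Bs_inl, Finset.card_map]

theorem card_inr (t : Fin N) : (Bs (bb b c) (Fin.natAdd n t)).card = (Bs c t).card := by
  rw [Bs_inr, Finset.card_map]

end bb

section ctx

variable {N : ℕ} {c : μ → Fin N} (hb : Function.Surjective b) (hu : Sx b u) (he : Ox u e)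

theorem ee_inl (s : Fin n) (y : V ((ι ⊕ μ) × Fin 1)) :
    ⟪ee (bb b c) (Fin.castAdd N s), y⟫_ℝ = T hb hu he y s := by
  unfold ee
  rw [inner_ev]
  simp only [Bs_inl, Finset.sum_map, Function.Embedding.coeFn_mk, Finset.card_map]
  have h1 : ∀ i ∈ Bs b s, y (Sum.inl i, 0) = ⟪u i, A hb hu he y⟫_ℝ +
      T hb hu he y s / Real.sqrt (Bs b s).card := by
    intro i hi
    rw [coord_inl hb hu he, (mem_Bs b s i).1 hi]
  rw [Finset.sum_congr rfl h1, Finset.sum_add_distrib, sum_ux hu, Finset.sum_const, nsmul_eq_mul]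
  have h5 := card_Bs_pos hb s
  have h6 : Real.sqrt (Bs b s).card * Real.sqrt (Bs b s).card = (Bs b s).card :=
    Real.mul_self_sqrt h5.le
  have h7 : Real.sqrt (Bs b s).card ≠ 0 := (Real.sqrt_pos.2 h5).ne'
  rw [zero_add]
  rw [div_mul_eq_mul_div, one_mul, mul_div_assoc', div_div, h6, mul_comm, mul_div_assoc,
    div_self h5.ne', mul_one]

theorem ee_inr (t : Fin N) (l : μ) (hl : Bs c t = {l}) (y : V ((ι ⊕ μ) × Fin 1)) :
    ⟪ee (bb b c) (Fin.natAdd n t), y⟫_ℝ = ⟪e l, A hb hu he y⟫_ℝ := by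
  unfold ee
  rw [inner_ev]
  simp only [Bs_inr, Finset.sum_map, Function.Embedding.coeFn_mk, Finset.card_map, hl,
    Finset.sum_singleton, Finset.card_singleton]
  rw [coord_inr hb hu he]
  simp

end ctx

end Pool.Agent.Q197.RG
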