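import Pool.Agent.Q197.RG.Core

/-!
# KLS for reflection groups of type `A` and `D`: the final forms
-/

set_option autoImplicit false

namespace Pool.Agent.Q197.RG

open MeasureTheory Set
open scoped ENNReal InnerProductSpace
open Pool.Agent.H212R2.KLS (mu Bdd)
open Pool.Agent.H888R2.KT (LC)
open Pool.Agent.H888R2.KT.G2x (intg)
open Pool.Agent.TH594.KP (V GD SC Bs mem_Bs full mainc)
open Pool.Agent.Q197.RA (Sx ball)

variable {κ ι ν : Type} [Fintype κ] [Fintype ι] [DecidableEq ι] [Fintype ν] [DecidableEq ν]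
  {n q r : ℕ}
variable {b : ι → Fin n} {u : ι → V κ} {d : ν → Fin r} {v : ν → V κ}

/-- mutually orthogonal simplices and an orthonormal system -/
structure Rt (b : ι → Fin n) (u : ι → V κ) (v : ν → V κ) : Prop where
  sx : Sx b u
  orth : ∀ i j, ⟪v i, v j⟫_ℝ = if i = j then 1 else 0
  perp : ∀ i j, ⟪u i, v j⟫_ℝ = 0

variable (u v) in
/-- the dimension of the fixed space -/
noncomputable def fd : ℕ :=
  Module.finrank ℝ ((Submodule.span ℝ (range u ∪ range v))ᗮ : Submodule ℝ (V κ))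

/-- orthonormal basis of the fixed space -/
theorem ex_ox (h : Rt b u v) : ∃ e : Fin (fd u v) → V κ, Ox u (Sum.elim e v) := by
  obtain ⟨e, he⟩ := Pool.Agent.Q197.RA.ex_fx (κ := κ) (Sum.elim u v)
  have hr : range (Sum.elim u v) = range u ∪ range v := Set.Sum.elim_range u v
  have key : ∀ S : Set (V κ), S = range (Sum.elim u v) →
      ∃ e : Fin (Module.finrank ℝ ((Submodule.span ℝ S)ᗮ : Submodule ℝ (V κ))) → V κ,
        Ox u (Sum.elim e v) := by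
    rintro S rfl
    refine ⟨e, ?_, ?_, ?_⟩
    · rw [orthonormal_iff_ite]
      have h1 := orthonormal_iff_ite.1 he.orth
      have h3 : ∀ i j, ⟪v j, e i⟫_ℝ = 0 := fun i j => he.perp (Sum.inr j) i
      rintro (i | i) (j | j)
      · simpa using h1 i j
      · have h4 := h3 i j
        rw [real_inner_comm] at h4
        simpa using h4
      · simpa using h3 j i
      · simpa using h.orth i j
    · rintro i (l | l)
      · exact he.perp (Sum.inl i) l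
      · exact h.perp i l
    · intro x hx hx2
      refine he.full x (fun p => ?_) (fun l => hx2 (Sum.inl l))
      rcases p with i | l
      · exact hx i
      · exact hx2 (Sum.inr l)
  exact key _ hr.symm

/-- the factor -/
noncomputable def fac (D : ℝ) (N m : ℕ) : ℝ := D * (1 + Real.log N / m) ^ 2

theorem fac_pos {D : ℝ} (hD : 1 ≤ D) (N m : ℕ) : 0 < fac D N m := by
  unfold fac
  have h : 0 ≤ Real.log N := Real.log_natCast_nonneg N
  positivity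

theorem sqrt_fac {D : ℝ} (hD : 1 ≤ D) (N m : ℕ) :
    Real.sqrt (fac D N m) = Real.sqrt D * (1 + Real.log N / m) := by
  unfold fac
  have h : 0 ≤ Real.log N := Real.log_natCast_nonneg N
  rw [Real.sqrt_mul (by positivity), Real.sqrt_sq (by positivity)]

theorem scf : ∃ C : ℝ, 0 < C ∧ ∀ {κ ι ν : Type} [Fintype κ] [Fintype ι] [DecidableEq ι]
    [Fintype ν] [DecidableEq ν] {n r m : ℕ}
    {b : ι → Fin n} {u : ι → V κ} {d : ν → Fin r} {v : ν → V κ},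
    Function.Surjective b → Function.Surjective d → Rt b u v →
    1 ≤ n + r → 2 ≤ m → (∀ s, m ≤ (Bs b s).card) → (∀ t, m ≤ (Bs d t).card) →
    ∀ D : ℝ, AD (fd u v) D → SC (GR b u d v) (C * fac D (n + r) m) := by
  obtain ⟨C, hC, H⟩ := sc
  refine ⟨C, hC, ?_⟩
  intro κ ι ν _ _ _ _ _ n r m b u d v hb hd h hN hm hcb hcd D hD
  obtain ⟨e, he⟩ := ex_ox h
  exact H hb hd (fun t => hm.trans (hcd t)) h.sx he hN (by omega) hcb hcd D hD

theorem gd_of {ρ : V κ → ℝ} (hnn : ∀ x, 0 ≤ ρ x) (hmeas : Measurable ρ)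
    (hlc : ∀ x y, ∀ t : ℝ, 0 < t → t < 1 → ρ x ^ (1 - t) * ρ y ^ t ≤ ρ ((1 - t) • x + t • y))
    (h1 : ∀ k l, b k = b l → ∀ x, ρ (x - ⟪u k - u l, x⟫_ℝ • (u k - u l)) = ρ x)
    (h2 : ∀ k l, d k = d l → ∀ x, ρ (x - ⟪v k - v l, x⟫_ℝ • (v k - v l)) = ρ x)
    (h3 : ∀ k l, k ≠ l → d k = d l → ∀ x, ρ (x - ⟪v k + v l, x⟫_ℝ • (v k + v l)) = ρ x) :
    GD (GR b u d v) ρ :=
  ⟨hnn, hmeas, hlc, by
    rintro g (⟨k, l, hkl, hg⟩ | ⟨k, l, hkl, hg⟩ | ⟨k, l, hne, hkl, hg⟩) x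
    · rw [hg]
      exact h1 k l hkl x
    · rw [hg]
      exact h2 k l hkl x
    · rw [hg]
      exact h3 k l hne hkl x⟩

theorem refl_refl {w : V κ} (hw : ‖w‖ ^ 2 = 2 ∨ w = 0) (x : V κ) :
    x - ⟪w, x⟫_ℝ • w - ⟪w, x - ⟪w, x⟫_ℝ • w⟫_ℝ • w = x := by
  rcases hw with h | h
  · rw [← real_inner_self_eq_norm_sq] at h
    rw [inner_sub_right w x, inner_smul_right, h]
    module
  · simp [h]

/-- sets invariant under the reflections -/
theorem set_of (h : Rt b u v) {D : Set (V κ)}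
    (h1 : ∀ k l, b k = b l → ∀ x, x ∈ D → x - ⟪u k - u l, x⟫_ℝ • (u k - u l) ∈ D)
    (h2 : ∀ k l, d k = d l → ∀ x, x ∈ D → x - ⟪v k - v l, x⟫_ℝ • (v k - v l) ∈ D)
    (h3 : ∀ k l, k ≠ l → d k = d l → ∀ x, x ∈ D → x - ⟪v k + v l, x⟫_ℝ • (v k + v l) ∈ D) :
    ∀ g ∈ GR b u d v, ∀ x, g x ∈ D ↔ x ∈ D := by
  obtain ⟨e, he⟩ := ex_ox h
  have key : ∀ (g : V κ ≃ₗᵢ[ℝ] V κ) (w : V κ), (∀ x, g x = x - ⟪w, x⟫_ℝ • w) →
      (‖w‖ ^ 2 = 2 ∨ w = 0) → (∀ x, x ∈ D → x - ⟪w, x⟫_ℝ • w ∈ D) → ∀ x, g x ∈ D ↔ x ∈ D := by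
    intro g w hg hw hD x
    constructor
    · intro h4
      have h5 := hD _ h4
      rw [hg, refl_refl hw] at h5
      exact h5
    · intro h4
      rw [hg]
      exact hD x h4
  rintro g (⟨k, l, hkl, hg⟩ | ⟨k, l, hkl, hg⟩ | ⟨k, l, hne, hkl, hg⟩)
  · refine key g _ hg ?_ (h1 k l hkl)
    by_cases hne : k = l
    · right
      rw [hne, sub_self]
    · exact Or.inl (Pool.Agent.Q197.RA.norm_sub_sq h.sx k l hkl hne)
  · exact key g _ hg (norm_vsub he k l) (h2 k l hkl)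
  · exact key g _ hg (norm_vadd he k l hne) (h3 k l hne hkl)

/-- the weak Poincare inequality, second moments, invariance under all isometries which preserve a
set `S` invariant under the reflections -/
theorem weakD : ∃ C : ℝ, 0 < C ∧ ∀ {κ ι ν : Type} [Fintype κ] [Fintype ι] [DecidableEq ι]
    [Fintype ν] [DecidableEq ν] {n r m : ℕ}
    {b : ι → Fin n} {u : ι → V κ} {d : ν → Fin r} {v : ν → V κ},
    Function.Surjective b → Function.Surjective d → Rt b u v →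
    1 ≤ n + r → 2 ≤ m → (∀ s, m ≤ (Bs b s).card) → (∀ t, m ≤ (Bs d t).card) →
    ∀ D : ℝ, AD (fd u v) D → ∀ S : Set (V κ),
    (∀ g ∈ GR b u d v, ∀ x, g x ∈ S ↔ x ∈ S) →
    ∀ ρ : V κ → ℝ, (∀ x, 0 ≤ ρ x) → Measurable ρ →
    (∀ x y, ∀ t : ℝ, 0 < t → t < 1 → ρ x ^ (1 - t) * ρ y ^ t ≤ ρ ((1 - t) • x + t • y)) →
    (∀ e : V κ ≃ₗᵢ[ℝ] V κ, (∀ x, e x ∈ S ↔ x ∈ S) → ∀ x, ρ (e x) = ρ x) →
    mu ρ univ = 1 → ∀ s : ℝ, 0 < s → (∀ θ : V κ,
      ∫⁻ x, ENNReal.ofReal (⟪θ, x⟫_ℝ ^ 2) ∂(mu ρ) ≤ ENNReal.ofReal (s * ‖θ‖ ^ 2)) →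
    ∀ v : V κ → ℝ, ContDiff ℝ 1 v → (∀ x, |v x| ≤ 1) →
    ENNReal.ofReal ((∫ x, (v x - ∫ y, v y ∂(mu ρ)) ^ 2 ∂(mu ρ)) ^ 2) ≤
      ENNReal.ofReal (C * fac D (n + r) m * s) *
        ∫⁻ x, ENNReal.ofReal (‖fderiv ℝ v x‖ ^ 2) ∂(mu ρ) := by
  obtain ⟨C, hC, H⟩ := scf
  refine ⟨8 * C, by positivity, ?_⟩
  intro κ ι ν _ _ _ _ _ n r m b u d v hb hd h hN hm hcb hcd D hD S hS ρ hnn hmeas hlc hiso h1 s
    hs hmom w hw hwb
  have hG : GD (GR b u d v) ρ := ⟨hnn, hmeas, hlc, fun g hg x => hiso g (hS g hg) x⟩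
  have key := mainc (mul_pos hC (fac_pos hD.1 _ m)) (H hb hd h hN hm hcb hcd D hD) ρ hG h1 s hs
    hmom w hw hwb
  have e : 8 * (C * fac D (n + r) m) * s = 8 * C * fac D (n + r) m * s := by ring
  rw [e] at key
  exact key

/-- the KLS constant in terms of variances -/
theorem kpo_of {D : ℝ} (h : ∀ ρ : V (Fin q) → ℝ, (∀ x, 0 ≤ ρ x) → Measurable ρ →
      (∀ x y, ∀ t : ℝ, 0 < t → t < 1 → ρ x ^ (1 - t) * ρ y ^ t ≤ ρ ((1 - t) • x + t • y)) →
      (∃ R : ℝ, ∀ x, R < ‖x‖ → ρ x = 0) → ∀ μ : Measure (V (Fin q)),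
      μ = volume.withDensity (fun x => ENNReal.ofReal (ρ x)) → IsProbabilityMeasure μ →
      ∀ s : ℝ, 0 < s → (∀ θ : V (Fin q), ProbabilityTheory.evariance (fun x => ⟪θ, x⟫_ℝ) μ ≤
        ENNReal.ofReal (s * ‖θ‖ ^ 2)) → ∀ f : V (Fin q) → ℝ, ContDiff ℝ 1 f →
      ProbabilityTheory.variance f μ ≤ D * s * ∫ x, ‖fderiv ℝ f x‖ ^ 2 ∂μ) : KPo q D := by
  intro ρ hL h1 s hs hmom f hf
  have hprob : IsProbabilityMeasure (mu ρ) := ⟨h1⟩
  have hball := ball hL.meas hL.bdd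
  refine ⟨∫ x, f x ∂(mu ρ), ?_⟩
  have hm2 : ∀ g : V (Fin q) → ℝ, Continuous g → MemLp g 2 (mu ρ) := fun g hg => by
    rw [memLp_two_iff_integrable_sq hg.aestronglyMeasurable]
    exact intg (mu ρ) hball _ (hg.pow 2)
  have h2 := h ρ hL.nonneg hL.meas hL.logc hL.bdd (mu ρ) rfl hprob s hs (fun θ => by
    have hc : Continuous fun x : V (Fin q) => ⟪θ, x⟫_ℝ := continuous_const.inner continuous_id
    rw [← (hm2 _ hc).ofReal_variance_eq]
    refine ENNReal.ofReal_le_ofReal ?_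
    refine (ProbabilityTheory.variance_le_expectation_sq hc.aestronglyMeasurable).trans ?_
    exact hmom θ) f hf
  rw [ProbabilityTheory.variance_eq_integral hf.continuous.measurable.aemeasurable] at h2
  exact h2

end Pool.Agent.Q197.RG
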