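import Pool.Agent.Q197.RG.Fin
import Pool.Agent.Q155.IB.Law
import Pool.Agent.Q155.IB.Hyp

/-!
# Linear and affine images of measures and bodies invariant under reflection groups
-/

set_option autoImplicit false

namespace Pool.Agent.Q197.RG

open MeasureTheory Set
open scoped ENNReal InnerProductSpace
open Pool.Agent.TH594.KP (V GD SC Bs full)
open Pool.Agent.Q155.IB (KL KL2)

/-- the variance inequality -/
theorem kl2 : ∃ C : ℝ, 0 < C ∧ ∀ {κ ι ν : Type} [Fintype κ] [Fintype ι] [DecidableEq ι]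
    [Fintype ν] [DecidableEq ν] {n r m : ℕ}
    {b : ι → Fin n} {u : ι → V κ} {d : ν → Fin r} {v : ν → V κ},
    Function.Surjective b → Function.Surjective d → Rt b u v →
    1 ≤ n + r → 2 ≤ m → (∀ s, m ≤ (Bs b s).card) → (∀ t, m ≤ (Bs d t).card) →
    ∀ D : ℝ, AD (fd u v) D → KL2 (GR b u d v) (C * fac D (n + r) m) := by
  obtain ⟨C, hC, H⟩ := scf
  refine ⟨8 * C, by positivity, ?_⟩
  intro κ ι ν _ _ _ _ _ n r m b u d v hb hd h hN hm hcb hcd D hD ρ hρ h1 hcov f hf hL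
  have key := full (mul_pos hC (fac_pos hD.1 _ m)) (H hb hd h hN hm hcb hcd D hD) ρ hρ h1 1 one_pos
    (fun θ => by rw [one_mul]; exact hcov θ) f hf
  obtain ⟨k1, k2⟩ := key.1 hL
  refine ⟨k1, k2.trans (le_of_eq ?_)⟩
  ring

/-- the variance inequality with a bounded factor -/
theorem kl_le : ∃ C : ℝ, 0 < C ∧ ∀ Λ : ℝ, ∀ {κ ι ν : Type} [Fintype κ] [Fintype ι] [DecidableEq ι]
    [Fintype ν] [DecidableEq ν] {n r m : ℕ}
    {b : ι → Fin n} {u : ι → V κ} {d : ν → Fin r} {v : ν → V κ},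
    Function.Surjective b → Function.Surjective d → Rt b u v →
    1 ≤ n + r → 2 ≤ m → (∀ s, m ≤ (Bs b s).card) → (∀ t, m ≤ (Bs d t).card) →
    ∀ D : ℝ, AD (fd u v) D → fac D (n + r) m ≤ Λ → KL (GR b u d v) (C * Λ) := by
  obtain ⟨C, hC, H⟩ := kl2
  refine ⟨C, hC, ?_⟩
  intro Λ κ ι ν _ _ _ _ _ n r m b u d v hb hd h hN hm hcb hcd D hD hΛ ρ hρ h1 hcov f hf hB hL
  exact ((H hb hd h hN hm hcb hcd D hD).kl ρ hρ h1 hcov f hf hB hL).trans
    (mul_le_mul_of_nonneg_left hΛ hC.le)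

end Pool.Agent.Q197.RG
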