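import Pool.Agent.TH594.KP.Sym

/-!
# Splitting into even and odd parts under commuting involutions
-/

set_option autoImplicit false

namespace Pool.Agent.Q197.RG

open MeasureTheory Set
open scoped ENNReal InnerProductSpace
open Pool.Agent.H212R2.KLS (mu Bdd)
open Pool.Agent.H888R2.KT
open Pool.Agent.H888R2.KT.N9x
open Pool.Agent.TH594.KP (V GD)

variable {κ : Type} [Fintype κ]

/-- even part -/
noncomputable def Av (F : V κ ≃ₗᵢ[ℝ] V κ) (f : V κ → ℝ) : V κ → ℝ := fun x => (f x + f (F x)) / 2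

theorem cd_comp (F : V κ ≃ₗᵢ[ℝ] V κ) {f : V κ → ℝ} (hf : ContDiff ℝ 1 f) :
    ContDiff ℝ 1 fun x => f (F x) := hf.comp F.contDiff

theorem av_cd (F : V κ ≃ₗᵢ[ℝ] V κ) {f : V κ → ℝ} (hf : ContDiff ℝ 1 f) :
    ContDiff ℝ 1 (Av F f) := (hf.add (cd_comp F hf)).div_const 2

theorem norm_fd_comp (F : V κ ≃ₗᵢ[ℝ] V κ) {f : V κ → ℝ} (hf : ContDiff ℝ 1 f) (x : V κ) :
    ‖fderiv ℝ (fun x => f (F x)) x‖ = ‖fderiv ℝ f (F x)‖ := by
  have h1 : HasFDerivAt (fun x => f (F x))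
      ((fderiv ℝ f (F x)).comp (F.toContinuousLinearEquiv : V κ →L[ℝ] V κ)) x :=
    ((hf.differentiable (by norm_num)) (F x)).hasFDerivAt.comp x
      (F.toContinuousLinearEquiv.hasFDerivAt)
  rw [h1.fderiv]
  exact ContinuousLinearMap.opNorm_comp_linearIsometryEquiv (fderiv ℝ f (F x)) F

open Classical in
/-- parallelogram law for functionals -/
theorem par (a b : V κ →L[ℝ] ℝ) :
    ‖(1 / 2 : ℝ) • (a + b)‖ ^ 2 + ‖(1 / 2 : ℝ) • (a - b)‖ ^ 2 = (‖a‖ ^ 2 + ‖b‖ ^ 2) / 2 := by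
  simp only [N8x.norm_sq_clm]
  rw [← Finset.sum_add_distrib, ← Finset.sum_add_distrib, Finset.sum_div]
  refine Finset.sum_congr rfl fun i _ => ?_
  simp only [_root_.smul_apply, _root_.add_apply,
    _root_.sub_apply, smul_eq_mul]
  ring

/-- If the odd functions satisfy the inequality, then it is enough to have it for the even part. -/
theorem split {ρ : V κ → ℝ} (hρ : LC ρ) (F : V κ ≃ₗᵢ[ℝ] V κ) (hF : ∀ x, ρ (F x) = ρ x)
    (hF2 : ∀ x, F (F x) = x) (L : ℝ)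
    (hodd : ∀ g : V κ → ℝ, ContDiff ℝ 1 g → (∀ x, g (F x) = - g x) →
      ∫ x, g x ^ 2 ∂(mu ρ) ≤ L * ∫ x, ‖fderiv ℝ g x‖ ^ 2 ∂(mu ρ))
    (f : V κ → ℝ) (hf : ContDiff ℝ 1 f) (c : ℝ)
    (h : ∫ x, (Av F f x - c) ^ 2 ∂(mu ρ) ≤ L * ∫ x, ‖fderiv ℝ (Av F f) x‖ ^ 2 ∂(mu ρ)) :
    ∫ x, (f x - c) ^ 2 ∂(mu ρ) ≤ L * ∫ x, ‖fderiv ℝ f x‖ ^ 2 ∂(mu ρ) := by
  obtain ⟨g, hg⟩ : ∃ g : V κ → ℝ, g = fun x => (f x - f (F x)) / 2 := ⟨_, rfl⟩
  have hfF := cd_comp F hf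
  have hA := av_cd F hf
  have hgc : ContDiff ℝ 1 g := by rw [hg]; exact (hf.sub hfF).div_const 2
  have hgo : ∀ x, g (F x) = - g x := by
    intro x
    rw [hg]
    simp only [hF2]
    ring
  have h1 := hodd g hgc hgo
  have e1 : ∫ x, (f x - c) ^ 2 ∂(mu ρ) =
      ∫ x, (Av F f x - c) ^ 2 ∂(mu ρ) + ∫ x, g x ^ 2 ∂(mu ρ) := by
    have i1 : Integrable (fun x => (Av F f x - c) ^ 2) (mu ρ) :=
      int_cont hρ ((hA.continuous.sub continuous_const).pow 2)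
    have i2 : Integrable (fun x => g x ^ 2) (mu ρ) := int_cont hρ (hgc.continuous.pow 2)
    have i3 : Integrable (fun x => (f x - c) ^ 2) (mu ρ) :=
      int_cont hρ ((hf.continuous.sub continuous_const).pow 2)
    have i4 : Integrable (fun x => (f (F x) - c) ^ 2) (mu ρ) :=
      int_cont hρ ((hfF.continuous.sub continuous_const).pow 2)
    rw [← integral_add i1 i2]
    have h2 : ∀ x, (Av F f x - c) ^ 2 + g x ^ 2 = ((f x - c) ^ 2 + (f (F x) - c) ^ 2) / 2 := by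
      intro x
      rw [hg]
      unfold Av
      ring
    simp only [h2]
    rw [integral_div, integral_add i3 i4, N10x.int_comp hρ.meas F hF fun x => (f x - c) ^ 2]
    ring
  have e2 : ∫ x, ‖fderiv ℝ f x‖ ^ 2 ∂(mu ρ) =
      ∫ x, ‖fderiv ℝ (Av F f) x‖ ^ 2 ∂(mu ρ) + ∫ x, ‖fderiv ℝ g x‖ ^ 2 ∂(mu ρ) := by
    have i1 : Integrable (fun x => ‖fderiv ℝ (Av F f) x‖ ^ 2) (mu ρ) := int_cont hρ (grad_cont hA)
    have i2 : Integrable (fun x => ‖fderiv ℝ g x‖ ^ 2) (mu ρ) := int_cont hρ (grad_cont hgc)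
    have i3 : Integrable (fun x => ‖fderiv ℝ f x‖ ^ 2) (mu ρ) := int_cont hρ (grad_cont hf)
    rw [← integral_add i1 i2]
    have h2 : ∀ x, ‖fderiv ℝ (Av F f) x‖ ^ 2 + ‖fderiv ℝ g x‖ ^ 2 =
        (‖fderiv ℝ f x‖ ^ 2 + ‖fderiv ℝ f (F x)‖ ^ 2) / 2 := by
      intro x
      have d1 := (hf.differentiable (by norm_num)) x
      have d2 := (hfF.differentiable (by norm_num)) x
      have h3 : fderiv ℝ (Av F f) x =
          (1 / 2 : ℝ) • (fderiv ℝ f x + fderiv ℝ (fun x => f (F x)) x) := by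
        have h4 : Av F f = fun x => (1 / 2 : ℝ) • (f x + f (F x)) := by
          ext x
          unfold Av
          rw [smul_eq_mul]
          ring
        rw [h4]
        exact ((d1.hasFDerivAt.add d2.hasFDerivAt).const_smul (1 / 2 : ℝ)).fderiv
      have h5 : fderiv ℝ g x =
          (1 / 2 : ℝ) • (fderiv ℝ f x - fderiv ℝ (fun x => f (F x)) x) := by
        have h4 : g = fun x => (1 / 2 : ℝ) • (f x - f (F x)) := by
          rw [hg]
          ext x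
          rw [smul_eq_mul]
          ring
        rw [h4]
        exact ((d1.hasFDerivAt.sub d2.hasFDerivAt).const_smul (1 / 2 : ℝ)).fderiv
      rw [h3, h5, par, norm_fd_comp F hf]
    simp only [h2]
    have hg2 : Continuous fun x => ‖fderiv ℝ f (F x)‖ ^ 2 :=
      (grad_cont hf).comp F.continuous
    have i4 : Integrable (fun x => ‖fderiv ℝ f (F x)‖ ^ 2) (mu ρ) := int_cont hρ hg2
    rw [integral_div, integral_add i3 i4,
      N10x.int_comp hρ.meas F hF fun x => ‖fderiv ℝ f x‖ ^ 2]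
    ring
  rw [e1, e2, mul_add]
  linarith

/-- even part under a list of involutions -/
noncomputable def fo : List (V κ ≃ₗᵢ[ℝ] V κ) → (V κ → ℝ) → (V κ → ℝ)
  | [], f => f
  | F :: t, f => Av F (fo t f)

theorem fo_cd (l : List (V κ ≃ₗᵢ[ℝ] V κ)) {f : V κ → ℝ} (hf : ContDiff ℝ 1 f) :
    ContDiff ℝ 1 (fo l f) := by
  induction l with
  | nil => exact hf
  | cons F t ih => exact av_cd F ih

theorem fo_split {ρ : V κ → ℝ} (hρ : LC ρ) (L : ℝ) (l : List (V κ ≃ₗᵢ[ℝ] V κ))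
    (hF : ∀ F ∈ l, ∀ x, ρ (F x) = ρ x) (hF2 : ∀ F ∈ l, ∀ x, F (F x) = x)
    (hodd : ∀ F ∈ l, ∀ g : V κ → ℝ, ContDiff ℝ 1 g → (∀ x, g (F x) = - g x) →
      ∫ x, g x ^ 2 ∂(mu ρ) ≤ L * ∫ x, ‖fderiv ℝ g x‖ ^ 2 ∂(mu ρ))
    (f : V κ → ℝ) (hf : ContDiff ℝ 1 f) (c : ℝ)
    (h : ∫ x, (fo l f x - c) ^ 2 ∂(mu ρ) ≤ L * ∫ x, ‖fderiv ℝ (fo l f) x‖ ^ 2 ∂(mu ρ)) :
    ∫ x, (f x - c) ^ 2 ∂(mu ρ) ≤ L * ∫ x, ‖fderiv ℝ f x‖ ^ 2 ∂(mu ρ) := by
  induction l with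
  | nil => exact h
  | cons F t ih =>
    refine ih (fun F' h' => hF F' (List.mem_cons_of_mem _ h'))
      (fun F' h' => hF2 F' (List.mem_cons_of_mem _ h'))
      (fun F' h' => hodd F' (List.mem_cons_of_mem _ h')) ?_
    exact split hρ F (hF F List.mem_cons_self) (hF2 F List.mem_cons_self) L
      (hodd F List.mem_cons_self) (fo t f) (fo_cd t hf) c h

/-- a commuting list of involutions -/
structure CI (l : List (V κ ≃ₗᵢ[ℝ] V κ)) : Prop where
  inv : ∀ F ∈ l, ∀ x, F (F x) = x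
  comm : ∀ F ∈ l, ∀ H ∈ l, ∀ x, F (H x) = H (F x)

theorem CI.tail {F : V κ ≃ₗᵢ[ℝ] V κ} {t : List (V κ ≃ₗᵢ[ℝ] V κ)} (h : CI (F :: t)) : CI t :=
  ⟨fun G hG => h.inv G (List.mem_cons_of_mem _ hG),
    fun G hG H hH => h.comm G (List.mem_cons_of_mem _ hG) H (List.mem_cons_of_mem _ hH)⟩

theorem fo_inv {l : List (V κ ≃ₗᵢ[ℝ] V κ)} (hl : CI l) (f : V κ → ℝ) :
    ∀ F ∈ l, ∀ x, fo l f (F x) = fo l f x := by
  induction l with
  | nil =>
    intro F hF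
    exact absurd hF (List.not_mem_nil)
  | cons H t ih =>
    intro F hF x
    show (fo t f (F x) + fo t f (H (F x))) / 2 = (fo t f x + fo t f (H x)) / 2
    rcases List.mem_cons.1 hF with rfl | hF'
    · rw [hl.inv F List.mem_cons_self]
      ring
    · rw [hl.comm H List.mem_cons_self F hF, ih hl.tail F hF', ih hl.tail F hF']

theorem fo_fix (l : List (V κ ≃ₗᵢ[ℝ] V κ)) (f : V κ → ℝ) (hf : ∀ F ∈ l, ∀ x, f (F x) = f x) :
    fo l f = f := by
  induction l with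
  | nil => rfl
  | cons H t ih =>
    have h1 := ih fun F hF => hf F (List.mem_cons_of_mem _ hF)
    ext x
    show (fo t f x + fo t f (H x)) / 2 = f x
    rw [h1, hf H List.mem_cons_self]
    ring

theorem av_comm (F H : V κ ≃ₗᵢ[ℝ] V κ) (h : ∀ x, F (H x) = H (F x)) (f : V κ → ℝ) :
    Av F (Av H f) = Av H (Av F f) := by
  ext x
  unfold Av
  rw [h]
  ring

theorem av_fo_comm (F : V κ ≃ₗᵢ[ℝ] V κ) (l : List (V κ ≃ₗᵢ[ℝ] V κ))
    (h : ∀ H ∈ l, ∀ x, F (H x) = H (F x)) (f : V κ → ℝ) : Av F (fo l f) = fo l (Av F f) := by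
  induction l with
  | nil => rfl
  | cons H t ih =>
    show Av F (Av H (fo t f)) = Av H (fo t (Av F f))
    rw [av_comm F H (h H List.mem_cons_self), ih fun H' h' => h H' (List.mem_cons_of_mem _ h')]

theorem fo_comm (l l' : List (V κ ≃ₗᵢ[ℝ] V κ))
    (h : ∀ F ∈ l, ∀ H ∈ l', ∀ x, F (H x) = H (F x)) (f : V κ → ℝ) :
    fo l (fo l' f) = fo l' (fo l f) := by
  induction l with
  | nil => rfl
  | cons F t ih =>
    show Av F (fo t (fo l' f)) = fo l' (Av F (fo t f))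
    rw [ih fun F' h' => h F' (List.mem_cons_of_mem _ h'),
      av_fo_comm F l' (h F List.mem_cons_self)]

/-- lists with the same members give the same even part -/
theorem fo_same {l l' : List (V κ ≃ₗᵢ[ℝ] V κ)} (hl : CI l) (hll : ∀ F, F ∈ l ↔ F ∈ l')
    (f : V κ → ℝ) : fo l f = fo l' f := by
  have hl' : CI l' := ⟨fun F hF => hl.inv F ((hll F).2 hF),
    fun F hF H hH => hl.comm F ((hll F).2 hF) H ((hll H).2 hH)⟩
  have h1 : fo l' (fo l f) = fo l f := fo_fix l' _ fun F hF => fo_inv hl f F ((hll F).2 hF)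
  have h2 : fo l (fo l' f) = fo l' f := fo_fix l _ fun F hF => fo_inv hl' f F ((hll F).1 hF)
  rw [← h1, ← fo_comm l l' (fun F hF H hH => hl.comm F hF H ((hll H).2 hH)) f, h2]

/-- conjugation -/
theorem fo_conj (σ : V κ ≃ₗᵢ[ℝ] V κ) (l : List (V κ ≃ₗᵢ[ℝ] V κ)) (f : V κ → ℝ) (x : V κ) :
    fo l f (σ x) = fo (l.map fun F => (σ.trans F).trans σ.symm) (fun x => f (σ x)) x := by
  induction l generalizing x with
  | nil => rfl
  | cons F t ih =>
    show (fo t f (σ x) + fo t f (F (σ x))) / 2 = (fo _ _ x + fo _ _ _) / 2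
    rw [← ih, ← ih]
    congr 3
    show F (σ x) = σ (σ.symm (F (σ x)))
    rw [LinearIsometryEquiv.apply_symm_apply]

/-- the even part of a symmetric function is symmetric -/
theorem fo_symm {l : List (V κ ≃ₗᵢ[ℝ] V κ)} (hl : CI l) (σ : V κ ≃ₗᵢ[ℝ] V κ)
    (h1 : ∀ F ∈ l, (σ.trans F).trans σ.symm ∈ l)
    (h2 : ∀ F ∈ l, ∃ H ∈ l, (σ.trans H).trans σ.symm = F) (f : V κ → ℝ)
    (hf : ∀ x, f (σ x) = f x) (x : V κ) : fo l f (σ x) = fo l f x := by
  rw [fo_conj]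
  have h3 : (fun x => f (σ x)) = f := funext hf
  rw [h3]
  refine (congrFun (fo_same hl (fun F => ?_) f) x).symm
  rw [List.mem_map]
  constructor
  · intro hF
    obtain ⟨H, hH, rfl⟩ := h2 F hF
    exact ⟨H, hH, rfl⟩
  · rintro ⟨H, hH, rfl⟩
    exact h1 H hH

end Pool.Agent.Q197.RG
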