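import Pool.Agent.Q197.RG.Bo
import Pool.Agent.Q197.RG.Sp
import Pool.Agent.TH597.HX.Tr1
import Pool.Agent.TH368.HX_HARDY0
import Pool.Agent.TH720.HX_SEQ0

/-!
# Arrays with sign changes: the Poincare inequality for tilted densities
-/

set_option autoImplicit false

namespace Pool.Agent.Q197.RG

open MeasureTheory Set
open scoped ENNReal InnerProductSpace
open Pool.Agent.H212R2.KLS (mu Bdd)
open Pool.Agent.H888R2.KT
open Pool.Agent.H888R2.KT.N9x
open Pool.Agent.H888R2.KT.G2x (mu_indicator integral_mu_mul mu_mono intg)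
open Pool.Agent.TH594.KP (V GD GG swp swp_apply Bs mem_Bs card_Bs_pos ev inner_ev swp_ev
  swp_single fd_iso alg_one gd_tilt tilt_st tw_cont)
open Pool.Agent.TH597.HX (dev S_HARDY0 S_SEQ0)
open Pool.Agent.TH597.HX.Loc (ee orth_ee)
open Pool.Agent.TH597.HX.Main (mu_map int_map norm_fd)

variable {ι : Type} [Fintype ι] [DecidableEq ι] {N : ℕ}

/-- change of the signs of the coordinates in `S` -/
noncomputable def fl (S : Finset ι) : V (ι × Fin 1) ≃ₗᵢ[ℝ] V (ι × Fin 1) :=
  LinearIsometryEquiv.piLpCongrRight 2 fun p : ι × Fin 1 =>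
    if p.1 ∈ S then LinearIsometryEquiv.neg ℝ else LinearIsometryEquiv.refl ℝ ℝ

theorem fl_apply (S : Finset ι) (x : V (ι × Fin 1)) (p : ι × Fin 1) :
    fl S x p = if p.1 ∈ S then - x p else x p := by
  unfold fl
  rw [LinearIsometryEquiv.piLpCongrRight_apply]
  by_cases h : p.1 ∈ S <;> simp [h]

theorem fl_fl (S : Finset ι) (x : V (ι × Fin 1)) : fl S (fl S x) = x := by
  ext p
  rw [fl_apply, fl_apply]
  by_cases h : p.1 ∈ S <;> simp [h]

theorem fl_comm (S T : Finset ι) (x : V (ι × Fin 1)) : fl S (fl T x) = fl T (fl S x) := by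
  ext p
  rw [fl_apply, fl_apply, fl_apply, fl_apply]
  by_cases h : p.1 ∈ S <;> by_cases h' : p.1 ∈ T <;> simp [h, h']

theorem swp_swp (k l : ι) (x : V (ι × Fin 1)) : swp k l (swp k l x) = x := by
  ext p
  rw [swp_apply, swp_apply]
  simp

/-- conjugation of a sign change by an exchange -/
theorem swp_fl (k l i j : ι) (x : V (ι × Fin 1)) :
    swp k l (fl {i, j} x) = fl {Equiv.swap k l i, Equiv.swap k l j} (swp k l x) := by
  ext p
  rw [swp_apply, fl_apply, fl_apply, swp_apply]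
  have h : (Equiv.swap k l p.1 ∈ ({i, j} : Finset ι)) ↔
      p.1 ∈ ({Equiv.swap k l i, Equiv.swap k l j} : Finset ι) := by
    simp only [Finset.mem_insert, Finset.mem_singleton]
    constructor
    · rintro (h | h)
      · left; rw [← h, Equiv.swap_apply_self]
      · right; rw [← h, Equiv.swap_apply_self]
    · rintro (h | h)
      · left; rw [h, Equiv.swap_apply_self]
      · right; rw [h, Equiv.swap_apply_self]
  by_cases h1 : p.1 ∈ ({Equiv.swap k l i, Equiv.swap k l j} : Finset ι)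
  · rw [if_pos h1, if_pos (h.2 h1)]
  · rw [if_neg h1, if_neg fun h2 => h1 (h.1 h2)]

variable (b : ι → Fin N) (D : Fin N → Prop)

/-- changes of two signs in a block of type `D` -/
def GF : Set (V (ι × Fin 1) ≃ₗᵢ[ℝ] V (ι × Fin 1)) :=
  {g | ∃ i j, i ≠ j ∧ b i = b j ∧ D (b i) ∧ g = fl {i, j}}

/-- exchanges in all blocks and changes of two signs in the blocks of type `D` -/
def GAD : Set (V (ι × Fin 1) ≃ₗᵢ[ℝ] V (ι × Fin 1)) := GG (Fin 1) b ∪ GF b D

variable {b D}

theorem gad_gg {ρ : V (ι × Fin 1) → ℝ} (h : GD (GAD b D) ρ) : GD (GG (Fin 1) b) ρ :=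
  ⟨h.nonneg, h.meas, h.logc, fun g hg => h.inv g (Or.inl hg)⟩

theorem inv_fl {ρ : V (ι × Fin 1) → ℝ} (h : GD (GAD b D) ρ) {i j : ι} (hij : i ≠ j)
    (hb : b i = b j) (hD : D (b i)) (x : V (ι × Fin 1)) : ρ (fl {i, j} x) = ρ x :=
  h.inv _ (Or.inr ⟨i, j, hij, hb, hD, rfl⟩) x

theorem inv_swp {ρ : V (ι × Fin 1) → ℝ} (h : GD (GAD b D) ρ) {i j : ι}
    (hb : b i = b j) (x : V (ι × Fin 1)) : ρ (swp i j x) = ρ x :=
  h.inv _ (Or.inl ⟨i, j, hb, rfl⟩) x

/-- conjugation by the change of one sign -/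
theorem conj_one {ρ : V (ι × Fin 1) → ℝ} (h : GD (GAD b D) ρ) (l : ι) (hl : D (b l)) (i j : ι)
    (hij : b i = b j) (x : V (ι × Fin 1)) : ρ (fl {l} (swp i j x)) = ρ (fl {l} x) := by
  by_cases h1 : i = l
  · subst h1
    by_cases h2 : j = i
    · subst h2
      congr 2
      ext p
      rw [swp_apply, Equiv.swap_self]
      rfl
    · have e1 : fl {i} (swp i j x) = fl {i, j} (swp i j (fl {i} x)) := by
        ext p
        rw [fl_apply, swp_apply, fl_apply, swp_apply, fl_apply]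
        by_cases h3 : p.1 = i
        · have h4 : Equiv.swap i j p.1 = j := by rw [h3, Equiv.swap_apply_left]
          simp [h3, h4, h2]
        · by_cases h5 : p.1 = j
          · have h4 : Equiv.swap i j p.1 = i := by rw [h5, Equiv.swap_apply_right]
            simp [h5, h4, h2]
          · rw [Equiv.swap_apply_of_ne_of_ne h3 h5]
            simp [h3, h5]
      rw [e1, inv_fl h (fun h3 => h2 h3.symm) hij hl, inv_swp h hij]
  · by_cases h2 : j = l
    · subst h2
      have e1 : fl {j} (swp i j x) = fl {i, j} (swp i j (fl {j} x)) := by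
        ext p
        rw [fl_apply, swp_apply, fl_apply, swp_apply, fl_apply]
        by_cases h3 : p.1 = i
        · have h4 : Equiv.swap i j p.1 = j := by rw [h3, Equiv.swap_apply_left]
          simp [h3, h4, h1]
        · by_cases h5 : p.1 = j
          · have h4 : Equiv.swap i j p.1 = i := by rw [h5, Equiv.swap_apply_right]
            simp [h5, h4, h1]
          · rw [Equiv.swap_apply_of_ne_of_ne h3 h5]
            simp [h3, h5]
      rw [e1, inv_fl h h1 hij (by rw [hij]; exact hl), inv_swp h hij]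
    · have e1 : fl {l} (swp i j x) = swp i j (fl {l} x) := by
        ext p
        rw [fl_apply, swp_apply, swp_apply, fl_apply]
        by_cases h3 : p.1 = i
        · have h4 : Equiv.swap i j p.1 = j := by rw [h3, Equiv.swap_apply_left]
          simp [h3, h4, h1, h2]
        · by_cases h5 : p.1 = j
          · have h4 : Equiv.swap i j p.1 = i := by rw [h5, Equiv.swap_apply_right]
            simp [h5, h4, h1, h2]
          · rw [Equiv.swap_apply_of_ne_of_ne h3 h5]
      rw [e1, inv_swp h hij]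

/-- sum of the absolute values in a block -/
noncomputable def ab (b : ι → Fin N) (s : Fin N) (x : V (ι × Fin 1)) : ℝ :=
  ∑ i ∈ Bs b s, |x (i, 0)|

theorem ab_fl (s : Fin N) (S : Finset ι) (x : V (ι × Fin 1)) : ab b s (fl S x) = ab b s x := by
  unfold ab
  refine Finset.sum_congr rfl fun i _ => ?_
  rw [fl_apply]
  by_cases h : i ∈ S <;> simp [h]

theorem dev_le_ab (s : Fin N) (x : V (ι × Fin 1)) :
    dev b s x ≤ 2 * (Bs b s).card * ab b s x := by
  unfold dev ab
  calc ∑ i ∈ Bs b s, ∑ j ∈ Bs b s, |x (i, 0) - x (j, 0)|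
      ≤ ∑ i ∈ Bs b s, ∑ j ∈ Bs b s, (|x (i, 0)| + |x (j, 0)|) :=
        Finset.sum_le_sum fun i _ => Finset.sum_le_sum fun j _ => abs_sub _ _
    _ = _ := by
        simp only [Finset.sum_add_distrib, Finset.sum_const, nsmul_eq_mul, ← Finset.mul_sum]
        ring

/-- the support conditions -/
def Sup (b : ι → Fin N) (D : Fin N → Prop) (a : ℝ) (ρ : V (ι × Fin 1) → ℝ) : Prop :=
  ∀ x, ρ x ≠ 0 → (∀ s, ¬ D s → dev b s x ≤ a * ((Bs b s).card : ℝ) ^ 2) ∧
    ∀ s, D s → 2 * ab b s x ≤ a * (Bs b s).card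

theorem sup_dev {a : ℝ} {ρ : V (ι × Fin 1) → ℝ} (h : Sup b D a ρ) (x : V (ι × Fin 1))
    (hx : ρ x ≠ 0) (s : Fin N) : dev b s x ≤ a * ((Bs b s).card : ℝ) ^ 2 := by
  by_cases hs : D s
  · have h1 := (h x hx).2 s hs
    have h2 := dev_le_ab (b := b) s x
    have h3 : (0 : ℝ) ≤ (Bs b s).card := Nat.cast_nonneg _
    calc dev b s x ≤ 2 * (Bs b s).card * ab b s x := h2
      _ = (Bs b s).card * (2 * ab b s x) := by ring
      _ ≤ (Bs b s).card * (a * (Bs b s).card) := mul_le_mul_of_nonneg_left h1 h3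
      _ = _ := by ring
  · exact (h x hx).1 s hs

/-- Hardy inequality for functions odd under a sign change of two coordinates -/
theorem odd_flip {C : ℝ} (hC : 0 < C) (hH : ∀ {ι β : Type} [Fintype ι] [DecidableEq ι] [Fintype β]
    [DecidableEq β] {b : ι → β} {ρ : V (ι × Fin 1) → ℝ}, GD (GG (Fin 1) b) ρ →
    LC ρ → ∀ a : ℝ, 0 < a → ∀ k l : ι, k ≠ l → b k = b l →
    (∀ x, ρ x ≠ 0 → dev b (b k) x ≤ a * ((Bs b (b k)).card : ℝ) ^ 2) →
    ∀ f : V (ι × Fin 1) → ℝ, ContDiff ℝ 1 f → (∀ x, f (swp k l x) = - f x) →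
    ∫ x, f x ^ 2 ∂(mu ρ) ≤ C * a ^ 2 * ∫ x, ‖fderiv ℝ f x‖ ^ 2 ∂(mu ρ))
    {ρ : V (ι × Fin 1) → ℝ} (hρ : GD (GAD b D) ρ) (hL : LC ρ) {a : ℝ} (ha : 0 < a)
    (hs : Sup b D a ρ) {k l : ι} (hkl : k ≠ l) (hb : b k = b l) (hD : D (b k))
    (f : V (ι × Fin 1) → ℝ) (hf : ContDiff ℝ 1 f) (ho : ∀ x, f (fl {k, l} x) = - f x) :
    ∫ x, f x ^ 2 ∂(mu ρ) ≤ C * a ^ 2 * ∫ x, ‖fderiv ℝ f x‖ ^ 2 ∂(mu ρ) := by
  have hDl : D (b l) := by rw [← hb]; exact hD
  have h1 : ∀ g : V (ι × Fin 1) → ℝ, ContDiff ℝ 1 g → (∀ x, g (swp k l x) = - g x) →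
      ∫ x, g x ^ 2 ∂(mu ρ) ≤ C * a ^ 2 * ∫ x, ‖fderiv ℝ g x‖ ^ 2 ∂(mu ρ) := fun g hg ho =>
    hH (gad_gg hρ) hL a ha k l hkl hb (fun x hx => sup_dev hs x hx (b k)) g hg ho
  have h2 := split hL (swp k l) (fun x => inv_swp hρ hb x) (swp_swp k l) (C * a ^ 2) h1 f hf 0
  simp only [sub_zero] at h2
  refine h2 ?_
  -- the even part is odd under the other reflection
  obtain ⟨g, hg⟩ : ∃ g : V (ι × Fin 1) → ℝ, g = Av (swp k l) f := ⟨_, rfl⟩
  have hgc : ContDiff ℝ 1 g := by rw [hg]; exact av_cd _ hf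
  rw [← hg]
  have hcm : ∀ x : V (ι × Fin 1), swp k l (fl {k, l} x) = fl {k, l} (swp k l x) := by
    intro x
    rw [swp_fl, Equiv.swap_apply_left, Equiv.swap_apply_right, Finset.pair_comm]
  have hg2 : ∀ x, g (fl {k, l} (swp k l x)) = - g x := by
    intro x
    rw [hg]
    unfold Av
    rw [hcm, ho, swp_swp, ho]
    ring
  have hGD : GD (GG (Fin 1) b) (fun x => ρ (fl {l} x)) := by
    refine ⟨fun x => hρ.nonneg _, hρ.meas.comp (fl {l}).continuous.measurable, ?_, ?_⟩
    · intro x y t h0 h1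
      have h3 := hρ.logc (fl {l} x) (fl {l} y) t h0 h1
      rw [← map_smul, ← map_smul, ← map_add] at h3
      exact h3
    · rintro _ ⟨i, j, hij, rfl⟩ x
      exact conj_one hρ l hDl i j hij x
  have h3 := hH hGD (Pool.Agent.TH597.HX.Tr.trans_lc (fl {l}) ρ hL) a ha k l hkl hb
    (fun x hx => by
      have h4 := (hs _ hx).2 (b k) hD
      rw [ab_fl] at h4
      have h5 := dev_le_ab (b := b) (b k) x
      have h6 : (0 : ℝ) ≤ (Bs b (b k)).card := Nat.cast_nonneg _
      calc dev b (b k) x ≤ 2 * (Bs b (b k)).card * ab b (b k) x := h5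
        _ = (Bs b (b k)).card * (2 * ab b (b k) x) := by ring
        _ ≤ (Bs b (b k)).card * (a * (Bs b (b k)).card) := mul_le_mul_of_nonneg_left h4 h6
        _ = _ := by ring) (fun x => g (fl {l} x)) (hgc.comp (fl {l}).contDiff) (fun x => by
      have e1 : fl {l} (swp k l x) = fl {k, l} (swp k l (fl {l} x)) := by
        ext p
        rw [fl_apply, swp_apply, fl_apply, swp_apply, fl_apply]
        by_cases h3 : p.1 = k
        · have h4 : Equiv.swap k l p.1 = l := by rw [h3, Equiv.swap_apply_left]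
          simp [h3, h4, hkl]
        · by_cases h5 : p.1 = l
          · have h4 : Equiv.swap k l p.1 = k := by rw [h5, Equiv.swap_apply_right]
            simp [h5, h4, hkl]
          · rw [Equiv.swap_apply_of_ne_of_ne h3 h5]
            simp [h3, h5]
      rw [e1, hg2])
  rw [int_map (fl {l}) ρ hρ.meas fun x => g x ^ 2,
    int_map (fl {l}) ρ hρ.meas fun x => ‖fderiv ℝ g x‖ ^ 2]
  refine h3.trans (le_of_eq ?_)
  congr 1
  refine integral_congr_ae (ae_of_all _ fun x => ?_)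
  simp only
  rw [norm_fd (fl {l}) g hgc]

end Pool.Agent.Q197.RG
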