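import Pool.Agent.Q197.RG.Mes

/-!
# Local Poincare inequality
-/

set_option autoImplicit false

namespace Pool.Agent.Q197.RG

open MeasureTheory Set
open scoped ENNReal InnerProductSpace
open Pool.Agent.H212R2.KLS (mu Bdd)
open Pool.Agent.H888R2.KT (LC St tw)
open Pool.Agent.H888R2.KT.G2x (mu_indicator integral_mu_mul mu_mono intg)
open Pool.Agent.TH594.KP (V GD GG swp Bs mem_Bs card_Bs_pos ev swp_apply inner_ev gd_indicator
  tw_cont gd_smul)
open Pool.Agent.TH597.HX (dev)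
open Pool.Agent.TH597.HX.Loc (ee)
open Pool.Agent.Q197.RA (Sx cb cb_closed cb_convex cb_meas cb_bdd cb_lt_top cb_pos refl_u int_mu Dv
  ind_int_pos)

variable {κ ι ν : Type} [Fintype κ] [Fintype ι] [DecidableEq ι] [Fintype ν] [DecidableEq ν]
  {n q r : ℕ}
variable {b : ι → Fin n} {u : ι → V κ} {e : Fin q → V κ} {d : ν → Fin r} {v : ν → V κ}

/-- sum of the absolute values of the coordinates of a block -/
noncomputable def Aw (d : ν → Fin r) (v : ν → V κ) (t : Fin r) (x : V κ) : ℝ :=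
  ∑ i ∈ Bs d t, |⟪v i, x⟫_ℝ|

section ctx

variable (hb : Function.Surjective b) (hu : Sx b u) (he : Ox u (Sum.elim e v))

theorem dev_l (s : Fin n) (y : V ((ι ⊕ (Fin q ⊕ ν)) × Fin 1)) :
    dev (BB q b d) (Fin.castAdd (q + r) s) y = Dv b u s (A hb hu he y) := by
  unfold dev Dv
  simp only [Bs_inl, Finset.sum_map, Function.Embedding.coeFn_mk]
  refine Finset.sum_congr rfl fun i hi => Finset.sum_congr rfl fun j hj => ?_
  rw [coord_inl hb hu he, coord_inl hb hu he, (mem_Bs b s i).1 hi, (mem_Bs b s j).1 hj]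
  congr 1
  ring

theorem dev_m (l : Fin q) (y : V ((ι ⊕ (Fin q ⊕ ν)) × Fin 1)) :
    dev (BB q b d) (Fin.natAdd n (Fin.castAdd r l)) y = 0 := by
  unfold dev
  rw [Bs_inr, Bs_m, Finset.map_singleton]
  simp

theorem ab_r (t : Fin r) (y : V ((ι ⊕ (Fin q ⊕ ν)) × Fin 1)) :
    ab (BB q b d) (Fin.natAdd n (Fin.natAdd q t)) y = Aw d v t (A hb hu he y) := by
  unfold ab Aw
  rw [Bs_inr, Bs_r, Finset.sum_map, Finset.sum_map]
  refine Finset.sum_congr rfl fun i _ => ?_
  simp only [Function.Embedding.coeFn_mk]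
  rw [coord_v hb hu he]

/-- the tilt of the extended space -/
theorem tw_ext (K : ℝ) (τ : V (Fin q)) (y : V ((ι ⊕ (Fin q ⊕ ν)) × Fin 1)) :
    tw (fun j => ee (BB q b d) (psi n q r j)) K
      (WithLp.toLp 2 (Fin.append (0 : Fin n → ℝ) τ)) y =
      tw e K τ (A hb hu he y) * Real.exp (-((∑ s, T hb hu he y s ^ 2) / (2 * K))) := by
  unfold tw
  rw [← Real.exp_add, Fin.sum_univ_add]
  have h1 : ∀ s : Fin n, ⟪ee (BB q b d) (psi n q r (Fin.castAdd q s)), y⟫_ℝ =
      T hb hu he y s := fun s => by rw [psi_l, ee_inl hb hu he]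
  have h2 : ∀ l : Fin q, ⟪ee (BB q b d) (psi n q r (Fin.natAdd n l)), y⟫_ℝ =
      ⟪e l, A hb hu he y⟫_ℝ := fun l => by
    rw [psi_r, ee_inr hb hu he _ _ (Bs_m l)]
    rfl
  simp only [h1, h2, Fin.append_left, Fin.append_right, Pi.zero_apply, sub_zero]
  congr 1
  ring

end ctx

/-- the support condition -/
def Su (b : ι → Fin n) (u : ι → V κ) (d : ν → Fin r) (v : ν → V κ) (a : ℝ) (x : V κ) : Prop :=
  (∀ s, Dv b u s x ≤ a * ((Bs b s).card : ℝ) ^ 2) ∧ ∀ t, 2 * Aw d v t x ≤ a * (Bs d t).card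

/-- the local Poincare inequality with a Gaussian tilt in the directions of the fixed space -/
theorem loc1 : ∃ C : ℝ, 0 < C ∧ ∀ {κ ι ν : Type} [Fintype κ] [Fintype ι] [DecidableEq ι]
    [Fintype ν] [DecidableEq ν] {n q r : ℕ}
    {b : ι → Fin n} {u : ι → V κ} {e : Fin q → V κ} {d : ν → Fin r} {v : ν → V κ},
    Function.Surjective b → Function.Surjective d → (∀ t, 2 ≤ (Bs d t).card) → Sx b u →
    Ox u (Sum.elim e v) →
    ∀ ρ : V κ → ℝ, GD (GR b u d v) ρ → LC ρ → ∀ a : ℝ, 0 < a →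
    (∀ x, ρ x ≠ 0 → Su b u d v a x) →
    ∀ K : ℝ, 0 < K → C * a ^ 2 ≤ K → ∀ (τ : V (Fin q)) (f : V κ → ℝ), ContDiff ℝ 1 f →
    ∃ c : ℝ, ∫ x, (f x - c) ^ 2 * tw e K τ x ∂(mu ρ) ≤
      5 * K * ∫ x, ‖fderiv ℝ f x‖ ^ 2 * tw e K τ x ∂(mu ρ) := by
  obtain ⟨C, hC, H⟩ := inner_ad
  refine ⟨C, hC, ?_⟩
  intro κ ι ν _ _ _ _ _ n q r b u e d v hb hd hd2 hu he ρ hρ hL a ha hsupp K hK hCK τ f hf
  have h2 : ∀ s, DD n q r s → 2 ≤ (Bs (BB q b d) s).card := by
    intro s hs
    obtain ⟨p, hp⟩ := BB_surj (q := q) hb hd s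
    rw [← hp] at hs
    obtain ⟨l, rfl⟩ := dd_elem hs
    rw [← hp]
    show 2 ≤ (Bs (BB q b d) (Fin.natAdd n (Fin.natAdd q (d l)))).card
    rw [card_r]
    exact hd2 _
  obtain ⟨c, hc⟩ := H (BB_surj (q := q) hb hd) h2 (en_psi (n := n) (q := q) (r := r))
    (ex hb hu he 1 ρ) (gd_ex hb hu he hρ 1)
    (lc_ex hb hu he hρ hL one_pos) a ha (by
      intro y hy
      have h1 : ρ (A hb hu he y) ≠ 0 := by
        intro h2
        refine hy ?_
        unfold ex
        by_cases h : T hb hu he y ∈ cb n 1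
        · rw [indicator_of_mem (show y ∈ {y | T hb hu he y ∈ cb n 1} from h)]
          exact h2
        · rw [indicator_of_notMem (show y ∉ {y | T hb hu he y ∈ cb n 1} from h)]
      constructor
      · intro j hj
        refine Fin.addCases (fun s => ?_) (fun l => ?_) j (motive := fun j =>
          ¬ DD n q r j → dev (BB q b d) j y ≤ a * ((Bs (BB q b d) j).card : ℝ) ^ 2) hj
        · intro _
          rw [dev_l hb hu he, card_l]
          exact (hsupp _ h1).1 s
        · refine Fin.addCases (fun l' => ?_) (fun t => ?_) l (motive := fun l =>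
            ¬ DD n q r (Fin.natAdd n l) → dev (BB q b d) (Fin.natAdd n l) y ≤
              a * ((Bs (BB q b d) (Fin.natAdd n l)).card : ℝ) ^ 2)
          · intro _
            rw [dev_m, card_m]
            positivity
          · intro h
            exact absurd (dd_r t) h
      · intro j hj
        obtain ⟨p, hp⟩ := BB_surj (q := q) hb hd j
        rw [← hp] at hj
        obtain ⟨l, rfl⟩ := dd_elem hj
        have e1 : j = Fin.natAdd n (Fin.natAdd q (d l)) := hp.symm
        rw [e1, ab_r hb hu he, card_r]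
        exact (hsupp _ h1).2 _) K hK hCK (WithLp.toLp 2 (Fin.append (0 : Fin n → ℝ) τ))
    (fun y => f (A hb hu he y)) (hf.comp (A hb hu he).contDiff)
  refine ⟨c, ?_⟩
  have hG := gd_ex hb hu he hρ 1
  have hLC := lc_ex hb hu he hρ hL one_pos
  obtain ⟨W, hW⟩ : ∃ W : V (Fin n) → ℝ, W = fun t => Real.exp (-((∑ s, t s ^ 2) / (2 * K))) :=
    ⟨_, rfl⟩
  have hWc : Continuous W := by rw [hW]; fun_prop
  have hW0 : ∀ t, 0 < W t := fun t => by rw [hW]; exact Real.exp_pos _
  have hWT : ∀ y, Real.exp (-((∑ s, T hb hu he y s ^ 2) / (2 * K))) = W (T hb hu he y) := by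
    intro y
    rw [hW]
  have hI := ind_int_pos n (δ := 1) one_pos W hWc hW0
  have e1 : ∫ y, (f (A hb hu he y) - c) ^ 2 *
      tw (fun j => ee (BB q b d) (psi n q r j)) K (WithLp.toLp 2 (Fin.append (0 : Fin n → ℝ) τ)) y
      ∂(mu (ex hb hu he 1 ρ)) = (∫ x, (f x - c) ^ 2 * tw e K τ x ∂(mu ρ)) *
      ∫ t, (cb n 1).indicator W t := by
    rw [← int_ex hb hu he hρ 1 (fun x => (f x - c) ^ 2 * tw e K τ x) W]
    refine integral_congr_ae (ae_of_all _ fun y => ?_)
    simp only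
    rw [tw_ext hb hu he, hWT]
    ring
  have e2 : ∫ y, ‖fderiv ℝ (fun y => f (A hb hu he y)) y‖ ^ 2 *
      tw (fun j => ee (BB q b d) (psi n q r j)) K (WithLp.toLp 2 (Fin.append (0 : Fin n → ℝ) τ)) y
      ∂(mu (ex hb hu he 1 ρ)) ≤ (∫ x, ‖fderiv ℝ f x‖ ^ 2 * tw e K τ x ∂(mu ρ)) *
      ∫ t, (cb n 1).indicator W t := by
    rw [← int_ex hb hu he hρ 1 (fun x => ‖fderiv ℝ f x‖ ^ 2 * tw e K τ x) W]
    have hfi : IsFiniteMeasure (mu (ex hb hu he 1 ρ)) := ⟨lt_top_iff_ne_top.2 hLC.fin⟩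
    have hball := Pool.Agent.Q197.RA.ball hG.meas hLC.bdd
    have hfd : Continuous (fderiv ℝ f) := hf.continuous_fderiv (by norm_num)
    have hfa : ContDiff ℝ 1 (fun y => f (A hb hu he y)) := hf.comp (A hb hu he).contDiff
    have hfda : Continuous (fderiv ℝ (fun y => f (A hb hu he y))) :=
      hfa.continuous_fderiv (by norm_num)
    refine integral_mono (intg _ hball _ ?_) (intg _ hball _ ?_) fun y => ?_
    · exact (hfda.norm.pow 2).mul (tw_cont _ K _)
    · exact ((((hfd.comp (A hb hu he).continuous).norm).pow 2).mul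
        ((tw_cont e K τ).comp (A hb hu he).continuous)).mul (hWc.comp (T hb hu he).continuous)
    · simp only
      rw [tw_ext hb hu he, hWT, mul_assoc]
      refine mul_le_mul_of_nonneg_right ?_ (mul_nonneg (Real.exp_pos _).le (hW0 _).le)
      have h1 : fderiv ℝ (fun y => f (A hb hu he y)) y =
          (fderiv ℝ f (A hb hu he y)).comp (A hb hu he) := by
        have h2 := ((hf.differentiable (by norm_num)).differentiableAt
          (x := A hb hu he y)).hasFDerivAt.comp y (A hb hu he).hasFDerivAt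
        exact h2.fderiv
      rw [h1]
      refine pow_le_pow_left₀ (norm_nonneg _) ?_ 2
      refine (ContinuousLinearMap.opNorm_comp_le _ _).trans ?_
      have h3 := norm_A_le hb hu he
      exact mul_le_of_le_one_right (norm_nonneg _) h3
  rw [e1] at hc
  have h3 := hc.trans (mul_le_mul_of_nonneg_left e2 (by positivity : (0:ℝ) ≤ 5 * K))
  rw [← mul_assoc] at h3
  exact le_of_mul_le_mul_right h3 hI

end Pool.Agent.Q197.RG
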