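import Pool.Agent.Q197.RG.Ext

/-!
# The extended density

The symmetries: exchanges of two vertices `u k`, `u l` of one of the simplices (type `A`), exchanges of
two vectors `v k`, `v l` or of `v k` and `-v l` of one block of an orthonormal system (type `D`).
-/

set_option autoImplicit false

namespace Pool.Agent.Q197.RG

open MeasureTheory Set
open scoped ENNReal InnerProductSpace
open Pool.Agent.H212R2.KLS (mu Bdd)
open Pool.Agent.H888R2.KT (LC St tw)
open Pool.Agent.H888R2.KT.G2x (mu_indicator integral_mu_mul mu_mono intg)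
open Pool.Agent.TH594.KP (V GD GG swp Bs mem_Bs card_Bs_pos ev swp_apply inner_ev gd_indicator)
open Pool.Agent.TH597.HX (dev)
open Pool.Agent.TH597.HX.Loc (ee)
open Pool.Agent.Q197.RA (Sx cb cb_closed cb_convex cb_meas cb_bdd cb_lt_top cb_pos refl_u int_mu)

variable {κ ι ν : Type} [Fintype κ] [Fintype ι] [DecidableEq ι] [Fintype ν] [DecidableEq ν]
  {n q r : ℕ}
variable {b : ι → Fin n} {u : ι → V κ} {e : Fin q → V κ} {d : ν → Fin r} {v : ν → V κ}

/-- the blocks of type `D` -/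
def DD (n q r : ℕ) : Fin (n + (q + r)) → Prop :=
  Fin.addCases (fun _ => False) (Fin.addCases (fun _ => False) (fun _ => True))

theorem dd_l (s : Fin n) : ¬ DD n q r (Fin.castAdd (q + r) s) := by
  unfold DD
  rw [Fin.addCases_left]
  exact id

theorem dd_m (l : Fin q) : ¬ DD n q r (Fin.natAdd n (Fin.castAdd r l)) := by
  unfold DD
  rw [Fin.addCases_right, Fin.addCases_left]
  exact id

theorem dd_r (t : Fin r) : DD n q r (Fin.natAdd n (Fin.natAdd q t)) := by
  unfold DD
  rw [Fin.addCases_right, Fin.addCases_right]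
  trivial

/-- the other blocks -/
def psi (n q r : ℕ) : Fin (n + q) → Fin (n + (q + r)) :=
  Fin.addCases (fun s => Fin.castAdd (q + r) s) (fun l => Fin.natAdd n (Fin.castAdd r l))

theorem psi_l (s : Fin n) : psi n q r (Fin.castAdd q s) = Fin.castAdd (q + r) s := by
  unfold psi
  rw [Fin.addCases_left]

theorem psi_r (l : Fin q) : psi n q r (Fin.natAdd n l) = Fin.natAdd n (Fin.castAdd r l) := by
  unfold psi
  rw [Fin.addCases_right]

theorem en_psi : En (DD n q r) (psi n q r) where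
  inj := by
    intro i j h
    refine Fin.addCases (fun s => ?_) (fun l => ?_) i (motive := fun i => psi n q r i = psi n q r j → i = j) h
    · refine Fin.addCases (fun s' => ?_) (fun l' => ?_) j
        (motive := fun j => psi n q r (Fin.castAdd q s) = psi n q r j → Fin.castAdd q s = j)
      · intro h
        rw [psi_l, psi_l] at h
        rw [Fin.castAdd_injective _ _ h]
      · intro h
        rw [psi_l, psi_r] at h
        exact absurd h (cast_ne_nat _ _)
    · refine Fin.addCases (fun s' => ?_) (fun l' => ?_) j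
        (motive := fun j => psi n q r (Fin.natAdd n l) = psi n q r j → Fin.natAdd n l = j)
      · intro h
        rw [psi_l, psi_r] at h
        exact absurd h.symm (cast_ne_nat _ _)
      · intro h
        rw [psi_r, psi_r] at h
        rw [Fin.castAdd_injective _ _ (Fin.natAdd_injective _ _ h)]
  mem s := by
    refine Fin.addCases (fun s' => ?_) (fun l => ?_) s
    · exact ⟨fun _ => ⟨Fin.castAdd q s', psi_l s'⟩, fun _ => dd_l s'⟩
    · refine Fin.addCases (fun l' => ?_) (fun t => ?_) l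
      · exact ⟨fun _ => ⟨Fin.natAdd n l', psi_r l'⟩, fun _ => dd_m l'⟩
      · refine ⟨fun h => absurd (dd_r t) h, ?_⟩
        rintro ⟨j, hj⟩
        refine Fin.addCases (fun s' => ?_) (fun l' => ?_) j
          (motive := fun j => psi n q r j = Fin.natAdd n (Fin.natAdd q t) →
            ¬ DD n q r (Fin.natAdd n (Fin.natAdd q t))) hj
        · intro h
          rw [psi_l] at h
          exact absurd h (cast_ne_nat _ _)
        · intro h
          rw [psi_r] at h
          exact absurd (Fin.natAdd_injective _ _ h) (cast_ne_nat _ _)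

/-- the blocks of the complement -/
abbrev cc (q : ℕ) (d : ν → Fin r) : Fin q ⊕ ν → Fin (q + r) := bb (id : Fin q → Fin q) d

/-- all blocks -/
abbrev BB (q : ℕ) (b : ι → Fin n) (d : ν → Fin r) : ι ⊕ (Fin q ⊕ ν) → Fin (n + (q + r)) :=
  bb b (cc q d)

theorem BB_surj (hb : Function.Surjective b) (hd : Function.Surjective d) :
    Function.Surjective (BB q b d) := bb_surj hb (bb_surj Function.surjective_id hd)

theorem Bs_id (l : Fin q) : Bs (id : Fin q → Fin q) l = {l} := by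
  ext i
  rw [mem_Bs, Finset.mem_singleton]
  rfl

theorem Bs_m (l : Fin q) : Bs (cc q d) (Fin.castAdd r l) = {Sum.inl l} := by
  rw [Bs_inl, Bs_id, Finset.map_singleton]
  rfl

theorem Bs_r (t : Fin r) :
    Bs (cc q d) (Fin.natAdd q t) = (Bs d t).map ⟨Sum.inr, Sum.inr_injective⟩ := Bs_inr t

theorem card_l (s : Fin n) : (Bs (BB q b d) (Fin.castAdd (q + r) s)).card = (Bs b s).card :=
  card_inl s

theorem card_m (l : Fin q) : (Bs (BB q b d) (Fin.natAdd n (Fin.castAdd r l))).card = 1 := by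
  rw [card_inr, Bs_m, Finset.card_singleton]

theorem card_r (t : Fin r) :
    (Bs (BB q b d) (Fin.natAdd n (Fin.natAdd q t))).card = (Bs d t).card := by
  rw [card_inr, Bs_r, Finset.card_map]

/-- elements of blocks of type `D` -/
theorem dd_elem {p : ι ⊕ (Fin q ⊕ ν)} (h : DD n q r (BB q b d p)) : ∃ l, p = Sum.inr (Sum.inr l) := by
  rcases p with i | (m | l)
  · exact absurd h (dd_l _)
  · exact absurd h (dd_m _)
  · exact ⟨l, rfl⟩

theorem BB_inr (k l : ν) : BB q b d (Sum.inr (Sum.inr k)) = BB q b d (Sum.inr (Sum.inr l)) ↔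
    d k = d l := by
  rw [bb_inr, bb_inr]

/-- all symmetries of the extended space -/
theorem gad_cases {g : V ((ι ⊕ (Fin q ⊕ ν)) × Fin 1) ≃ₗᵢ[ℝ] V ((ι ⊕ (Fin q ⊕ ν)) × Fin 1)}
    (hg : g ∈ GAD (BB q b d) (DD n q r)) : (∀ y, g y = y) ∨
    (∃ k l : ι, b k = b l ∧ g = swp (δ := Fin 1) (Sum.inl k) (Sum.inl l)) ∨
    (∃ k l : ν, k ≠ l ∧ d k = d l ∧
      g = swp (δ := Fin 1) (Sum.inr (Sum.inr k)) (Sum.inr (Sum.inr l))) ∨
    (∃ k l : ν, k ≠ l ∧ d k = d l ∧ g = fl {Sum.inr (Sum.inr k), Sum.inr (Sum.inr l)}) := by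
  rcases hg with ⟨k, l, hkl, rfl⟩ | ⟨i, j, hij, h1, h2, rfl⟩
  · by_cases h0 : k = l
    · left
      intro y
      rw [h0]
      ext p
      rw [swp_apply, Equiv.swap_self]
      rfl
    rcases k with k | (k | k)
    · rcases l with l | l
      · exact Or.inr (Or.inl ⟨k, l, (bb_inl k l).1 hkl, rfl⟩)
      · exact absurd hkl (bb_inl_inr k l)
    · rcases l with l | (l | l)
      · exact absurd hkl.symm (bb_inl_inr l _)
      · have h3 := (bb_inr _ _).1 hkl
        have h4 := (bb_inl _ _).1 h3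
        exact absurd (by rw [show k = l from h4]) h0
      · have h3 := (bb_inr _ _).1 hkl
        exact absurd h3 (bb_inl_inr k l)
    · rcases l with l | (l | l)
      · exact absurd hkl.symm (bb_inl_inr l _)
      · have h3 := (bb_inr _ _).1 hkl
        exact absurd h3.symm (bb_inl_inr l k)
      · refine Or.inr (Or.inr (Or.inl ⟨k, l, fun h => h0 (by rw [h]), (BB_inr k l).1 hkl, rfl⟩))
  · obtain ⟨k, rfl⟩ := dd_elem h2
    rw [h1] at h2
    obtain ⟨l, rfl⟩ := dd_elem h2
    exact Or.inr (Or.inr (Or.inr ⟨k, l, fun h => hij (by rw [h]), (BB_inr k l).1 h1, rfl⟩))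

variable (b u d v) in
/-- the reflections -/
def GR : Set (V κ ≃ₗᵢ[ℝ] V κ) :=
  {g | (∃ k l, b k = b l ∧ ∀ x, g x = x - ⟪u k - u l, x⟫_ℝ • (u k - u l)) ∨
    (∃ k l, d k = d l ∧ ∀ x, g x = x - ⟪v k - v l, x⟫_ℝ • (v k - v l)) ∨
    (∃ k l, k ≠ l ∧ d k = d l ∧ ∀ x, g x = x - ⟪v k + v l, x⟫_ℝ • (v k + v l))}

/-- reflections -/
theorem ex_refl (w : V κ) (hw : ‖w‖ ^ 2 = 2 ∨ w = 0) :
    ∃ g : V κ ≃ₗᵢ[ℝ] V κ, ∀ x, g x = x - ⟪w, x⟫_ℝ • w := by
  rcases hw with hw | hw
  · refine ⟨(ℝ ∙ w)ᗮ.reflection, fun x => ?_⟩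
    rw [Submodule.reflection_orthogonal_apply, Submodule.reflection_singleton_apply]
    have h3 : ((‖w‖ : ℝ)) ^ 2 = 2 := hw
    simp only [RCLike.ofReal_real_eq_id, id_eq, h3]
    rw [neg_sub, ← smul_assoc]
    congr 2
    rw [nsmul_eq_mul]
    push_cast
    ring
  · exact ⟨LinearIsometryEquiv.refl ℝ _, fun x => by simp [hw]⟩

theorem orth_v (he : Ox u (Sum.elim e v)) (k l : ν) : ⟪v k, v l⟫_ℝ = if k = l then 1 else 0 := by
  have h := orthonormal_iff_ite.1 he.orth (Sum.inr k) (Sum.inr l)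
  simpa using h

theorem orth_ev (he : Ox u (Sum.elim e v)) (m : Fin q) (l : ν) : ⟪e m, v l⟫_ℝ = 0 := by
  have h := orthonormal_iff_ite.1 he.orth (Sum.inl m) (Sum.inr l)
  simpa using h

theorem orth_e (he : Ox u (Sum.elim e v)) : Orthonormal ℝ e :=
  he.orth.comp Sum.inl Sum.inl_injective

theorem orth_ue (he : Ox u (Sum.elim e v)) (i : ι) (m : Fin q) : ⟪u i, e m⟫_ℝ = 0 :=
  he.perp i (Sum.inl m)

theorem orth_uv (he : Ox u (Sum.elim e v)) (i : ι) (l : ν) : ⟪u i, v l⟫_ℝ = 0 :=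
  he.perp i (Sum.inr l)

theorem norm_vsub (he : Ox u (Sum.elim e v)) (k l : ν) :
    ‖v k - v l‖ ^ 2 = 2 ∨ v k - v l = 0 := by
  by_cases h : k = l
  · right
    rw [h, sub_self]
  · left
    have h' : ¬ l = k := fun h2 => h h2.symm
    rw [← real_inner_self_eq_norm_sq, inner_sub_left, inner_sub_right, inner_sub_right,
      orth_v he, orth_v he, orth_v he, orth_v he]
    simp [h, h']
    norm_num

theorem norm_vadd (he : Ox u (Sum.elim e v)) (k l : ν) (h : k ≠ l) :
    ‖v k + v l‖ ^ 2 = 2 ∨ v k + v l = 0 := by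
  left
  have h' : ¬ l = k := fun h2 => h h2.symm
  rw [← real_inner_self_eq_norm_sq, inner_add_left, inner_add_right, inner_add_right,
    orth_v he, orth_v he, orth_v he, orth_v he]
  simp [h, h']
  norm_num

theorem inv_u (hu : Sx b u) {ρ : V κ → ℝ} (hρ : GD (GR b u d v) ρ) (k l : ι) (hkl : b k = b l)
    (x : V κ) : ρ (x - ⟪u k - u l, x⟫_ℝ • (u k - u l)) = ρ x := by
  obtain ⟨g, -, hgx⟩ := Pool.Agent.Q197.RA.ex_g hu k l hkl
  rw [← hgx]
  exact hρ.inv g (Or.inl ⟨k, l, hkl, hgx⟩) x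

theorem inv_vs (he : Ox u (Sum.elim e v)) {ρ : V κ → ℝ} (hρ : GD (GR b u d v) ρ) (k l : ν)
    (hkl : d k = d l) (x : V κ) : ρ (x - ⟪v k - v l, x⟫_ℝ • (v k - v l)) = ρ x := by
  obtain ⟨g, hgx⟩ := ex_refl (v k - v l) (norm_vsub he k l)
  rw [← hgx]
  exact hρ.inv g (Or.inr (Or.inl ⟨k, l, hkl, hgx⟩)) x

theorem inv_va (he : Ox u (Sum.elim e v)) {ρ : V κ → ℝ} (hρ : GD (GR b u d v) ρ) (k l : ν)
    (h : k ≠ l) (hkl : d k = d l) (x : V κ) :
    ρ (x - ⟪v k + v l, x⟫_ℝ • (v k + v l)) = ρ x := by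
  obtain ⟨g, hgx⟩ := ex_refl (v k + v l) (norm_vadd he k l h)
  rw [← hgx]
  exact hρ.inv g (Or.inr (Or.inr ⟨k, l, h, hkl, hgx⟩)) x

theorem inv_vv (he : Ox u (Sum.elim e v)) {ρ : V κ → ℝ} (hρ : GD (GR b u d v) ρ) (k l : ν)
    (h : k ≠ l) (hkl : d k = d l) (x : V κ) :
    ρ (x - (2 * ⟪v k, x⟫_ℝ) • v k - (2 * ⟪v l, x⟫_ℝ) • v l) = ρ x := by
  rw [← inv_vs he hρ k l hkl x, ← inv_va he hρ k l h hkl (x - ⟪v k - v l, x⟫_ℝ • (v k - v l))]
  congr 1
  have h' : ¬ l = k := fun h2 => h h2.symm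
  have h1 : ⟪v k + v l, x - ⟪v k - v l, x⟫_ℝ • (v k - v l)⟫_ℝ = ⟪v k, x⟫_ℝ + ⟪v l, x⟫_ℝ := by
    rw [inner_sub_right, inner_smul_right, inner_sub_right (v k + v l), inner_add_left,
      inner_add_left, inner_add_left, orth_v he, orth_v he, orth_v he, orth_v he]
    simp [h, h']
  rw [h1, inner_sub_left]
  module

theorem refl_v (he : Ox u (Sum.elim e v)) (k l : ν) (h : k ≠ l) (x : V κ) (i : ν) :
    ⟪v i, x - ⟪v k - v l, x⟫_ℝ • (v k - v l)⟫_ℝ = ⟪v (Equiv.swap k l i), x⟫_ℝ := by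
  rw [inner_sub_right, inner_smul_right, inner_sub_right (v i), inner_sub_left, orth_v he,
    orth_v he]
  by_cases h1 : i = k
  · subst h1
    rw [Equiv.swap_apply_left]
    simp [h]
  · by_cases h2 : i = l
    · subst h2
      rw [Equiv.swap_apply_right]
      simp [h1]
    · rw [Equiv.swap_apply_of_ne_of_ne h1 h2]
      simp [h1, h2]

section ctx

variable (hb : Function.Surjective b) (hu : Sx b u) (he : Ox u (Sum.elim e v))

theorem coord_e (y : V ((ι ⊕ (Fin q ⊕ ν)) × Fin 1)) (m : Fin q) (c : Fin 1) :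
    y (Sum.inr (Sum.inl m), c) = ⟪e m, A hb hu he y⟫_ℝ := coord_inr hb hu he y _ c

theorem coord_v (y : V ((ι ⊕ (Fin q ⊕ ν)) × Fin 1)) (l : ν) (c : Fin 1) :
    y (Sum.inr (Sum.inr l), c) = ⟪v l, A hb hu he y⟫_ℝ := coord_inr hb hu he y _ c

theorem AT_swu (k l : ι) (hkl : b k = b l) (y : V ((ι ⊕ (Fin q ⊕ ν)) × Fin 1)) :
    A hb hu he (swp (δ := Fin 1) (Sum.inl k) (Sum.inl l) y) =
      A hb hu he y - ⟪u k - u l, A hb hu he y⟫_ℝ • (u k - u l) ∧
    T hb hu he (swp (δ := Fin 1) (Sum.inl k) (Sum.inl l) y) = T hb hu he y := by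
  by_cases h : k = l
  · subst h
    have h2 : swp (δ := Fin 1) (Sum.inl k : ι ⊕ (Fin q ⊕ ν)) (Sum.inl k) y = y := by
      ext p
      rw [swp_apply, Equiv.swap_self]
      rfl
    rw [h2]
    simp
  · refine AT_of hb hu he _ _ _ (fun i => ?_) (fun m => ?_)
    · rw [refl_u hu k l hkl h, swp_apply]
      have h1 : Equiv.swap (Sum.inl k : ι ⊕ (Fin q ⊕ ν)) (Sum.inl l) (Sum.inl i) =
          Sum.inl (Equiv.swap k l i) := by
        by_cases h1 : i = k
        · subst h1
          rw [Equiv.swap_apply_left, Equiv.swap_apply_left]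
        · by_cases h2 : i = l
          · subst h2
            rw [Equiv.swap_apply_right, Equiv.swap_apply_right]
          · rw [Equiv.swap_apply_of_ne_of_ne h1 h2, Equiv.swap_apply_of_ne_of_ne]
            · exact fun h3 => h1 (Sum.inl_injective h3)
            · exact fun h3 => h2 (Sum.inl_injective h3)
      simp only [h1]
      rw [coord_inl hb hu he, b_swap hkl]
    · rw [swp_apply]
      have h1 : Equiv.swap (Sum.inl k : ι ⊕ (Fin q ⊕ ν)) (Sum.inl l) (Sum.inr m) = Sum.inr m :=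
        Equiv.swap_apply_of_ne_of_ne (by simp) (by simp)
      simp only [h1]
      rw [coord_inr hb hu he, inner_sub_right, inner_smul_right, inner_sub_right _ (u k)]
      have h2 : ∀ i, ⟪Sum.elim e v m, u i⟫_ℝ = 0 := fun i => by
        rw [real_inner_comm]; exact he.perp i m
      rw [h2, h2]
      ring

theorem AT_swv (k l : ν) (h : k ≠ l) (y : V ((ι ⊕ (Fin q ⊕ ν)) × Fin 1)) :
    A hb hu he (swp (δ := Fin 1) (Sum.inr (Sum.inr k)) (Sum.inr (Sum.inr l)) y) =
      A hb hu he y - ⟪v k - v l, A hb hu he y⟫_ℝ • (v k - v l) ∧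
    T hb hu he (swp (δ := Fin 1) (Sum.inr (Sum.inr k)) (Sum.inr (Sum.inr l)) y) =
      T hb hu he y := by
  refine AT_of hb hu he _ _ _ (fun i => ?_) (fun m => ?_)
  · rw [swp_apply]
    have h1 : Equiv.swap (Sum.inr (Sum.inr k) : ι ⊕ (Fin q ⊕ ν)) (Sum.inr (Sum.inr l))
        (Sum.inl i) = Sum.inl i := Equiv.swap_apply_of_ne_of_ne (by simp) (by simp)
    simp only [h1]
    rw [coord_inl hb hu he, inner_sub_right, inner_smul_right, inner_sub_right (u i),
      orth_uv he, orth_uv he]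
    ring
  · rw [swp_apply]
    rcases m with m | i
    · have h1 : Equiv.swap (Sum.inr (Sum.inr k) : ι ⊕ (Fin q ⊕ ν)) (Sum.inr (Sum.inr l))
          (Sum.inr (Sum.inl m)) = Sum.inr (Sum.inl m) :=
        Equiv.swap_apply_of_ne_of_ne (by simp) (by simp)
      simp only [h1]
      rw [coord_e hb hu he]
      show _ = ⟪e m, _⟫_ℝ
      rw [inner_sub_right, inner_smul_right, inner_sub_right (e m), orth_ev he, orth_ev he]
      ring
    · have h1 : Equiv.swap (Sum.inr (Sum.inr k) : ι ⊕ (Fin q ⊕ ν)) (Sum.inr (Sum.inr l))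
          (Sum.inr (Sum.inr i)) = Sum.inr (Sum.inr (Equiv.swap k l i)) := by
        by_cases h1 : i = k
        · subst h1
          rw [Equiv.swap_apply_left, Equiv.swap_apply_left]
        · by_cases h2 : i = l
          · subst h2
            rw [Equiv.swap_apply_right, Equiv.swap_apply_right]
          · rw [Equiv.swap_apply_of_ne_of_ne h1 h2, Equiv.swap_apply_of_ne_of_ne]
            · exact fun h3 => h1 (Sum.inr_injective (Sum.inr_injective h3))
            · exact fun h3 => h2 (Sum.inr_injective (Sum.inr_injective h3))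
      simp only [h1]
      rw [coord_v hb hu he]
      show _ = ⟪v i, _⟫_ℝ
      rw [refl_v he k l h]

theorem AT_fl (k l : ν) (h : k ≠ l) (y : V ((ι ⊕ (Fin q ⊕ ν)) × Fin 1)) :
    A hb hu he (fl {Sum.inr (Sum.inr k), Sum.inr (Sum.inr l)} y) =
      A hb hu he y - (2 * ⟪v k, A hb hu he y⟫_ℝ) • v k - (2 * ⟪v l, A hb hu he y⟫_ℝ) • v l ∧
    T hb hu he (fl {Sum.inr (Sum.inr k), Sum.inr (Sum.inr l)} y) = T hb hu he y := by
  have h' : ¬ l = k := fun h2 => h h2.symm
  refine AT_of hb hu he _ _ _ (fun i => ?_) (fun m => ?_)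
  · rw [fl_apply, if_neg (by simp), coord_inl hb hu he, inner_sub_right, inner_sub_right,
      inner_smul_right, inner_smul_right, orth_uv he, orth_uv he]
    ring
  · rw [fl_apply]
    rcases m with m | i
    · rw [if_neg (by simp), coord_e hb hu he]
      show _ = ⟪e m, _⟫_ℝ
      rw [inner_sub_right, inner_sub_right, inner_smul_right, inner_smul_right, orth_ev he,
        orth_ev he]
      ring
    · rw [coord_v hb hu he]
      show _ = ⟪v i, _⟫_ℝ
      rw [inner_sub_right, inner_sub_right, inner_smul_right, inner_smul_right, orth_v he,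
        orth_v he]
      by_cases h1 : i = k
      · subst h1
        simp [h]
        ring
      · by_cases h2 : i = l
        · subst h2
          simp [h1]
          ring
        · simp [h1, h2]

/-- the extended density -/
noncomputable def ex (δ : ℝ) (ρ : V κ → ℝ) : V ((ι ⊕ (Fin q ⊕ ν)) × Fin 1) → ℝ :=
  {y | T hb hu he y ∈ cb n δ}.indicator fun y => ρ (A hb hu he y)

theorem gd_ext {ρ : V κ → ℝ} (hρ : GD (GR b u d v) ρ) :
    GD (GAD (BB q b d) (DD n q r)) (fun y => ρ (A hb hu he y)) where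
  nonneg y := hρ.nonneg _
  meas := hρ.meas.comp (A hb hu he).continuous.measurable
  logc x y t h0 h1 := by
    rw [map_add, map_smul, map_smul]
    exact hρ.logc _ _ t h0 h1
  inv g hg y := by
    rcases gad_cases hg with h | ⟨k, l, hkl, rfl⟩ | ⟨k, l, h, hkl, rfl⟩ | ⟨k, l, h, hkl, rfl⟩
    · rw [h]
    · rw [(AT_swu hb hu he k l hkl y).1, inv_u hu hρ k l hkl]
    · rw [(AT_swv hb hu he k l h y).1, inv_vs he hρ k l hkl]
    · rw [(AT_fl hb hu he k l h y).1, inv_vv he hρ k l h hkl]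

theorem gd_ex {ρ : V κ → ℝ} (hρ : GD (GR b u d v) ρ) (δ : ℝ) :
    GD (GAD (BB q b d) (DD n q r)) (ex hb hu he δ ρ) := by
  refine gd_indicator (gd_ext hb hu he hρ) _ ?_ ?_ ?_
  · exact (cb_convex n δ).linear_preimage (T hb hu he).toLinearMap
  · exact ((cb_closed n δ).preimage (T hb hu he).continuous).measurableSet
  · intro g hg y
    show T hb hu he (g y) ∈ cb n δ ↔ T hb hu he y ∈ cb n δ
    rcases gad_cases hg with h | ⟨k, l, hkl, rfl⟩ | ⟨k, l, h, hkl, rfl⟩ | ⟨k, l, h, hkl, rfl⟩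
    · rw [h]
    · rw [(AT_swu hb hu he k l hkl y).2]
    · rw [(AT_swv hb hu he k l h y).2]
    · rw [(AT_fl hb hu he k l h y).2]

/-- integrals with respect to the extended density -/
theorem int_ex {ρ : V κ → ℝ} (hρ : GD (GR b u d v) ρ) (δ : ℝ) (f : V κ → ℝ)
    (W : V (Fin n) → ℝ) :
    ∫ y, f (A hb hu he y) * W (T hb hu he y) ∂(mu (ex hb hu he δ ρ)) =
      (∫ x, f x ∂(mu ρ)) * ∫ t, (cb n δ).indicator W t := by
  have hG := gd_ex hb hu he hρ δ
  rw [int_mu _ _ hG.nonneg hG.meas, int_mu _ _ hρ.nonneg hρ.meas,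
    ← int_prod hb hu he (fun x => f x * ρ x) ((cb n δ).indicator W)]
  refine integral_congr_ae (ae_of_all _ fun y => ?_)
  unfold ex
  by_cases h : T hb hu he y ∈ cb n δ
  · simp only [indicator, Set.mem_ofPred_eq, h, if_true]
    ring
  · simp only [indicator, Set.mem_ofPred_eq, h, if_false]
    ring

theorem lint_prod (f : V κ → ℝ≥0∞) (hf : Measurable f) (g : V (Fin n) → ℝ≥0∞)
    (hg : Measurable g) :
    ∫⁻ y, f (A hb hu he y) * g (T hb hu he y) = (∫⁻ x, f x) * ∫⁻ t, g t := by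
  have h := (E_mp hb hu he).lintegral_comp (f := fun z => f z.1 * g z.2)
    ((hf.comp measurable_fst).mul (hg.comp measurable_snd))
  simp only [E_apply] at h
  rw [h, lintegral_prod_mul hf.aemeasurable hg.aemeasurable]

theorem mass_ex {ρ : V κ → ℝ} (hρ : GD (GR b u d v) ρ) {δ : ℝ} (D : Set (V κ))
    (hD : MeasurableSet D) :
    mu (ex hb hu he δ ρ) {y | A hb hu he y ∈ D} = mu ρ D * volume (cb n δ) := by
  have hDm : MeasurableSet {y | A hb hu he y ∈ D} := hD.preimage (A hb hu he).continuous.measurable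
  rw [mu, withDensity_apply _ hDm, mu, withDensity_apply _ hD, ← lintegral_indicator hDm,
    ← lintegral_indicator hD]
  have h1 : ∀ y, ({y | A hb hu he y ∈ D}.indicator
      (fun a => ENNReal.ofReal (ex hb hu he δ ρ a))) y =
      (D.indicator (fun x => ENNReal.ofReal (ρ x)) (A hb hu he y)) *
        ((cb n δ).indicator (fun _ => (1 : ℝ≥0∞)) (T hb hu he y)) := by
    intro y
    unfold ex
    by_cases h : T hb hu he y ∈ cb n δ <;> by_cases h2 : A hb hu he y ∈ D <;>
      simp [indicator, h, h2]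
  rw [lintegral_congr h1, lint_prod hb hu he _ (hρ.meas.ennreal_ofReal.indicator hD) _
    (measurable_const.indicator (cb_meas n δ)), lintegral_indicator_const (cb_meas n δ) 1,
    one_mul]

theorem lc_ex {ρ : V κ → ℝ} (hρ : GD (GR b u d v) ρ) (hL : LC ρ) {δ : ℝ} (hδ : 0 < δ) :
    LC (ex hb hu he δ ρ) := by
  have hG := gd_ex hb hu he hρ δ
  have hm := mass_ex hb hu he hρ (δ := δ) univ MeasurableSet.univ
  have h0 : {y | A hb hu he y ∈ (univ : Set (V κ))} = univ := by ext y; simp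
  rw [h0] at hm
  refine ⟨hG.nonneg, hG.meas, hG.logc, ?_, ?_, ?_⟩
  · obtain ⟨R, hR⟩ := hL.bdd
    refine ⟨|R| + Real.sqrt (n * δ ^ 2), fun y hy => ?_⟩
    unfold ex
    by_cases h : T hb hu he y ∈ cb n δ
    · rw [indicator_of_mem (show y ∈ {y | T hb hu he y ∈ cb n δ} from h)]
      refine hR _ ?_
      by_contra hc
      rw [not_lt] at hc
      have h1 := norm_AT hb hu he y
      have h2 : ‖T hb hu he y‖ ≤ Real.sqrt (n * δ ^ 2) := by
        have := cb_bdd n hδ h
        rwa [mem_closedBall_zero_iff] at this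
      have h3 : ‖A hb hu he y‖ ≤ |R| := hc.trans (le_abs_self R)
      have h4 : 0 ≤ Real.sqrt (n * δ ^ 2) := Real.sqrt_nonneg _
      have h5 : 0 ≤ |R| := abs_nonneg R
      have h6 := norm_nonneg (A hb hu he y)
      have h7 := norm_nonneg (T hb hu he y)
      have h8 := norm_nonneg y
      nlinarith [mul_nonneg h5 h4]
    · rw [indicator_of_notMem (show y ∉ {y | T hb hu he y ∈ cb n δ} from h)]
  · rw [hm]
    exact ENNReal.mul_ne_top hL.fin (cb_lt_top n hδ).ne
  · intro h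
    rw [h] at hm
    have h1 : (mu ρ) univ ≠ 0 := by
      intro h2
      exact hL.ne (Measure.measure_univ_eq_zero.1 h2)
    have h2 := mul_ne_zero h1 (cb_pos n hδ).ne'
    exact h2 hm.symm

end ctx

end Pool.Agent.Q197.RG
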