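import Pool.Agent.Q197.RG.Loc
import Pool.Agent.Q197.RA.Fin

/-!
# Tails of the sums of absolute values in the blocks of type `D`
-/

set_option autoImplicit false

namespace Pool.Agent.Q197.RG

open MeasureTheory Set
open scoped ENNReal InnerProductSpace
open Pool.Agent.H212R2.KLS (mu Bdd)
open Pool.Agent.H888R2.KT (LC St tw)
open Pool.Agent.H888R2.KT.G2x (mu_indicator integral_mu_mul mu_mono intg)
open Pool.Agent.TH594.KP (V GD GG swp Bs mem_Bs card_Bs_pos ev swp_apply inner_ev gd_indicator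
  tw_cont gd_smul)
open Pool.Agent.TH597.HX.Main (mu_map int_map)
open Pool.Agent.Q197.RA (Sx Dv)

section arr

variable {ω : Type} [Fintype ω] [DecidableEq ω]

/-- change of signs -/
noncomputable def fp (S : Finset ω) : V ω ≃ₗᵢ[ℝ] V ω :=
  LinearIsometryEquiv.piLpCongrRight 2 fun p : ω =>
    if p ∈ S then LinearIsometryEquiv.neg ℝ else LinearIsometryEquiv.refl ℝ ℝ

theorem fp_apply (S : Finset ω) (x : V ω) (p : ω) : fp S x p = if p ∈ S then - x p else x p := by
  unfold fp
  rw [LinearIsometryEquiv.piLpCongrRight_apply]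
  by_cases h : p ∈ S <;> simp [h]

/-- the elementary inequality -/
theorem comb {S S' : Finset ω} (hS : S' ⊆ S) (h1 : (S.card : ℝ) ≤ 3 * S'.card)
    (h2 : (S.card : ℝ) ≤ 3 * (S \ S').card) (x : V ω) :
    2 * S.card * ∑ i ∈ S, |x i| ≤ 3 * (∑ i ∈ S, ∑ j ∈ S, |x i - x j| +
      ∑ i ∈ S, ∑ j ∈ S, |fp S' x i - fp S' x j|) := by
  have h3 : ∀ i ∈ S', ∀ j ∈ S \ S', |x i| + |x j| ≤ |x i - x j| + |fp S' x i - fp S' x j| := by
    intro i hi j hj
    rw [fp_apply, fp_apply, if_pos hi, if_neg (Finset.mem_sdiff.1 hj).2]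
    rcases abs_cases (x i) with ⟨a1, b1⟩ | ⟨a1, b1⟩ <;>
    rcases abs_cases (x j) with ⟨a2, b2⟩ | ⟨a2, b2⟩ <;>
    rcases abs_cases (x i - x j) with ⟨a3, b3⟩ | ⟨a3, b3⟩ <;>
    rcases abs_cases (-x i - x j) with ⟨a4, b4⟩ | ⟨a4, b4⟩ <;>
    rw [a1, a2, a3, a4] <;> linarith
  have h3' : ∀ i ∈ S \ S', ∀ j ∈ S', |x i| + |x j| ≤ |x i - x j| + |fp S' x i - fp S' x j| := by
    intro i hi j hj
    have h := h3 j hj i hi
    rw [abs_sub_comm (x i), abs_sub_comm (fp S' x i), add_comm |x i|]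
    exact h
  rw [← Finset.sum_add_distrib]
  simp_rw [← Finset.sum_add_distrib]
  have h4 : ∀ F : ω → ω → ℝ, (∀ i ∈ S, ∀ j ∈ S, 0 ≤ F i j) →
      ∑ i ∈ S \ S', ∑ j ∈ S', F i j + ∑ i ∈ S', ∑ j ∈ S \ S', F i j ≤
        ∑ i ∈ S, ∑ j ∈ S, F i j := by
    intro F hF
    have h5 : ∀ i ∈ S, ∑ j ∈ S, F i j = ∑ j ∈ S \ S', F i j + ∑ j ∈ S', F i j := fun i _ =>
      (Finset.sum_sdiff hS).symm
    rw [Finset.sum_congr rfl h5, ← Finset.sum_sdiff hS]
    have hm : S \ S' ⊆ S := Finset.sdiff_subset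
    refine add_le_add (Finset.sum_le_sum fun i hi => ?_) (Finset.sum_le_sum fun i hi => ?_)
    · have : 0 ≤ ∑ j ∈ S \ S', F i j := Finset.sum_nonneg fun j hj => hF i (hm hi) j (hm hj)
      linarith
    · have : 0 ≤ ∑ j ∈ S', F i j := Finset.sum_nonneg fun j hj => hF i (hS hi) j (hS hj)
      linarith
  have h5 := h4 (fun i j => |x i - x j| + |fp S' x i - fp S' x j|)
    (fun i _ j _ => add_nonneg (abs_nonneg _) (abs_nonneg _))
  have h6 : ∑ i ∈ S \ S', ∑ j ∈ S', (|x i| + |x j|) ≤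
      ∑ i ∈ S \ S', ∑ j ∈ S', (|x i - x j| + |fp S' x i - fp S' x j|) :=
    Finset.sum_le_sum fun i hi => Finset.sum_le_sum fun j hj => h3' i hi j hj
  have h7 : ∑ i ∈ S', ∑ j ∈ S \ S', (|x i| + |x j|) ≤
      ∑ i ∈ S', ∑ j ∈ S \ S', (|x i - x j| + |fp S' x i - fp S' x j|) :=
    Finset.sum_le_sum fun i hi => Finset.sum_le_sum fun j hj => h3 i hi j hj
  have h8 : ∑ i ∈ S \ S', ∑ j ∈ S', (|x i| + |x j|) =
      S'.card * ∑ i ∈ S \ S', |x i| + (S \ S').card * ∑ j ∈ S', |x j| := by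
    simp only [Finset.sum_add_distrib, Finset.sum_const, nsmul_eq_mul, ← Finset.mul_sum]
  have h9 : ∑ i ∈ S', ∑ j ∈ S \ S', (|x i| + |x j|) =
      (S \ S').card * ∑ i ∈ S', |x i| + S'.card * ∑ j ∈ S \ S', |x j| := by
    simp only [Finset.sum_add_distrib, Finset.sum_const, nsmul_eq_mul, ← Finset.mul_sum]
  have h10 : ∑ i ∈ S, |x i| = ∑ i ∈ S \ S', |x i| + ∑ i ∈ S', |x i| := (Finset.sum_sdiff hS).symm
  have h11 : 0 ≤ ∑ i ∈ S \ S', |x i| := Finset.sum_nonneg fun i _ => abs_nonneg _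
  have h12 : 0 ≤ ∑ i ∈ S', |x i| := Finset.sum_nonneg fun i _ => abs_nonneg _
  have h13 := mul_le_mul_of_nonneg_right h1 h11
  have h14 := mul_le_mul_of_nonneg_right h2 h12
  rw [h10]
  nlinarith

/-- the tail of the sum of absolute values -/
theorem tailD : ∃ C : ℝ, 0 < C ∧ ∀ {ω : Type} [Fintype ω] [DecidableEq ω] (S : Finset ω)
    (ρ : V ω → ℝ), 2 ≤ S.card → (∀ x, 0 ≤ ρ x) → Measurable ρ →
    (∀ x y : V ω, ∀ t : ℝ, 0 < t → t < 1 →
      ρ x ^ (1 - t) * ρ y ^ t ≤ ρ ((1 - t) • x + t • y)) →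
    (∀ k ∈ S, ∀ l ∈ S, ∀ x y : V ω, (∀ i, y i = x (Equiv.swap k l i)) → ρ y = ρ x) →
    (∀ k ∈ S, ∀ l ∈ S, k ≠ l → ∀ x y : V ω, (∀ i, y i = if i = k ∨ i = l then - x i else x i) →
      ρ y = ρ x) →
    Bdd ρ → mu ρ univ = 1 → ∀ s : ℝ, 0 < s → (∀ i ∈ S, ∫ x, x i ^ 2 ∂(mu ρ) ≤ s) →
    ∀ l : ℝ, 1 ≤ l →
    mu ρ {x : V ω | l * (C * Real.sqrt s) * S.card < ∑ i ∈ S, |x i|} ≤
      2 * ENNReal.ofReal (Real.exp (-(S.card * l))) := by
  obtain ⟨C, hC, H⟩ := Pool.Agent.TH148.HX.tail0
  refine ⟨3 * C, by positivity, ?_⟩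
  intro ω _ _ S ρ hS h0 hm hlog hsw hfl hB h1 s hs hmom l hl
  obtain ⟨S', hS', hc⟩ := Finset.exists_subset_card_eq (show S.card / 2 ≤ S.card by omega)
  have hc2 : (S \ S').card = S.card - S.card / 2 := by
    rw [Finset.card_sdiff_of_subset hS', hc]
  have n1 : (S.card : ℝ) ≤ 3 * S'.card := by
    have : S.card ≤ 3 * S'.card := by rw [hc]; omega
    exact_mod_cast this
  have n2 : (S.card : ℝ) ≤ 3 * (S \ S').card := by
    have : S.card ≤ 3 * (S \ S').card := by rw [hc2]; omega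
    exact_mod_cast this
  have k1 := H S ρ h0 hm hlog hsw hB h1 s hs hmom l hl
  have hF := mu_map (fp S') ρ hm
  have h1' : mu (fun x => ρ (fp S' x)) univ = 1 := by
    have h2 := congrArg (fun m : Measure (V ω) => m univ) hF
    rw [Measure.map_apply (fp S').continuous.measurable MeasurableSet.univ, preimage_univ, h1]
      at h2
    exact h2
  have k2 := H S (fun x => ρ (fp S' x)) (fun x => h0 _) (hm.comp (fp S').continuous.measurable)
    (fun x y t ht0 ht1 => by
      have h2 := hlog (fp S' x) (fp S' y) t ht0 ht1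
      rw [← map_smul, ← map_smul, ← map_add] at h2
      exact h2)
    (fun k hk l hl x y hxy => by
      obtain ⟨z, hz⟩ : ∃ z : V ω, z = WithLp.toLp 2 fun i => fp S' x (Equiv.swap k l i) :=
        ⟨_, rfl⟩
      have hz' : ∀ i, z i = fp S' x (Equiv.swap k l i) := fun i => by rw [hz]
      have e1 := hsw k hk l hl (fp S' x) z hz'
      by_cases hkl : (k ∈ S' ↔ l ∈ S')
      · have e2 : fp S' y = z := by
          ext i
          rw [hz', fp_apply, fp_apply, hxy]
          have h3 : i ∈ S' ↔ Equiv.swap k l i ∈ S' := by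
            by_cases a1 : i = k
            · subst a1
              rw [Equiv.swap_apply_left]
              exact hkl
            · by_cases a2 : i = l
              · subst a2
                rw [Equiv.swap_apply_right]
                exact hkl.symm
              · rw [Equiv.swap_apply_of_ne_of_ne a1 a2]
          by_cases h4 : i ∈ S'
          · rw [if_pos h4, if_pos (h3.1 h4)]
          · rw [if_neg h4, if_neg fun h5 => h4 (h3.2 h5)]
        show ρ (fp S' y) = ρ (fp S' x)
        rw [e2, e1]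
      · have hne : k ≠ l := fun h => hkl (by rw [h])
        show ρ (fp S' y) = ρ (fp S' x)
        rw [← e1]
        refine hfl k hk l hl hne z (fp S' y) fun i => ?_
        rw [hz', fp_apply, fp_apply, hxy]
        by_cases a1 : i = k
        · subst a1
          rw [Equiv.swap_apply_left, if_pos (Or.inl rfl)]
          by_cases a3 : i ∈ S'
          · have a4 : l ∉ S' := fun h => hkl ⟨fun _ => h, fun _ => a3⟩
            rw [if_pos a3, if_neg a4]
          · have a4 : l ∈ S' := by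
              by_contra h
              exact hkl ⟨fun h' => absurd h' a3, fun h' => absurd h' h⟩
            rw [if_neg a3, if_pos a4, neg_neg]
        · by_cases a2 : i = l
          · subst a2
            rw [Equiv.swap_apply_right, if_pos (Or.inr rfl)]
            by_cases a3 : i ∈ S'
            · have a4 : k ∉ S' := fun h => hkl ⟨fun _ => a3, fun _ => h⟩
              rw [if_pos a3, if_neg a4]
            · have a4 : k ∈ S' := by
                by_contra h
                exact hkl ⟨fun h' => absurd h' h, fun h' => absurd h' a3⟩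
              rw [if_neg a3, if_pos a4, neg_neg]
          · rw [Equiv.swap_apply_of_ne_of_ne a1 a2, if_neg (not_or.2 ⟨a1, a2⟩)])
    (by
      obtain ⟨R, hR⟩ := hB
      refine ⟨R, fun x hx => hR _ ?_⟩
      rw [LinearIsometryEquiv.norm_map]
      exact hx) h1' s hs (fun i hi => by
      have h2 := hmom i hi
      rw [int_map (fp S') ρ hm fun x => x i ^ 2] at h2
      refine le_trans (le_of_eq ?_) h2
      refine integral_congr_ae (ae_of_all _ fun x => ?_)
      simp only
      rw [fp_apply]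
      split_ifs
      · ring
      · rfl) l hl
  have hSc : (0 : ℝ) < S.card := by
    have : 0 < S.card := by omega
    exact_mod_cast this
  have hdm : MeasurableSet {x : V ω | l * (C * Real.sqrt s) * (S.card : ℝ) ^ 2 <
      ∑ i ∈ S, ∑ j ∈ S, |fp S' x i - fp S' x j|} := by
    refine measurableSet_lt measurable_const ?_
    refine Finset.measurable_sum _ fun i _ => Finset.measurable_sum _ fun j _ => ?_
    exact ((((EuclideanSpace.proj i : V ω →L[ℝ] ℝ).continuous.comp (fp S').continuous).sub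
      ((EuclideanSpace.proj j : V ω →L[ℝ] ℝ).continuous.comp (fp S').continuous)).abs).measurable
  have k3 : mu ρ {x : V ω | l * (C * Real.sqrt s) * (S.card : ℝ) ^ 2 <
      ∑ i ∈ S, ∑ j ∈ S, |fp S' x i - fp S' x j|} ≤
      ENNReal.ofReal (Real.exp (-(S.card * l))) := by
    rw [← hF, Measure.map_apply (fp S').continuous.measurable hdm]
    refine le_trans (le_of_eq ?_) k2
    congr 1
    ext x
    have hff : ∀ i, fp S' (fp S' x) i = x i := by
      intro i
      rw [fp_apply, fp_apply]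
      split_ifs
      · rw [neg_neg]
      · rfl
    show _ < ∑ i ∈ S, ∑ j ∈ S, |fp S' (fp S' x) i - fp S' (fp S' x) j| ↔ _
    simp only [hff]
    rfl
  have hsub : {x : V ω | l * (3 * C * Real.sqrt s) * S.card < ∑ i ∈ S, |x i|} ⊆
      {x : V ω | l * (C * Real.sqrt s) * (S.card : ℝ) ^ 2 < ∑ i ∈ S, ∑ j ∈ S, |x i - x j|} ∪
      {x : V ω | l * (C * Real.sqrt s) * (S.card : ℝ) ^ 2 <
        ∑ i ∈ S, ∑ j ∈ S, |fp S' x i - fp S' x j|} := by
    intro x hx
    by_contra hcon
    rw [mem_union, not_or] at hcon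
    obtain ⟨c1, c2⟩ := hcon
    have c1' : ∑ i ∈ S, ∑ j ∈ S, |x i - x j| ≤ l * (C * Real.sqrt s) * (S.card : ℝ) ^ 2 :=
      not_lt.1 c1
    have c2' : ∑ i ∈ S, ∑ j ∈ S, |fp S' x i - fp S' x j| ≤
        l * (C * Real.sqrt s) * (S.card : ℝ) ^ 2 := not_lt.1 c2
    have c3 := comb hS' n1 n2 x
    have c4 : l * (3 * C * Real.sqrt s) * S.card < ∑ i ∈ S, |x i| := hx
    have c5 := mul_lt_mul_of_pos_left c4 (by positivity : (0:ℝ) < 2 * S.card)
    nlinarith
  refine (measure_mono hsub).trans ((measure_union_le _ _).trans ?_)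
  rw [two_mul]
  exact add_le_add k1 k3

end arr

variable {κ ι ν : Type} [Fintype κ] [Fintype ι] [DecidableEq ι] [Fintype ν] [DecidableEq ν]
  {n q r : ℕ}
variable {b : ι → Fin n} {u : ι → V κ} {e : Fin q → V κ} {d : ν → Fin r} {v : ν → V κ}

/-- an orthonormal basis which contains the vectors `v l` -/
theorem basis_v (hv : Orthonormal ℝ v) :
    ∃ (m : ℕ) (B : OrthonormalBasis (Fin m ⊕ ν) ℝ (V κ)), ∀ l, B (Sum.inr l) = v l := by
  classical
  have key : ∀ (m : ℕ) (e' : Fin m → V κ), Pool.Agent.Q197.RA.Fx v e' →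
      ∃ B : OrthonormalBasis (Fin m ⊕ ν) ℝ (V κ), ∀ l, B (Sum.inr l) = v l := by
    intro m e' he'
    have h1 := orthonormal_iff_ite.1 he'.orth
    have h2 := orthonormal_iff_ite.1 hv
    have h3 : ∀ i j, ⟪e' i, v j⟫_ℝ = 0 := fun i j => by
      rw [real_inner_comm]; exact he'.perp j i
    have hon : Orthonormal ℝ (Sum.elim e' v) := by
      rw [orthonormal_iff_ite]
      rintro (i | i) (j | j)
      · simpa using h1 i j
      · simpa using h3 i j
      · simpa using he'.perp i j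
      · simpa using h2 i j
    have hx : ∀ x : V κ, ∑ l, ⟪e' l, x⟫_ℝ • e' l + ∑ l, ⟪v l, x⟫_ℝ • v l = x := by
      intro x
      refine (sub_eq_zero.1 (he'.full _ (fun j => ?_) (fun j => ?_)))
      · rw [inner_sub_right, inner_add_right, inner_sum, inner_sum]
        simp_rw [inner_smul_right]
        simp [he'.perp, h2]
      · rw [inner_sub_right, inner_add_right, inner_sum, inner_sum]
        simp_rw [inner_smul_right]
        simp [h3, h1]
    refine ⟨OrthonormalBasis.mk hon ?_, fun l => ?_⟩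
    · intro x _
      rw [← hx x]
      refine Submodule.add_mem _ (Submodule.sum_mem _ fun l _ => Submodule.smul_mem _ _
        (Submodule.subset_span ⟨Sum.inl l, rfl⟩)) (Submodule.sum_mem _ fun l _ =>
        Submodule.smul_mem _ _ (Submodule.subset_span ⟨Sum.inr l, rfl⟩))
    · rw [OrthonormalBasis.coe_mk]
      rfl
  obtain ⟨e', he'⟩ := Pool.Agent.Q197.RA.ex_fx v
  obtain ⟨B, hB⟩ := key _ e' he'
  exact ⟨_, B, hB⟩

/-- tail of the sum of the absolute values, one block -/
theorem tailV : ∃ C : ℝ, 0 < C ∧ ∀ {κ ι ν : Type} [Fintype κ] [Fintype ι] [DecidableEq ι]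
    [Fintype ν] [DecidableEq ν] {n q r : ℕ}
    {b : ι → Fin n} {u : ι → V κ} {e : Fin q → V κ} {d : ν → Fin r} {v : ν → V κ},
    (∀ t, 2 ≤ (Bs d t).card) → Ox u (Sum.elim e v) →
    ∀ ρ : V κ → ℝ, GD (GR b u d v) ρ → Bdd ρ → mu ρ univ = 1 → ∀ s : ℝ, 0 < s →
    (∀ θ : V κ, ∫ x, ⟪θ, x⟫_ℝ ^ 2 ∂(mu ρ) ≤ s * ‖θ‖ ^ 2) → ∀ (t : Fin r) (l : ℝ), 1 ≤ l →
    mu ρ {x : V κ | l * (C * Real.sqrt s) * (Bs d t).card < Aw d v t x} ≤
      2 * ENNReal.ofReal (Real.exp (-((Bs d t).card * l))) := by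
  obtain ⟨C, hC, H⟩ := tailD
  refine ⟨C, hC, ?_⟩
  intro κ ι ν _ _ _ _ _ n q r b u e d v hd he ρ hρ hbd h1 s hs hmom t l hl
  have hov : Orthonormal ℝ v := he.orth.comp Sum.inr Sum.inr_injective
  obtain ⟨m, B, hB⟩ := basis_v hov
  obtain ⟨T, hT⟩ : ∃ T : V (Fin m ⊕ ν) ≃ₗᵢ[ℝ] V κ, T = B.repr.symm := ⟨_, rfl⟩
  have hTi : ∀ (y : V (Fin m ⊕ ν)) i, ⟪B i, T y⟫_ℝ = y i := by
    intro y i
    rw [hT, ← OrthonormalBasis.repr_apply_apply, LinearIsometryEquiv.apply_symm_apply]
  have hTv : ∀ (y : V (Fin m ⊕ ν)) i, ⟪v i, T y⟫_ℝ = y (Sum.inr i) := by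
    intro y i
    rw [← hB, hTi]
  have hTx : ∀ (y : V (Fin m ⊕ ν)) (x : V κ), (∀ i, ⟪B i, x⟫_ℝ = y i) → T y = x := by
    intro y x hx
    rw [hT, LinearIsometryEquiv.symm_apply_eq]
    ext i
    rw [OrthonormalBasis.repr_apply_apply, hx]
  have hBo : ∀ i j, ⟪B i, B j⟫_ℝ = if i = j then 1 else 0 := orthonormal_iff_ite.1 B.orthonormal
  have hm := hρ.meas
  have hF := mu_map T ρ hm
  have h1' : mu (fun x => ρ (T x)) univ = 1 := by
    have h2 := congrArg (fun m : Measure (V κ) => m univ) hF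
    rw [Measure.map_apply T.continuous.measurable MeasurableSet.univ, preimage_univ, h1] at h2
    exact h2
  obtain ⟨S, hS⟩ : ∃ S : Finset (Fin m ⊕ ν), S = (Bs d t).map ⟨Sum.inr, Sum.inr_injective⟩ :=
    ⟨_, rfl⟩
  have hSc : S.card = (Bs d t).card := by rw [hS, Finset.card_map]
  have key := H S (fun x => ρ (T x)) (by rw [hSc]; exact hd t) (fun x => hρ.nonneg _)
    (hm.comp T.continuous.measurable)
    (fun x y t ht0 ht1 => by
      have h2 := hρ.logc (T x) (T y) t ht0 ht1
      rw [← map_smul, ← map_smul, ← map_add] at h2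
      exact h2)
    (fun k hk l hl x y hxy => by
      rw [hS, Finset.mem_map] at hk hl
      obtain ⟨k', hk', rfl⟩ := hk
      obtain ⟨l', hl', rfl⟩ := hl
      have hdk : d k' = d l' := by rw [(mem_Bs _ _ _).1 hk', (mem_Bs _ _ _).1 hl']
      by_cases hkl : k' = l'
      · subst hkl
        have e1 : y = x := by
          ext i
          rw [hxy i, Equiv.swap_self]
          rfl
        rw [e1]
      · show ρ (T y) = ρ (T x)
        have e1 : T y = T x - ⟪v k' - v l', T x⟫_ℝ • (v k' - v l') := by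
          refine hTx y _ fun i => ?_
          rw [inner_sub_right, inner_smul_right, inner_sub_right (B i), inner_sub_left, ← hB,
            ← hB, hBo, hBo, hTi, hTi, hTi, hxy i]
          simp only [Function.Embedding.coeFn_mk]
          have hkl' : (Sum.inr k' : Fin m ⊕ ν) ≠ Sum.inr l' :=
            fun h => hkl (Sum.inr_injective h)
          by_cases a1 : i = Sum.inr k'
          · subst a1
            rw [Equiv.swap_apply_left]
            simp [hkl']
          · by_cases a2 : i = Sum.inr l'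
            · subst a2
              rw [Equiv.swap_apply_right]
              simp [a1]
            · rw [Equiv.swap_apply_of_ne_of_ne a1 a2]
              simp [a1, a2]
        rw [e1, inv_vs he hρ k' l' hdk])
    (fun k hk l hl hkl x y hxy => by
      rw [hS, Finset.mem_map] at hk hl
      obtain ⟨k', hk', rfl⟩ := hk
      obtain ⟨l', hl', rfl⟩ := hl
      have hdk : d k' = d l' := by rw [(mem_Bs _ _ _).1 hk', (mem_Bs _ _ _).1 hl']
      have hkl' : k' ≠ l' := fun h => hkl (by rw [h])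
      show ρ (T y) = ρ (T x)
      have e1 : T y = T x - (2 * ⟪v k', T x⟫_ℝ) • v k' - (2 * ⟪v l', T x⟫_ℝ) • v l' := by
        refine hTx y _ fun i => ?_
        rw [inner_sub_right, inner_sub_right, inner_smul_right, inner_smul_right, ← hB,
          ← hB, hBo, hBo, hTi, hTi, hTi, hxy i]
        simp only [Function.Embedding.coeFn_mk]
        have hkl'' : (Sum.inr k' : Fin m ⊕ ν) ≠ Sum.inr l' :=
          fun h => hkl' (Sum.inr_injective h)
        by_cases a1 : i = Sum.inr k'
        · subst a1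
          rw [if_pos (Or.inl rfl), if_pos rfl, if_neg hkl'']
          ring
        · by_cases a2 : i = Sum.inr l'
          · subst a2
            rw [if_pos (Or.inr rfl), if_pos rfl, if_neg a1]
            ring
          · rw [if_neg (not_or.2 ⟨a1, a2⟩), if_neg a1, if_neg a2]
            ring
      rw [e1, inv_vv he hρ k' l' hkl' hdk])
    (by
      obtain ⟨R, hR⟩ := hbd
      refine ⟨R, fun x hx => hR _ ?_⟩
      rw [LinearIsometryEquiv.norm_map]
      exact hx) h1' s hs (fun i hi => by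
      have h2 := hmom (B i)
      rw [B.orthonormal.1 i, int_map T ρ hm fun x => ⟪B i, x⟫_ℝ ^ 2] at h2
      simp only [hTi] at h2
      linarith) l hl
  have hAm : Measurable (Aw d v t) := by
    unfold Aw
    exact Finset.measurable_sum _ fun i _ =>
      ((Pool.Agent.Q197.RA.cont_u (v i)).abs).measurable
  have hdm : MeasurableSet {x : V κ | l * (C * Real.sqrt s) * (Bs d t).card < Aw d v t x} :=
    measurableSet_lt measurable_const hAm
  rw [← hF, Measure.map_apply T.continuous.measurable hdm]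
  rw [hSc] at key
  refine le_trans (le_of_eq ?_) key
  congr 1
  ext y
  show _ < Aw d v t (T y) ↔ _ < ∑ i ∈ S, |y i|
  unfold Aw
  simp only [hTv]
  rw [hS, Finset.sum_map]
  rfl

end Pool.Agent.Q197.RG
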